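import Pool.Agent.Lib_MP_270856_an.Embed

set_option autoImplicit false

namespace Pool.Agent.Roe

open Classical

theorem err_nonneg (n J : ℕ) : 0 ≤ err n J := by
  unfold err
  positivity

theorem row_bound {n J K : ℕ} (hnJ : n ≤ J)
    (hK : ∀ x : XPt, ∃ s : Finset XPt, s.card ≤ K ∧ ∀ y, cX.E n x y → y ∈ s)
    (w : XPt → XPt → ℝ) {M : ℝ} (hM : 0 ≤ M) (hw0 : ∀ x x', 0 ≤ w x x')
    (hw : ∀ x x', w x x' ≤ M) (hw' : ∀ x x', ¬ cX.E n x x' → w x x' = 0)
    (a : XPt × Bits) (s : Finset (XPt × Bits)) :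
    ∑ b ∈ s, (if cY.E (J + 1) a b then 0 else w a.1 b.1 * ‖ker a b‖) ≤ K * M * err n J := by
  obtain ⟨x, g⟩ := a
  obtain ⟨t, ht, ht'⟩ := hK x
  have hnn : ∀ b : XPt × Bits,
      0 ≤ (if cY.E (J + 1) (x, g) b then 0 else w x b.1 * ‖ker (x, g) b‖) := by
    intro b
    split_ifs
    · exact le_rfl
    · exact mul_nonneg (hw0 _ _) (norm_nonneg _)
  have s1 : ∑ b ∈ s, (if cY.E (J + 1) (x, g) b then 0 else w x b.1 * ‖ker (x, g) b‖) ≤
      ∑ b ∈ t ×ˢ s.image Prod.snd,
        (if cY.E (J + 1) (x, g) b then 0 else w x b.1 * ‖ker (x, g) b‖) := by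
    rw [← Finset.sum_filter_ne_zero s]
    apply Finset.sum_le_sum_of_subset_of_nonneg
    · intro b hb
      obtain ⟨hb1, hne⟩ := Finset.mem_filter.1 hb
      rw [Finset.mem_product]
      refine ⟨?_, Finset.mem_image_of_mem _ hb1⟩
      apply ht'
      by_contra hcon
      apply hne
      rw [hw' _ _ hcon, zero_mul]
      split_ifs <;> rfl
    · intro b _ _
      exact hnn b
  refine s1.trans ?_
  rw [Finset.sum_product]
  have s2 : ∀ x' ∈ t, ∑ g' ∈ s.image Prod.snd, (if cY.E (J + 1) (x, g) (x', g') then 0 else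
      w x x' * ‖ker (x, g) (x', g')‖) ≤ M * err n J := by
    intro x' _
    by_cases hE : cX.E n x x'
    · have h1 := ker_bad hnJ hE g (s.image Prod.snd)
      calc ∑ g' ∈ s.image Prod.snd, (if cY.E (J + 1) (x, g) (x', g') then 0 else
            w x x' * ‖ker (x, g) (x', g')‖)
          = w x x' * ∑ g' ∈ s.image Prod.snd, (if cY.E (J + 1) (x, g) (x', g') then 0 else
            ‖ker (x, g) (x', g')‖) := by
            rw [Finset.mul_sum]
            refine Finset.sum_congr rfl fun g' _ => ?_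
            split_ifs
            · rw [mul_zero]
            · rfl
        _ ≤ w x x' * err n J := mul_le_mul_of_nonneg_left h1 (hw0 _ _)
        _ ≤ M * err n J := mul_le_mul_of_nonneg_right (hw _ _) (err_nonneg _ _)
    · have h0 : ∑ g' ∈ s.image Prod.snd, (if cY.E (J + 1) (x, g) (x', g') then 0 else
            w x x' * ‖ker (x, g) (x', g')‖) = 0 := by
        apply Finset.sum_eq_zero
        intro g' _
        rw [hw' _ _ hE, zero_mul]
        split_ifs <;> rfl
      rw [h0]
      exact mul_nonneg hM (err_nonneg _ _)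
  calc ∑ x' ∈ t, ∑ g' ∈ s.image Prod.snd, (if cY.E (J + 1) (x, g) (x', g') then 0 else
      w x x' * ‖ker (x, g) (x', g')‖) ≤ ∑ _x' ∈ t, M * err n J := Finset.sum_le_sum s2
    _ = t.card * (M * err n J) := by rw [Finset.sum_const, nsmul_eq_mul]
    _ ≤ K * (M * err n J) := by
        apply mul_le_mul_of_nonneg_right _ (mul_nonneg hM (err_nonneg _ _))
        exact_mod_cast ht
    _ = K * M * err n J := by ring

theorem approx (T : H2 XPt →L[ℂ] H2 XPt) (n : ℕ)
    (hT : ∀ x x', ¬ cX.E n x x' → ent T x x' = 0) {ε : ℝ} (hε : 0 < ε) :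
    ∃ S : H2 (XPt × Bits) →L[ℂ] H2 (XPt × Bits),
      (∃ m : ℕ, ∀ a b, ¬ cY.E m a b → ent S a b = 0) ∧ ‖Phi T - S‖ < ε := by
  obtain ⟨K, hK⟩ := cX.ball_bound cX_bound n
  have hlim : Filter.Tendsto (fun J => (K * ‖T‖) * err n J) Filter.atTop (nhds 0) := by
    have := (err_tendsto n).const_mul (K * ‖T‖)
    rwa [mul_zero] at this
  have hev : ∀ᶠ J in Filter.atTop, (K * ‖T‖) * err n J < ε := hlim.eventually_lt_const hε
  obtain ⟨J, hJ1, hJ2⟩ := (hev.and (Filter.eventually_ge_atTop n)).exists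
  have hC : 0 ≤ K * ‖T‖ * err n J := by
    have := err_nonneg n J
    positivity
  obtain ⟨F, hF1, hF2⟩ := schur
    (fun a b : XPt × Bits => if cY.E (J + 1) a b then 0 else ent T a.1 b.1 * ker a b) hC
    (by
      intro a s
      have h1 := row_bound hJ2 hK (fun x x' => ‖ent T x x'‖) (norm_nonneg T)
        (fun _ _ => norm_nonneg _) (fun x x' => ent_le T x x')
        (fun x x' hE => by rw [hT x x' hE, norm_zero]) a s
      refine le_trans (le_of_eq ?_) h1
      refine Finset.sum_congr rfl fun b _ => ?_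
      split_ifs
      · exact norm_zero
      · exact norm_mul _ _)
    (by
      intro b s
      have h1 := row_bound hJ2 hK (fun x x' => ‖ent T x' x‖) (norm_nonneg T)
        (fun _ _ => norm_nonneg _) (fun x x' => ent_le T x' x)
        (fun x x' hE => by rw [hT x' x (fun h' => hE (cX.E_symm h')), norm_zero]) b s
      refine le_trans (le_of_eq ?_) h1
      refine Finset.sum_congr rfl fun a _ => ?_
      by_cases hE : cY.E (J + 1) a b
      · rw [if_pos hE, if_pos (cY.E_symm hE), norm_zero]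
      · rw [if_neg hE, if_neg (fun h' => hE (cY.E_symm h')), norm_mul, ← ker_symm b a,
          RCLike.norm_conj])
  refine ⟨Phi T - F, ⟨J + 1, ?_⟩, ?_⟩
  · intro a b hE
    have h1 : ent (Phi T - F) a b = ent (Phi T) a b - ent F a b := by
      rw [ent_eq, ent_eq, ent_eq, _root_.sub_apply, lp.coeFn_sub, Pi.sub_apply]
    rw [h1, Phi_ent, hF2, if_neg hE, sub_self]
  · have : Phi T - (Phi T - F) = F := by abel
    rw [this]
    exact lt_of_le_of_lt hF1 hJ1

end Pool.Agent.Roe
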