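import Mathlib

set_option autoImplicit false

namespace Pool.Agent.Roe

/-- `n`-step chains of a relation. -/
def Chain {α : Type} (r : α → α → Prop) : ℕ → α → α → Prop
  | 0, x, y => x = y
  | n + 1, x, y => ∃ z, Chain r n x z ∧ r z y

theorem Chain.mono {α : Type} {r r' : α → α → Prop} (hr : ∀ x y, r x y → r' x y) :
    ∀ (n : ℕ) (x y : α), Chain r n x y → Chain r' n x y
  | 0, _, _, h => h
  | n + 1, x, _, ⟨z, hz, hzy⟩ => ⟨z, Chain.mono hr n x z hz, hr _ _ hzy⟩

theorem Chain.mono_n {α : Type} {r : α → α → Prop} (hr : ∀ x, r x x) {n m : ℕ} (hnm : n ≤ m)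
    {x y : α} (h : Chain r n x y) : Chain r m x y := by
  induction hnm with
  | refl => exact h
  | step _ ih => exact ⟨y, ih, hr y⟩

theorem Chain.trans {α : Type} {r : α → α → Prop} {n : ℕ} {x y : α} (h : Chain r n x y) :
    ∀ (m : ℕ) (z : α), Chain r m y z → Chain r (n + m) x z
  | 0, z, h0 => by
      have : y = z := h0
      subst this
      simpa using h
  | m + 1, z, ⟨w, hw, hwz⟩ => ⟨w, Chain.trans h m w hw, hwz⟩

theorem Chain.head {α : Type} {r : α → α → Prop} {x y : α} (h : r x y) :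
    ∀ (n : ℕ) (z : α), Chain r n y z → Chain r (n + 1) x z
  | 0, z, h0 => by
      have : y = z := h0
      subst this
      exact ⟨x, rfl, h⟩
  | n + 1, z, ⟨w, hw, hwz⟩ => ⟨w, Chain.head h n w hw, hwz⟩

theorem Chain.symm {α : Type} {r : α → α → Prop} (hr : ∀ x y, r x y → r y x) :
    ∀ (n : ℕ) (x y : α), Chain r n x y → Chain r n y x
  | 0, _, _, h => Eq.symm h
  | n + 1, x, y, ⟨z, hz, hzy⟩ => Chain.head (hr _ _ hzy) n x (Chain.symm hr n x z hz)

/-- An increasing sequence of reflexive symmetric relations, giving an integer valued metric. -/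
structure ChainData (α : Type) where
  S : ℕ → α → α → Prop
  refl : ∀ n x, S n x x
  symm : ∀ n x y, S n x y → S n y x
  mono : ∀ m n x y, m ≤ n → S m x y → S n x y
  conn : ∀ x y, ∃ n, Chain (S n) n x y

namespace ChainData

variable {α : Type} (c : ChainData α)

/-- closeness at scale `n` -/
def E (n : ℕ) (x y : α) : Prop := Chain (c.S n) n x y

theorem E_mono {m n : ℕ} (h : m ≤ n) {x y : α} (hE : c.E m x y) : c.E n x y :=
  Chain.mono_n (c.refl n) h (Chain.mono (fun x y => c.mono m n x y h) m x y hE)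

theorem E_symm {n : ℕ} {x y : α} (hE : c.E n x y) : c.E n y x :=
  Chain.symm (c.symm n) n x y hE

theorem E_trans {m n : ℕ} {x y z : α} (h1 : c.E m x y) (h2 : c.E n y z) : c.E (m + n) x z :=
  Chain.trans (Chain.mono (fun x y => c.mono m (m + n) x y (Nat.le_add_right m n)) m x y h1) n z
    (Chain.mono (fun x y => c.mono n (m + n) x y (Nat.le_add_left n m)) n y z h2)

open Classical in
/-- the distance -/
noncomputable def d (x y : α) : ℕ := Nat.find (c.conn x y)

theorem d_le {n : ℕ} {x y : α} : c.d x y ≤ n ↔ c.E n x y := by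
  classical
  constructor
  · intro h
    exact c.E_mono h (Nat.find_spec (c.conn x y))
  · intro h
    exact Nat.find_min' (c.conn x y) h

theorem d_self (x : α) : c.d x x = 0 := by
  have : c.d x x ≤ 0 := c.d_le.2 (show Chain (c.S 0) 0 x x from rfl)
  omega

theorem d_comm (x y : α) : c.d x y = c.d y x :=
  le_antisymm (c.d_le.2 (c.E_symm (c.d_le.1 le_rfl))) (c.d_le.2 (c.E_symm (c.d_le.1 le_rfl)))

theorem d_triangle (x y z : α) : c.d x z ≤ c.d x y + c.d y z :=
  c.d_le.2 (c.E_trans (c.d_le.1 le_rfl) (c.d_le.1 le_rfl))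

theorem eq_of_d {x y : α} (h : c.d x y = 0) : x = y :=
  (c.d_le.1 h.le : Chain (c.S 0) 0 x y)

/-- the metric space structure -/
noncomputable def metric : MetricSpace α where
  dist x y := (c.d x y : ℝ)
  dist_self x := by simp [c.d_self]
  dist_comm x y := by simp [c.d_comm x y]
  dist_triangle x y z := by exact_mod_cast c.d_triangle x y z
  eq_of_dist_eq_zero := by
    intro x y h
    have h' : (c.d x y : ℝ) = 0 := h
    exact c.eq_of_d (by exact_mod_cast h')

theorem dist_le_iff {x y : α} {n : ℕ} :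
    (letI := c.metric; dist x y ≤ (n : ℝ)) ↔ c.E n x y := by
  show ((c.d x y : ℝ) ≤ (n : ℝ)) ↔ _
  rw [Nat.cast_le]
  exact c.d_le

theorem E_of_dist_le {x y : α} {R : ℝ} (h : letI := c.metric; dist x y ≤ R) :
    c.E ⌊R⌋₊ x y := by
  have h' : (c.d x y : ℝ) ≤ R := h
  apply c.d_le.1
  exact Nat.le_floor h'

theorem dist_le_of_E {x y : α} {n : ℕ} (h : c.E n x y) :
    letI := c.metric; dist x y ≤ (n : ℝ) := by
  show ((c.d x y : ℝ) ≤ (n : ℝ))
  exact_mod_cast c.d_le.2 h

theorem ball_bound (hS : ∀ n, ∃ K : ℕ, ∀ x, ∃ s : Finset α, s.card ≤ K ∧ ∀ y, c.S n x y → y ∈ s)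
    (n : ℕ) : ∃ K : ℕ, ∀ x, ∃ s : Finset α, s.card ≤ K ∧ ∀ y, c.E n x y → y ∈ s := by
  classical
  obtain ⟨K, hK⟩ := hS n
  have key : ∀ m : ℕ, ∃ K' : ℕ, ∀ x, ∃ s : Finset α, s.card ≤ K' ∧
      ∀ y, Chain (c.S n) m x y → y ∈ s := by
    intro m
    induction m with
    | zero =>
      refine ⟨1, fun x => ⟨{x}, by simp, fun y hy => ?_⟩⟩
      have : x = y := hy
      simp [this]
    | succ m ih =>
      obtain ⟨K', hK'⟩ := ih
      refine ⟨K' * K, fun x => ?_⟩
      obtain ⟨s, hs, hs'⟩ := hK' x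
      choose t ht ht' using hK
      refine ⟨s.biUnion t, ?_, ?_⟩
      · refine (Finset.card_biUnion_le_card_mul s t K (fun a _ => ht a)).trans ?_
        exact Nat.mul_le_mul_right K hs
      · rintro y ⟨z, hz, hzy⟩
        exact Finset.mem_biUnion.2 ⟨z, hs' z hz, ht' z y hzy⟩
  exact key n

theorem ulf (hS : ∀ n, ∃ K : ℕ, ∀ x, ∃ s : Finset α, s.card ≤ K ∧ ∀ y, c.S n x y → y ∈ s) :
    letI := c.metric
    ∀ r : ℝ, ∃ N : ℕ, ∀ x : α,
        (Metric.closedBall x r).Finite ∧ (Metric.closedBall x r).ncard ≤ N := by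
  letI := c.metric
  intro r
  obtain ⟨K, hK⟩ := c.ball_bound hS ⌊r⌋₊
  refine ⟨K, fun x => ?_⟩
  obtain ⟨s, hs, hs'⟩ := hK x
  have hsub : Metric.closedBall x r ⊆ (s : Set α) := by
    intro y hy
    rw [Metric.mem_closedBall] at hy
    exact hs' y (c.E_symm (c.E_of_dist_le hy))
  refine ⟨(Finset.finite_toSet s).subset hsub, ?_⟩
  calc (Metric.closedBall x r).ncard ≤ (s : Set α).ncard :=
        Set.ncard_le_ncard hsub (Finset.finite_toSet s)
    _ = s.card := Set.ncard_coe_finset s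
    _ ≤ K := hs

end ChainData

end Pool.Agent.Roe
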