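import Pool.Agent.Lib_MP_270856_an.Basic

set_option autoImplicit false

namespace Pool.Agent.Roe

/-! ### The carpet -/

/-- ratios -/
def k (n : ℕ) : ℤ := 16 ^ (n + 1)

/-- side of the cells of level `n` -/
def L : ℕ → ℤ
  | 0 => 1
  | n + 1 => 3 * (k n * L n)

/-- side of the holes of type `n` -/
def h (n : ℕ) : ℤ := k n * L n

theorem L_zero : L 0 = 1 := rfl

theorem L_succ (n : ℕ) : L (n + 1) = 3 * h n := rfl

theorem h_eq (n : ℕ) : h n = k n * L n := rfl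

theorem k_ge (n : ℕ) : 16 ≤ k n := by
  unfold k
  calc (16 : ℤ) = 16 ^ 1 := by norm_num
    _ ≤ 16 ^ (n + 1) := pow_le_pow_right₀ (by norm_num) (by omega)

theorem k_pos (n : ℕ) : 0 < k n := by have := k_ge n; omega

theorem L_pos : ∀ n, 0 < L n
  | 0 => by simp [L]
  | n + 1 => by
    have := L_pos n
    have := k_pos n
    simp only [L]
    positivity

theorem h_pos (n : ℕ) : 0 < h n := mul_pos (k_pos n) (L_pos n)

theorem L_ge_one (n : ℕ) : 1 ≤ L n := L_pos n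

theorem L_le_h (n : ℕ) : 16 * L n ≤ h n := by
  have := L_pos n
  have := k_ge n
  unfold h
  nlinarith

theorem L_dvd_h (n : ℕ) : L n ∣ h n := ⟨k n, by unfold h; ring⟩

theorem L_dvd_succ (n : ℕ) : L n ∣ L (n + 1) := ⟨3 * k n, by rw [L_succ, h_eq]; ring⟩

theorem L_dvd {n m : ℕ} (hnm : n ≤ m) : L n ∣ L m := by
  induction hnm with
  | refl => exact dvd_rfl
  | step _ ih => exact ih.trans (L_dvd_succ _)

theorem L_mono {n m : ℕ} (hnm : n ≤ m) : L n ≤ L m :=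
  Int.le_of_dvd (L_pos m) (L_dvd hnm)

theorem h_lt_L_succ (n : ℕ) : h n < L (n + 1) := by
  have := h_pos n
  rw [L_succ]; omega

theorem h_even (n : ℕ) : ∃ M : ℤ, h n = 2 * M := by
  refine ⟨8 * 16 ^ n * L n, ?_⟩
  unfold h k
  ring

/-- planar points -/
abbrev Pt := ℤ × ℤ

/-- the closed hole of type `l` in the cell `(A, B)` of level `l + 1` -/
def CH (l : ℕ) (A B : ℤ) (x : Pt) : Prop :=
  (A * L (l + 1) + h l ≤ x.1 ∧ x.1 ≤ A * L (l + 1) + 2 * h l) ∧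
  (B * L (l + 1) + h l ≤ x.2 ∧ x.2 ≤ B * L (l + 1) + 2 * h l)

/-- the open hole of type `l` in the cell `(A, B)` of level `l + 1` -/
def OH (l : ℕ) (A B : ℤ) (x : Pt) : Prop :=
  (A * L (l + 1) + h l < x.1 ∧ x.1 < A * L (l + 1) + 2 * h l) ∧
  (B * L (l + 1) + h l < x.2 ∧ x.2 < B * L (l + 1) + 2 * h l)

/-- points of the carpet -/
def P (x : Pt) : Prop := ∀ (l : ℕ) (A B : ℤ), ¬ OH l A B x

/-- boundary of a hole -/
def Bd (l : ℕ) (A B : ℤ) (x : Pt) : Prop := CH l A B x ∧ ¬ OH l A B x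

/-- the antipodal point -/
def rho (l : ℕ) (A B : ℤ) (x : Pt) : Pt :=
  ((2 * A + 1) * L (l + 1) - x.1, (2 * B + 1) * L (l + 1) - x.2)

theorem rho_rho (l : ℕ) (A B : ℤ) (x : Pt) : rho l A B (rho l A B x) = x := by
  unfold rho; ext <;> simp

theorem rho_CH {l : ℕ} {A B : ℤ} {x : Pt} (hx : CH l A B x) : CH l A B (rho l A B x) := by
  obtain ⟨⟨h1, h2⟩, h3, h4⟩ := hx
  have hL := L_succ l
  unfold CH rho
  simp only
  refine ⟨⟨?_, ?_⟩, ?_, ?_⟩ <;> nlinarith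

theorem rho_OH {l : ℕ} {A B : ℤ} {x : Pt} (hx : OH l A B x) : OH l A B (rho l A B x) := by
  obtain ⟨⟨h1, h2⟩, h3, h4⟩ := hx
  have hL := L_succ l
  unfold OH rho
  simp only
  refine ⟨⟨?_, ?_⟩, ?_, ?_⟩ <;> nlinarith

theorem rho_Bd {l : ℕ} {A B : ℤ} {x : Pt} (hx : Bd l A B x) : Bd l A B (rho l A B x) := by
  refine ⟨rho_CH hx.1, fun h' => hx.2 ?_⟩
  have := rho_OH h'
  rwa [rho_rho] at this

/-- the jump relation -/
def Jump (l : ℕ) (x y : Pt) : Prop := ∃ A B : ℤ, Bd l A B x ∧ y = rho l A B x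

theorem Jump.symm {l : ℕ} {x y : Pt} (hj : Jump l x y) : Jump l y x := by
  obtain ⟨A, B, hx, rfl⟩ := hj
  exact ⟨A, B, rho_Bd hx, (rho_rho l A B x).symm⟩

theorem cell_le {M a b : ℤ} (hM : 0 < M) (hab : a * M < b * M + M) : a ≤ b := by
  by_contra hcon
  have : b + 1 ≤ a := by omega
  nlinarith

/-- the boundary of a hole has a coordinate on the grid of level `l` -/
theorem Bd_grid {l : ℕ} {A B : ℤ} {x : Pt} (hx : Bd l A B x) : L l ∣ x.1 ∨ L l ∣ x.2 := by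
  obtain ⟨⟨⟨h1, h2⟩, h3, h4⟩, hO⟩ := hx
  have d1 : L l ∣ L (l + 1) := L_dvd_succ l
  have d2 : L l ∣ h l := L_dvd_h l
  have key : ∀ (C z : ℤ), (z = C * L (l + 1) + h l ∨ z = C * L (l + 1) + 2 * h l) → L l ∣ z := by
    intro C z hz
    rcases hz with rfl | rfl
    · exact dvd_add (dvd_mul_of_dvd_right d1 _) d2
    · exact dvd_add (dvd_mul_of_dvd_right d1 _) (dvd_mul_of_dvd_right d2 _)
  by_contra hcon
  push Not at hcon
  apply hO
  refine ⟨⟨lt_of_le_of_ne h1 ?_, lt_of_le_of_ne h2 ?_⟩, lt_of_le_of_ne h3 ?_, lt_of_le_of_ne h4 ?_⟩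
  · intro he; exact hcon.1 (key A _ (Or.inl he.symm))
  · intro he; exact hcon.1 (key A _ (Or.inr he))
  · intro he; exact hcon.2 (key B _ (Or.inl he.symm))
  · intro he; exact hcon.2 (key B _ (Or.inr he))

theorem CH_not_dvd {l : ℕ} {A B : ℤ} {x : Pt} (hx : CH l A B x) :
    ¬ L (l + 1) ∣ x.1 ∧ ¬ L (l + 1) ∣ x.2 := by
  obtain ⟨⟨h1, h2⟩, h3, h4⟩ := hx
  have hp := h_pos l
  have hL := L_succ l
  have hLp := L_pos (l + 1)
  constructor
  · rintro ⟨c, hc⟩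
    have e1 : c ≤ A := cell_le hLp (by rw [mul_comm c]; linarith)
    have e2 : A + 1 ≤ c := cell_le hLp (by rw [mul_comm c]; nlinarith)
    omega
  · rintro ⟨c, hc⟩
    have e1 : c ≤ B := cell_le hLp (by rw [mul_comm c]; linarith)
    have e2 : B + 1 ≤ c := cell_le hLp (by rw [mul_comm c]; nlinarith)
    omega

theorem CH_cell_unique {l : ℕ} {A B A' B' : ℤ} {x : Pt} (hx : CH l A B x) (hx' : CH l A' B' x) :
    A = A' ∧ B = B' := by
  obtain ⟨⟨h1, h2⟩, h3, h4⟩ := hx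
  obtain ⟨⟨h1', h2'⟩, h3', h4'⟩ := hx'
  have hp := h_pos l
  have hL := L_succ l
  have hLp := L_pos (l + 1)
  refine ⟨le_antisymm ?_ ?_, le_antisymm ?_ ?_⟩ <;> apply cell_le hLp <;> linarith

theorem Bd_level_unique {l l' : ℕ} {A B A' B' : ℤ} {x : Pt} (hx : Bd l A B x)
    (hx' : Bd l' A' B' x) : l = l' := by
  by_contra hne
  rcases lt_or_gt_of_ne hne with hlt | hlt
  · have hd : L (l + 1) ∣ L l' := L_dvd hlt
    rcases Bd_grid hx' with hg | hg
    · exact (CH_not_dvd hx.1).1 (hd.trans hg)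
    · exact (CH_not_dvd hx.1).2 (hd.trans hg)
  · have hd : L (l' + 1) ∣ L l := L_dvd hlt
    rcases Bd_grid hx with hg | hg
    · exact (CH_not_dvd hx'.1).1 (hd.trans hg)
    · exact (CH_not_dvd hx'.1).2 (hd.trans hg)

theorem Jump_unique {l l' : ℕ} {x y y' : Pt} (hj : Jump l x y) (hj' : Jump l' x y') :
    l = l' ∧ y = y' := by
  obtain ⟨A, B, hx, rfl⟩ := hj
  obtain ⟨A', B', hx', rfl⟩ := hj'
  have := Bd_level_unique hx hx'
  subst this
  obtain ⟨rfl, rfl⟩ := CH_cell_unique hx.1 hx'.1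
  exact ⟨rfl, rfl⟩

theorem OH_not_dvd {l : ℕ} {A B : ℤ} {x : Pt} (hx : OH l A B x) :
    ¬ L (l + 1) ∣ x.1 ∧ ¬ L (l + 1) ∣ x.2 :=
  CH_not_dvd (A := A) (B := B) ⟨⟨hx.1.1.le, hx.1.2.le⟩, hx.2.1.le, hx.2.2.le⟩

theorem OH_not_grid {l : ℕ} {A B : ℤ} {x : Pt} (hx : OH l A B x) :
    ∀ m, l < m → ¬ (L m ∣ x.1) ∧ ¬ (L m ∣ x.2) := by
  intro m hm
  have hd : L (l + 1) ∣ L m := L_dvd hm
  exact ⟨fun h' => (OH_not_dvd hx).1 (hd.trans h'), fun h' => (OH_not_dvd hx).2 (hd.trans h')⟩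

/-- one dimensional fact: if a cell interior point lies in a grid-aligned interval, so does the
whole cell -/
theorem interval_aux {M a p q z : ℤ} (hM : 0 < M) (hp : M ∣ p) (hq : M ∣ q)
    (hz : p < z) (hz' : z < q) (hz1 : a * M < z) (hz2 : z < (a + 1) * M) :
    p ≤ a * M ∧ (a + 1) * M ≤ q := by
  obtain ⟨u, rfl⟩ := hp
  obtain ⟨v, rfl⟩ := hq
  have h1 : u ≤ a := cell_le hM (by nlinarith)
  have h2 : a + 1 ≤ v := by
    have : a < v := by
      by_contra hcon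
      push Not at hcon
      nlinarith
    omega
  constructor <;> nlinarith

theorem P_of_Bd {l : ℕ} {A B : ℤ} {x q : Pt} (hP : P x) (hx : CH l A B x) (hq : Bd l A B q) :
    P q := by
  intro l' A' B' hO
  rcases lt_trichotomy l' l with hlt | heq | hgt
  · rcases Bd_grid hq with hg | hg
    · exact (OH_not_grid hO l hlt).1 hg
    · exact (OH_not_grid hO l hlt).2 hg
  · subst heq
    have hC : CH l' A' B' q := ⟨⟨hO.1.1.le, hO.1.2.le⟩, hO.2.1.le, hO.2.2.le⟩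
    obtain ⟨rfl, rfl⟩ := CH_cell_unique hC hq.1
    exact hq.2 hO
  · have hLp := L_pos (l + 1)
    have hp := h_pos l
    have hL := L_succ l
    have d0 : L (l + 1) ∣ L l' := L_dvd hgt
    have d1 : L (l + 1) ∣ L (l' + 1) := d0.trans (L_dvd_succ l')
    have d2 : L (l + 1) ∣ h l' := d0.trans (L_dvd_h l')
    have dd : ∀ C : ℤ, L (l + 1) ∣ C * L (l' + 1) + h l' := fun C =>
      dvd_add (dvd_mul_of_dvd_right d1 _) d2
    have dd' : ∀ C : ℤ, L (l + 1) ∣ C * L (l' + 1) + 2 * h l' := fun C =>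
      dvd_add (dvd_mul_of_dvd_right d1 _) (dvd_mul_of_dvd_right d2 _)
    obtain ⟨⟨q1, q2⟩, q3, q4⟩ := hq.1
    obtain ⟨⟨x1, x2⟩, x3, x4⟩ := hx
    obtain ⟨⟨o1, o2⟩, o3, o4⟩ := hO
    obtain ⟨a1, a2⟩ := interval_aux hLp (dd A') (dd' A') o1 o2 (a := A) (by linarith)
      (by linarith)
    obtain ⟨b1, b2⟩ := interval_aux hLp (dd B') (dd' B') o3 o4 (a := B) (by linarith)
      (by linarith)
    refine hP l' A' B' ⟨⟨?_, ?_⟩, ?_, ?_⟩ <;> linarith

theorem Jump_P {l : ℕ} {x y : Pt} (hP : P x) (hj : Jump l x y) : P y := by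
  obtain ⟨A, B, hx, rfl⟩ := hj
  exact P_of_Bd hP hx.1 (rho_Bd hx)

/-- closeness at level `n` -/
def Near (n : ℕ) (x y : Pt) : Prop := |x.1 - y.1| ≤ L n ∧ |x.2 - y.2| ≤ L n

theorem Near.refl (n : ℕ) (x : Pt) : Near n x x := by
  have := L_pos n
  constructor <;> simp <;> omega

theorem Near.symm {n : ℕ} {x y : Pt} (hn : Near n x y) : Near n y x :=
  ⟨by rw [abs_sub_comm]; exact hn.1, by rw [abs_sub_comm]; exact hn.2⟩

theorem Near.mono {m n : ℕ} (hmn : m ≤ n) {x y : Pt} (hn : Near m x y) : Near n x y :=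
  ⟨hn.1.trans (L_mono hmn), hn.2.trans (L_mono hmn)⟩

theorem Jump_near {l j : ℕ} {x y : Pt} (hj : Jump l x y) (hlj : l < j) : Near j x y := by
  obtain ⟨A, B, ⟨⟨⟨h1, h2⟩, h3, h4⟩, _⟩, rfl⟩ := hj
  have hL := L_succ l
  have hp := h_pos l
  have hm : L (l + 1) ≤ L j := L_mono hlj
  unfold Near rho
  simp only
  constructor
  · rw [abs_le]; constructor <;> nlinarith
  · rw [abs_le]; constructor <;> nlinarith

/-- the relation generating the coarse structure in the plane -/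
def SX (n : ℕ) (x y : Pt) : Prop := Near n x y ∨ ∃ l, Jump l x y

theorem SX_tri {n j : ℕ} (hnj : n ≤ j) {x y : Pt} (hs : SX n x y) :
    Near j x y ∨ Jump j x y ∨ ∃ l, j < l ∧ Jump l x y := by
  rcases hs with hs | ⟨l, hl⟩
  · exact Or.inl (hs.mono hnj)
  · rcases lt_trichotomy l j with h1 | h1 | h1
    · exact Or.inl (Jump_near hl h1)
    · subst h1; exact Or.inr (Or.inl hl)
    · exact Or.inr (Or.inr ⟨l, h1, hl⟩)

/-- the number `L n` grows -/
theorem exists_L_ge (z : ℤ) : ∃ n, z ≤ L n := by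
  have : ∀ n : ℕ, (n : ℤ) ≤ L n := by
    intro n
    induction n with
    | zero => simp [L]
    | succ n ih =>
      have h1 := L_le_h n
      have h2 := L_succ n
      have h3 := L_pos n
      push_cast
      omega
  exact ⟨z.toNat, (Int.self_le_toNat z).trans (this _)⟩

theorem exists_near (x y : Pt) : ∃ n, 1 ≤ n ∧ Near n x y := by
  obtain ⟨n, hn⟩ := exists_L_ge (|x.1 - y.1| + |x.2 - y.2|)
  have h1 := abs_nonneg (x.1 - y.1)
  have h2 := abs_nonneg (x.2 - y.2)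
  have h3 : L n ≤ L (n + 1) := L_mono (Nat.le_succ n)
  exact ⟨n + 1, by omega, by constructor <;> omega⟩

end Pool.Agent.Roe
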