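import Mathlib

set_option autoImplicit false

namespace Pool.Agent.Roe

open Classical

/-- the Hilbert space of square summable functions -/
noncomputable abbrev H2 (ι : Type) := lp (fun _ : ι => ℂ) 2

theorem two_toReal : (2 : ENNReal).toReal = 2 := by norm_num

theorem two_toReal_pos : 0 < (2 : ENNReal).toReal := by norm_num

section general

variable {ι : Type} {G : Type} [NormedAddCommGroup G]

theorem lp2_sum_le (f : lp (fun _ : ι => G) 2) (s : Finset ι) : ∑ i ∈ s, ‖f i‖ ^ 2 ≤ ‖f‖ ^ 2 := by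
  have := lp.sum_rpow_le_norm_rpow two_toReal_pos f s
  simp only [two_toReal, Real.rpow_two] at this
  exact this

theorem lp2_norm_le {C : ℝ} (hC : 0 ≤ C) (f : lp (fun _ : ι => G) 2)
    (hf : ∀ s : Finset ι, ∑ i ∈ s, ‖f i‖ ^ 2 ≤ C ^ 2) : ‖f‖ ≤ C := by
  apply lp.norm_le_of_forall_sum_le two_toReal_pos hC
  simp only [two_toReal, Real.rpow_two]
  exact hf

theorem lp2_mem {C : ℝ} {f : ι → G} (hf : ∀ s : Finset ι, ∑ i ∈ s, ‖f i‖ ^ 2 ≤ C) :
    Memℓp f 2 := by
  apply memℓp_gen' (C := C)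
  simp only [two_toReal, Real.rpow_two]
  exact hf

theorem lp2_apply_le (f : lp (fun _ : ι => G) 2) (i : ι) : ‖f i‖ ≤ ‖f‖ := by
  have := lp2_sum_le f {i}
  rw [Finset.sum_singleton] at this
  exact (le_abs_self _).trans (abs_le_of_sq_le_sq this (norm_nonneg _))

end general

section scalar

variable {ι : Type}

/-- the basis vectors -/
noncomputable def bas (a : ι) : H2 ι := lp.single (E := fun _ : ι => ℂ) 2 a (1 : ℂ)

theorem inner_bas_left (a : ι) (f : H2 ι) : inner ℂ (bas a) f = f a := by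
  unfold bas
  rw [lp.inner_single_left]
  simp

theorem inner_bas_right (a : ι) (f : H2 ι) : inner ℂ f (bas a) = (starRingEnd ℂ) (f a) := by
  rw [← inner_conj_symm, inner_bas_left]

theorem bas_apply (a b : ι) : (bas a : H2 ι) b = if a = b then 1 else 0 := by
  unfold bas
  rw [lp.single_apply]
  by_cases hab : a = b
  · subst hab; simp
  · rw [if_neg hab, Pi.single_eq_of_ne (fun hh => hab hh.symm)]

theorem bas_self (a : ι) : (bas a : H2 ι) a = 1 := by rw [bas_apply, if_pos rfl]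

theorem bas_ne {a b : ι} (hab : a ≠ b) : (bas a : H2 ι) b = 0 := by rw [bas_apply, if_neg hab]

theorem bas_norm (a : ι) : ‖(bas a : H2 ι)‖ = 1 := by
  unfold bas
  rw [lp.norm_single (by norm_num)]
  simp

/-- matrix entries -/
noncomputable def ent (T : H2 ι →L[ℂ] H2 ι) (a b : ι) : ℂ := inner ℂ (bas a) (T (bas b))

theorem ent_eq (T : H2 ι →L[ℂ] H2 ι) (a b : ι) : ent T a b = (T (bas b)) a := inner_bas_left _ _

theorem ent_le (T : H2 ι →L[ℂ] H2 ι) (a b : ι) : ‖ent T a b‖ ≤ ‖T‖ := by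
  unfold ent
  refine (norm_inner_le_norm _ _).trans ?_
  rw [bas_norm, one_mul]
  refine (T.le_opNorm _).trans ?_
  rw [bas_norm, mul_one]

theorem schur (K : ι → ι → ℂ) {C : ℝ} (hC : 0 ≤ C)
    (hr : ∀ a (s : Finset ι), ∑ b ∈ s, ‖K a b‖ ≤ C)
    (hc : ∀ b (s : Finset ι), ∑ a ∈ s, ‖K a b‖ ≤ C) :
    ∃ T : H2 ι →L[ℂ] H2 ι, ‖T‖ ≤ C ∧ ∀ a b, ent T a b = K a b := by
  have hsumK : ∀ a, Summable (fun b => ‖K a b‖) := fun a =>
    summable_of_sum_le (fun b => norm_nonneg _) (hr a)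
  have hsum : ∀ (f : H2 ι) a, Summable (fun b => K a b * f b) := by
    intro f a
    apply Summable.of_norm_bounded ((hsumK a).mul_right ‖f‖)
    intro b
    rw [norm_mul]
    exact mul_le_mul_of_nonneg_left (lp2_apply_le f b) (norm_nonneg _)
  have fin_bound : ∀ (f : H2 ι) (s t : Finset ι),
      ∑ a ∈ s, ‖∑ b ∈ t, K a b * f b‖ ^ 2 ≤ (C * ‖f‖) ^ 2 := by
    intro f s t
    have h1 : ∀ a, ‖∑ b ∈ t, K a b * f b‖ ^ 2 ≤ C * ∑ b ∈ t, ‖K a b‖ * ‖f b‖ ^ 2 := by
      intro a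
      have e1 : ‖∑ b ∈ t, K a b * f b‖ ≤ ∑ b ∈ t, ‖K a b‖ * ‖f b‖ := by
        refine (norm_sum_le _ _).trans (le_of_eq ?_)
        exact Finset.sum_congr rfl fun b _ => norm_mul _ _
      have e2 : (∑ b ∈ t, ‖K a b‖ * ‖f b‖) ^ 2 ≤
          (∑ b ∈ t, ‖K a b‖) * ∑ b ∈ t, ‖K a b‖ * ‖f b‖ ^ 2 := by
        apply Finset.sum_sq_le_sum_mul_sum_of_sq_le_mul
        · intro b _; exact norm_nonneg _
        · intro b _; positivity
        · intro b _; exact le_of_eq (by ring)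
      have e3 : 0 ≤ ∑ b ∈ t, ‖K a b‖ * ‖f b‖ ^ 2 := Finset.sum_nonneg fun b _ => by positivity
      calc ‖∑ b ∈ t, K a b * f b‖ ^ 2 ≤ (∑ b ∈ t, ‖K a b‖ * ‖f b‖) ^ 2 :=
            pow_le_pow_left₀ (norm_nonneg _) e1 2
        _ ≤ _ := e2
        _ ≤ _ := mul_le_mul_of_nonneg_right (hr a t) e3
    calc ∑ a ∈ s, ‖∑ b ∈ t, K a b * f b‖ ^ 2
        ≤ ∑ a ∈ s, C * ∑ b ∈ t, ‖K a b‖ * ‖f b‖ ^ 2 := Finset.sum_le_sum fun a _ => h1 a
      _ = C * ∑ b ∈ t, (∑ a ∈ s, ‖K a b‖) * ‖f b‖ ^ 2 := by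
          rw [← Finset.mul_sum, Finset.sum_comm]
          congr 1
          exact Finset.sum_congr rfl fun b _ => by rw [Finset.sum_mul]
      _ ≤ C * ∑ b ∈ t, C * ‖f b‖ ^ 2 := by
          apply mul_le_mul_of_nonneg_left _ hC
          apply Finset.sum_le_sum
          intro b _
          exact mul_le_mul_of_nonneg_right (hc b s) (by positivity)
      _ = C ^ 2 * ∑ b ∈ t, ‖f b‖ ^ 2 := by rw [← Finset.mul_sum]; ring
      _ ≤ C ^ 2 * ‖f‖ ^ 2 := mul_le_mul_of_nonneg_left (lp2_sum_le f t) (by positivity)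
      _ = (C * ‖f‖) ^ 2 := by ring
  have bound : ∀ (f : H2 ι) (s : Finset ι),
      ∑ a ∈ s, ‖∑' b, K a b * f b‖ ^ 2 ≤ (C * ‖f‖) ^ 2 := by
    intro f s
    have h1 : Filter.Tendsto (fun t : Finset ι => ∑ a ∈ s, ‖∑ b ∈ t, K a b * f b‖ ^ 2)
        Filter.atTop (nhds (∑ a ∈ s, ‖∑' b, K a b * f b‖ ^ 2)) := by
      apply tendsto_finsetSum
      intro a _
      exact ((hsum f a).hasSum.norm).pow 2
    exact le_of_tendsto h1 (Filter.Eventually.of_forall fun t => fin_bound f s t)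
  let T0 : H2 ι →ₗ[ℂ] H2 ι :=
    { toFun := fun f => ⟨fun a => ∑' b, K a b * f b, lp2_mem (bound f)⟩
      map_add' := by
        intro f g
        ext a
        show ∑' b, K a b * (f + g) b = (∑' b, K a b * f b) + ∑' b, K a b * g b
        rw [← (hsum f a).tsum_add (hsum g a)]
        refine tsum_congr fun b => ?_
        rw [lp.coeFn_add, Pi.add_apply, mul_add]
      map_smul' := by
        intro c f
        ext a
        show ∑' b, K a b * (c • f) b = c • ∑' b, K a b * f b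
        rw [smul_eq_mul, ← tsum_mul_left]
        refine tsum_congr fun b => ?_
        rw [lp.coeFn_smul, Pi.smul_apply, smul_eq_mul]
        ring }
  have hT0 : ∀ f, ‖T0 f‖ ≤ C * ‖f‖ := fun f =>
    lp2_norm_le (mul_nonneg hC (norm_nonneg _)) (T0 f) (bound f)
  refine ⟨T0.mkContinuous C hT0, T0.mkContinuous_norm_le hC hT0, ?_⟩
  intro a b
  rw [ent_eq]
  show ∑' c, K a c * (bas b : H2 ι) c = K a b
  rw [tsum_eq_single b]
  · rw [bas_apply, if_pos rfl, mul_one]
  · intro c hcb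
    rw [bas_apply, if_neg (fun hh => hcb hh.symm), mul_zero]

end scalar

section diag

variable {ι : Type} {E : Type} [NormedAddCommGroup E] [InnerProductSpace ℂ E] [CompleteSpace E]

theorem diag_bound (T : E →L[ℂ] E) (f : lp (fun _ : ι => E) 2) (s : Finset ι) :
    ∑ i ∈ s, ‖T (f i)‖ ^ 2 ≤ (‖T‖ * ‖f‖) ^ 2 := by
  calc ∑ i ∈ s, ‖T (f i)‖ ^ 2 ≤ ∑ i ∈ s, ‖T‖ ^ 2 * ‖f i‖ ^ 2 := by
        apply Finset.sum_le_sum
        intro i _
        rw [← mul_pow]
        exact pow_le_pow_left₀ (norm_nonneg _) (T.le_opNorm _) 2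
    _ = ‖T‖ ^ 2 * ∑ i ∈ s, ‖f i‖ ^ 2 := by rw [Finset.mul_sum]
    _ ≤ ‖T‖ ^ 2 * ‖f‖ ^ 2 := mul_le_mul_of_nonneg_left (lp2_sum_le f s) (by positivity)
    _ = _ := by ring

/-- the diagonal (amplified) operator as a linear map -/
noncomputable def diag0 (ι : Type) (T : E →L[ℂ] E) :
    lp (fun _ : ι => E) 2 →ₗ[ℂ] lp (fun _ : ι => E) 2 where
  toFun f := ⟨fun i => T (f i), lp2_mem (diag_bound T f)⟩
  map_add' f g := by
    ext i
    show T ((f + g) i) = T (f i) + T (g i)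
    rw [lp.coeFn_add, Pi.add_apply, map_add]
  map_smul' c f := by
    ext i
    show T ((c • f) i) = c • T (f i)
    rw [lp.coeFn_smul, Pi.smul_apply, map_smul]

theorem diag0_bound (T : E →L[ℂ] E) (f : lp (fun _ : ι => E) 2) :
    ‖diag0 ι T f‖ ≤ ‖T‖ * ‖f‖ :=
  lp2_norm_le (mul_nonneg (norm_nonneg _) (norm_nonneg _)) _ (diag_bound T f)

/-- the diagonal (amplified) operator -/
noncomputable def diag (ι : Type) (T : E →L[ℂ] E) :
    lp (fun _ : ι => E) 2 →L[ℂ] lp (fun _ : ι => E) 2 :=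
  (diag0 ι T).mkContinuous ‖T‖ (diag0_bound T)

theorem diag_apply (T : E →L[ℂ] E) (f : lp (fun _ : ι => E) 2) (i : ι) :
    (diag ι T f) i = T (f i) := rfl

theorem diag_norm_le (T : E →L[ℂ] E) (f : lp (fun _ : ι => E) 2) :
    ‖diag ι T f‖ ≤ ‖T‖ * ‖f‖ := diag0_bound T f

theorem diag_add (S T : E →L[ℂ] E) : diag ι (S + T) = diag ι S + diag ι T := by
  ext f i
  show (S + T) (f i) = (diag ι S f + diag ι T f) i
  rw [lp.coeFn_add]
  rfl

theorem diag_smul (c : ℂ) (T : E →L[ℂ] E) : diag ι (c • T) = c • diag ι T := by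
  ext f i
  show (c • T) (f i) = (c • diag ι T f) i
  rw [lp.coeFn_smul]
  rfl

theorem diag_mul (S T : E →L[ℂ] E) : diag ι (S * T) = diag ι S * diag ι T := by
  ext f i
  rfl

theorem diag_star (T : E →L[ℂ] E) : diag ι (star T) = star (diag ι T) := by
  rw [ContinuousLinearMap.star_eq_adjoint, ContinuousLinearMap.star_eq_adjoint]
  rw [ContinuousLinearMap.eq_adjoint_iff]
  intro f g
  rw [lp.inner_eq_tsum, lp.inner_eq_tsum]
  refine tsum_congr fun i => ?_
  rw [diag_apply, diag_apply, ContinuousLinearMap.adjoint_inner_left]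

end diag

section family

variable {ι κ : Type} {F : Type} [NormedAddCommGroup F] [InnerProductSpace ℂ F] [CompleteSpace F]

/-- isometry from an orthonormal family -/
theorem exists_isometry {e : ι → F} (he : Orthonormal ℂ e) :
    ∃ W : H2 ι →ₗᵢ[ℂ] F, (∀ a, W (bas a) = e a) ∧
      ∀ f : H2 ι, HasSum (fun a => f a • e a) (W f) := by
  refine ⟨he.orthogonalFamily.linearIsometry, ?_, ?_⟩
  · intro a
    unfold bas
    rw [OrthogonalFamily.linearIsometry_apply_single]
    simp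
  · intro f
    have := he.orthogonalFamily.hasSum_linearIsometry f
    simpa using this

/-- isometry from a doubly indexed orthonormal family -/
theorem exists_isometry2 {e : ι → κ → F} (he : Orthonormal ℂ (fun p : ι × κ => e p.1 p.2)) :
    ∃ J : lp (fun _ : κ => H2 ι) 2 →ₗᵢ[ℂ] F,
      ∀ a h, J (lp.single 2 h (bas a)) = e a h := by
  have he1 : ∀ h, Orthonormal ℂ (fun a => e a h) := fun h =>
    he.comp (fun a => (a, h)) (fun a a' haa => (Prod.mk.inj haa).1)
  choose W hW hW' using fun h => exists_isometry (he1 h)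
  have horth : OrthogonalFamily ℂ (fun _ : κ => H2 ι) W := by
    intro h h' hne v w
    have e1 : ∀ a a', inner ℂ (e a h) (e a' h') = 0 := by
      intro a a'
      exact he.inner_eq_zero (i := (a, h)) (j := (a', h')) (fun hh => hne (Prod.mk.inj hh).2)
    have e2 : ∀ a, inner ℂ (e a h) (W h' w) = 0 := by
      intro a
      have h1 := (hW' h' w).mapL (innerSL ℂ (e a h))
      have h2 : (fun b => innerSL ℂ (e a h) (w b • e b h')) = fun _ => (0 : ℂ) := by
        funext b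
        rw [innerSL_apply_apply, inner_smul_right, e1, mul_zero]
      rw [h2] at h1
      exact (h1.unique hasSum_zero)
    have e3 : ∀ a, inner ℂ (W h' w) (e a h) = 0 := by
      intro a
      rw [← inner_conj_symm, e2, map_zero]
    have h1 := (hW' h v).mapL (innerSL ℂ (W h' w))
    have h2 : (fun b => innerSL ℂ (W h' w) (v b • e b h)) = fun _ => (0 : ℂ) := by
      funext b
      rw [innerSL_apply_apply, inner_smul_right, e3, mul_zero]
    rw [h2] at h1
    have h3 : inner ℂ (W h' w) (W h v) = 0 := h1.unique hasSum_zero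
    rw [← inner_conj_symm, h3, map_zero]
  refine ⟨horth.linearIsometry, ?_⟩
  intro a h
  rw [OrthogonalFamily.linearIsometry_apply_single, hW]

end family

end Pool.Agent.Roe
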