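import Pool.Agent.Lib_MP_270856_an.Kernel
import Pool.Agent.Lib_MP_270856_an.Hilb

set_option autoImplicit false

namespace Pool.Agent.Roe

open Classical

/-- the transformed basis -/
noncomputable def ee (x : XPt) (h : Bits) : H2 (XPt × Bits) :=
  ∑ g ∈ nbr (NN x) h, cc x g h • bas (x, g)

theorem ee_apply (x : XPt) (h : Bits) (y : XPt × Bits) :
    (ee x h) y = if x = y.1 then cc x y.2 h else 0 := by
  rw [← inner_bas_left]
  unfold ee
  rw [inner_sum]
  have e1 : ∀ g, inner ℂ (bas y) (cc x g h • bas (x, g) : H2 (XPt × Bits)) =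
      cc x g h * (bas (x, g) : H2 (XPt × Bits)) y := by
    intro g
    rw [inner_smul_right, inner_bas_left]
  rw [Finset.sum_congr rfl fun g _ => e1 g]
  obtain ⟨x', g'⟩ := y
  by_cases hx : x = x'
  · subst hx
    rw [if_pos rfl]
    by_cases hg : g' ∈ nbr (NN x) h
    · rw [Finset.sum_eq_single g']
      · rw [bas_self, mul_one]
      · intro g _ hne
        rw [bas_ne (fun hh => hne (Prod.mk.inj hh).2), mul_zero]
      · intro hng; exact absurd hg hng
    · have hz : cc x g' h = 0 := by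
        apply cc_not
        intro ha
        exact hg (mem_nbr.2 (fun i hi => (ha i hi).symm))
      show _ = cc x g' h
      rw [hz]
      apply Finset.sum_eq_zero
      intro g hgm
      have hne : g ≠ g' := fun hh => hg (hh ▸ hgm)
      rw [bas_ne (fun hh => hne (Prod.mk.inj hh).2), mul_zero]
  · rw [if_neg hx]
    apply Finset.sum_eq_zero
    intro g _
    rw [bas_ne (fun hh => hx (Prod.mk.inj hh).1), mul_zero]

theorem ee_inner0 (x x' : XPt) (h h' : Bits) : inner ℂ (ee x h) (ee x' h') =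
      ∑ g ∈ nbr (NN x) h, (starRingEnd ℂ) (cc x g h) * (if x' = x then cc x' g h' else 0) := by
  conv_lhs => rw [ee]
  rw [sum_inner]
  refine Finset.sum_congr rfl fun g _ => ?_
  rw [inner_smul_left, inner_bas_left, ee_apply]

theorem ee_inner_self (x : XPt) (h : Bits) : inner ℂ (ee x h) (ee x h) = 1 := by
  rw [ee_inner0]
  simp only [if_true]
  rw [cc_orth, if_pos rfl]

theorem ee_inner_ne {x x' : XPt} {h h' : Bits} (hne : (x, h) ≠ (x', h')) :
    inner ℂ (ee x h) (ee x' h') = 0 := by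
  rw [ee_inner0]
  by_cases hx : x' = x
  · subst hx
    simp only [if_true]
    rw [cc_orth, if_neg]
    intro hh
    exact hne (by rw [hh])
  · apply Finset.sum_eq_zero
    intro g _
    rw [if_neg hx, mul_zero]

theorem ee_orthonormal : Orthonormal ℂ (fun p : XPt × Bits => ee p.1 p.2) := by
  rw [orthonormal_iff_ite]
  rintro ⟨x, h⟩ ⟨x', h'⟩
  by_cases hp : (x, h) = (x', h')
  · rw [if_pos hp]
    obtain ⟨rfl, rfl⟩ := Prod.mk.inj hp
    exact ee_inner_self x h
  · rw [if_neg hp]
    exact ee_inner_ne hp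

/-- the isometry -/
noncomputable def JJ : lp (fun _ : Bits => H2 XPt) 2 →ₗᵢ[ℂ] H2 (XPt × Bits) :=
  (exists_isometry2 ee_orthonormal).choose

theorem JJ_spec (x : XPt) (h : Bits) : JJ (lp.single 2 h (bas x)) = ee x h :=
  (exists_isometry2 ee_orthonormal).choose_spec x h

/-- the adjoint of the isometry -/
noncomputable def JA : H2 (XPt × Bits) →L[ℂ] lp (fun _ : Bits => H2 XPt) 2 :=
  ContinuousLinearMap.adjoint JJ.toContinuousLinearMap

theorem JA_JJ (f : lp (fun _ : Bits => H2 XPt) 2) : JA (JJ f) = f := by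
  apply ext_inner_right ℂ
  intro g
  unfold JA
  rw [ContinuousLinearMap.adjoint_inner_left]
  exact JJ.inner_map_map f g

theorem JA_inner (y : H2 (XPt × Bits)) (f : lp (fun _ : Bits => H2 XPt) 2) :
    inner ℂ (JA y) f = inner ℂ y (JJ f) := by
  unfold JA
  rw [ContinuousLinearMap.adjoint_inner_left]
  rfl

theorem JA_inner' (y : H2 (XPt × Bits)) (f : lp (fun _ : Bits => H2 XPt) 2) :
    inner ℂ f (JA y) = inner ℂ (JJ f) y := by
  rw [← inner_conj_symm, JA_inner, inner_conj_symm]

theorem JA_bas (y : XPt × Bits) (h : Bits) :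
    (JA (bas y)) h = (starRingEnd ℂ) (cc y.1 y.2 h) • bas y.1 := by
  apply lp.ext
  funext x'
  have e1 : ((JA (bas y)) h) x' =
      inner ℂ (lp.single (E := fun _ : Bits => H2 XPt) 2 h (bas x')) (JA (bas y)) := by
    rw [lp.inner_single_left, inner_bas_left]
  rw [e1, JA_inner', JJ_spec, inner_bas_right, ee_apply, lp.coeFn_smul, Pi.smul_apply, bas_apply]
  by_cases hx : x' = y.1
  · rw [if_pos hx, if_pos hx.symm, hx, smul_eq_mul, mul_one]
  · rw [if_neg hx, if_neg (fun hh => hx hh.symm), map_zero, smul_zero]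

/-- the embedding of operators -/
noncomputable def PhiF (T : H2 XPt →L[ℂ] H2 XPt) : H2 (XPt × Bits) →L[ℂ] H2 (XPt × Bits) :=
  JJ.toContinuousLinearMap ∘L (diag Bits T) ∘L JA

theorem PhiF_apply (T : H2 XPt →L[ℂ] H2 XPt) (v : H2 (XPt × Bits)) :
    PhiF T v = JJ (diag Bits T (JA v)) := rfl

/-- the embedding as a star homomorphism -/
noncomputable def Phi :
    (H2 XPt →L[ℂ] H2 XPt) →⋆ₙₐ[ℂ] (H2 (XPt × Bits) →L[ℂ] H2 (XPt × Bits)) where
  toFun := PhiF
  map_smul' c T := by
    ext1 v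
    show PhiF (c • T) v = (c • PhiF T) v
    rw [PhiF_apply, diag_smul]
    show JJ (c • diag Bits T (JA v)) = c • JJ (diag Bits T (JA v))
    rw [map_smul]
  map_zero' := by
    ext1 v
    have h0 : diag Bits (0 : H2 XPt →L[ℂ] H2 XPt) = 0 := by
      have := diag_smul (ι := Bits) (0 : ℂ) (0 : H2 XPt →L[ℂ] H2 XPt)
      rwa [zero_smul, zero_smul] at this
    rw [PhiF_apply, h0]
    show JJ 0 = 0
    rw [map_zero]
  map_add' S T := by
    ext1 v
    show PhiF (S + T) v = PhiF S v + PhiF T v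
    rw [PhiF_apply, diag_add, PhiF_apply, PhiF_apply, ← map_add]
    rfl
  map_mul' S T := by
    ext1 v
    show PhiF (S * T) v = PhiF S (PhiF T v)
    rw [PhiF_apply, diag_mul, PhiF_apply, PhiF_apply, JA_JJ]
    rfl
  map_star' T := by
    show PhiF (star T) = star (PhiF T)
    rw [ContinuousLinearMap.star_eq_adjoint (PhiF T), ContinuousLinearMap.eq_adjoint_iff]
    intro v w
    rw [PhiF_apply, PhiF_apply, ← JA_inner', ← JA_inner, diag_star,
      ContinuousLinearMap.star_eq_adjoint, ContinuousLinearMap.adjoint_inner_left]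

theorem Phi_apply (T : H2 XPt →L[ℂ] H2 XPt) : Phi T = PhiF T := rfl

theorem Phi_bound (T : H2 XPt →L[ℂ] H2 XPt) : ‖Phi T‖ ≤ ‖JA‖ * ‖T‖ := by
  apply ContinuousLinearMap.opNorm_le_bound _ (by positivity)
  intro v
  rw [Phi_apply, PhiF_apply, JJ.norm_map]
  refine (diag_norm_le T _).trans ?_
  have := JA.le_opNorm v
  calc ‖T‖ * ‖JA v‖ ≤ ‖T‖ * (‖JA‖ * ‖v‖) := mul_le_mul_of_nonneg_left this (norm_nonneg _)
    _ = _ := by ring

theorem Phi_continuous : Continuous Phi :=
  AddMonoidHomClass.continuous_of_bound Phi ‖JA‖ Phi_bound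

theorem Phi_injective : Function.Injective Phi := by
  intro S T hST
  ext1 v
  have h1 : PhiF S = PhiF T := hST
  have h0 : Inhabited Bits := ⟨⟨fun _ => (false, false), 0, fun _ _ => rfl⟩⟩
  have h2 := congrArg (fun A => A (JJ (lp.single 2 h0.default v))) h1
  simp only [PhiF_apply, JA_JJ] at h2
  have h3 := JJ.injective h2
  have h4 := congrArg (fun f : lp (fun _ : Bits => H2 XPt) 2 => f h0.default) h3
  simp only [diag_apply, lp.single_apply_self] at h4
  exact h4

theorem Phi_ent (T : H2 XPt →L[ℂ] H2 XPt) (a b : XPt × Bits) :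
    ent (Phi T) a b = ent T a.1 b.1 * ker a b := by
  have e0 : ent (Phi T) a b = inner ℂ (JA (bas a)) (diag Bits T (JA (bas b))) := by
    unfold ent
    rw [Phi_apply, PhiF_apply, JA_inner]
  rw [e0, lp.inner_eq_tsum]
  have e1 : ∀ h : Bits, inner ℂ ((JA (bas a)) h) ((diag Bits T (JA (bas b))) h) =
      ent T a.1 b.1 * (cc a.1 a.2 h * (starRingEnd ℂ) (cc b.1 b.2 h)) := by
    intro h
    rw [diag_apply, JA_bas, JA_bas, map_smul, inner_smul_left, inner_smul_right,
      starRingEnd_self_apply]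
    unfold ent
    ring
  rw [tsum_congr e1, ← ker_sum, Finset.mul_sum]
  apply tsum_eq_sum
  intro h hh
  have hz : cc a.1 a.2 h = 0 := by
    apply cc_not
    intro ha
    exact hh (mem_nbr.2 (fun i hi => ha i ((le_max_left _ _).trans hi)))
  rw [hz, zero_mul, mul_zero]

end Pool.Agent.Roe
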