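import Pool.Agent.Lib_MP_270856_an.Lift

set_option autoImplicit false

namespace Pool.Agent.Roe

open Complex Matrix

/-- agreement beyond `N` -/
def Ag (N : ℕ) (g h : Bits) : Prop := ∀ i, N ≤ i → g.1 i = h.1 i

theorem Ag.symm {N : ℕ} {g h : Bits} (ha : Ag N g h) : Ag N h g := fun i hi => (ha i hi).symm

theorem Ag.trans {N : ℕ} {g h k : Bits} (ha : Ag N g h) (hb : Ag N h k) : Ag N g k :=
  fun i hi => (ha i hi).trans (hb i hi)

open Classical in
/-- product kernel -/
noncomputable def kpr (A : ℕ → Matrix BB BB ℂ) (N : ℕ) (g h : Bits) : ℂ :=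
  if Ag N g h then ∏ i ∈ Finset.range N, A i (g.1 i) (h.1 i) else 0

theorem kpr_of {A : ℕ → Matrix BB BB ℂ} {N : ℕ} {g h : Bits} (ha : Ag N g h) :
    kpr A N g h = ∏ i ∈ Finset.range N, A i (g.1 i) (h.1 i) := by
  unfold kpr; rw [if_pos ha]

theorem kpr_not {A : ℕ → Matrix BB BB ℂ} {N : ℕ} {g h : Bits} (ha : ¬ Ag N g h) :
    kpr A N g h = 0 := by
  unfold kpr; rw [if_neg ha]

theorem kpr_succ {A : ℕ → Matrix BB BB ℂ} {N : ℕ} (hA : A N = 1) (g h : Bits) :
    kpr A (N + 1) g h = kpr A N g h := by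
  by_cases h1 : Ag (N + 1) g h
  · rw [kpr_of h1, Finset.prod_range_succ, hA]
    by_cases h2 : g.1 N = h.1 N
    · have h3 : Ag N g h := by
        intro i hi
        rcases Nat.eq_or_lt_of_le hi with rfl | hlt
        · exact h2
        · exact h1 i hlt
      rw [kpr_of h3, h2, Matrix.one_apply_eq, mul_one]
    · have h3 : ¬ Ag N g h := fun h4 => h2 (h4 N le_rfl)
      rw [kpr_not h3, Matrix.one_apply_ne h2, mul_zero]
  · have h3 : ¬ Ag N g h := fun h4 => h1 (fun i hi => h4 i (by omega))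
    rw [kpr_not h1, kpr_not h3]

theorem kpr_stable {A : ℕ → Matrix BB BB ℂ} {N : ℕ} (hA : ∀ i, N ≤ i → A i = 1) (g h : Bits) :
    ∀ M, N ≤ M → kpr A M g h = kpr A N g h := by
  intro M hM
  induction hM with
  | refl => rfl
  | @step m hm ih => rw [kpr_succ (hA m hm), ih]

theorem kpr_mul (A B : ℕ → Matrix BB BB ℂ) (N : ℕ) (g g' : Bits) :
    ∑ h ∈ nbr N g, kpr A N g h * kpr B N h g' = kpr (fun i => A i * B i) N g g' := by
  classical
  by_cases hg : Ag N g g'
  · rw [kpr_of hg, sum_nbr]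
    have e1 : ∀ b : Fin N → BB, kpr A N g (extd N g b) * kpr B N (extd N g b) g' =
        ∏ i : Fin N, (A i (g.1 i) (b i) * B i (b i) (g'.1 i)) := by
      intro b
      have a1 : Ag N g (extd N g b) := fun i hi => (extd_ge g b hi).symm
      rw [kpr_of a1, kpr_of (a1.symm.trans hg), Finset.prod_mul_distrib,
        ← Fin.prod_univ_eq_prod_range (fun i => A i (g.1 i) ((extd N g b).1 i)),
        ← Fin.prod_univ_eq_prod_range (fun i => B i ((extd N g b).1 i) (g'.1 i))]
      congr 1
      · exact Finset.prod_congr rfl fun i _ => by rw [extd_lt]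
      · exact Finset.prod_congr rfl fun i _ => by rw [extd_lt]
    rw [Finset.sum_congr rfl fun b _ => e1 b]
    rw [← Fin.prod_univ_eq_prod_range (fun i => (A i * B i) (g.1 i) (g'.1 i))]
    have e2 : ∀ i : Fin N, (A i * B i) (g.1 i) (g'.1 i) =
        ∑ b : BB, A i (g.1 i) b * B i b (g'.1 i) := fun i => Matrix.mul_apply
    rw [Finset.prod_congr rfl fun i _ => e2 i, Finset.prod_univ_sum, Fintype.piFinset_univ]
  · rw [kpr_not hg]
    apply Finset.sum_eq_zero
    intro h hh
    have h1 : Ag N g h := mem_nbr.1 hh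
    rw [kpr_not (fun h2 : Ag N h g' => hg (h1.trans h2)), mul_zero]

theorem kpr_conj (A : ℕ → Matrix BB BB ℂ) (N : ℕ) (g h : Bits) :
    (starRingEnd ℂ) (kpr A N g h) = kpr (fun i => (A i)ᴴ) N h g := by
  by_cases ha : Ag N g h
  · rw [kpr_of ha, kpr_of ha.symm, map_prod]
    exact Finset.prod_congr rfl fun i _ => rfl
  · rw [kpr_not ha, kpr_not (fun h2 : Ag N h g => ha h2.symm), map_zero]

theorem kpr_one (N : ℕ) (g h : Bits) (hgh : g ≠ h) :
    kpr (fun _ => (1 : Matrix BB BB ℂ)) N g h = 0 := by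
  by_cases ha : Ag N g h
  · rw [kpr_of ha]
    have : ∃ i, g.1 i ≠ h.1 i := by
      by_contra hcon
      push Not at hcon
      exact hgh (Bits.ext' hcon)
    obtain ⟨i, hi⟩ := this
    have hiN : i < N := by
      by_contra hcon
      exact hi (ha i (by omega))
    exact Finset.prod_eq_zero (Finset.mem_range.2 hiN) (Matrix.one_apply_ne hi)
  · exact kpr_not ha

theorem kpr_one_self (N : ℕ) (g : Bits) :
    kpr (fun _ => (1 : Matrix BB BB ℂ)) N g g = 1 := by
  rw [kpr_of (fun _ _ => rfl)]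
  exact Finset.prod_eq_one fun i _ => Matrix.one_apply_eq _

/-- stabilization index -/
noncomputable def NN (x : XPt) : ℕ := (WW_eventually x).choose

theorem NN_spec (x : XPt) : ∀ i, NN x ≤ i → WW i x = 1 := (WW_eventually x).choose_spec

/-- the coefficients of the unitary -/
noncomputable def cc (x : XPt) (g h : Bits) : ℂ := kpr (fun i => WW i x) (NN x) g h

theorem cc_eq (x : XPt) (g h : Bits) {M : ℕ} (hM : NN x ≤ M) :
    cc x g h = kpr (fun i => WW i x) M g h := (kpr_stable (NN_spec x) g h M hM).symm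

theorem cc_not {x : XPt} {g h : Bits} (ha : ¬ Ag (NN x) g h) : cc x g h = 0 := kpr_not ha

open Classical in
/-- the columns are orthonormal -/
theorem cc_orth (x : XPt) (h h' : Bits) :
    ∑ g ∈ nbr (NN x) h, (starRingEnd ℂ) (cc x g h) * cc x g h' = if h = h' then 1 else 0 := by
  unfold cc
  have e1 : ∀ g, (starRingEnd ℂ) (kpr (fun i => WW i x) (NN x) g h) =
      kpr (fun i => (WW i x)ᴴ) (NN x) h g := fun g => kpr_conj _ _ _ _
  rw [Finset.sum_congr rfl fun g _ => by rw [e1 g], kpr_mul]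
  have e2 : (fun i => (WW i x)ᴴ * WW i x) = fun _ => (1 : Matrix BB BB ℂ) :=
    funext fun i => WW_star_mul i x
  rw [e2]
  split_ifs with hh
  · rw [hh, kpr_one_self]
  · exact kpr_one _ _ _ hh

/-- the transition kernel -/
noncomputable def ker (y y' : XPt × Bits) : ℂ :=
  kpr (fun i => KK i y.1 y'.1) (max (NN y.1) (NN y'.1)) y.2 y'.2

theorem KK_one {x x' : XPt} {i : ℕ} (hi : max (NN x) (NN x') ≤ i) : KK i x x' = 1 := by
  unfold KK
  rw [NN_spec x i ((le_max_left _ _).trans hi), NN_spec x' i ((le_max_right _ _).trans hi)]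
  simp

theorem ker_eq (y y' : XPt × Bits) {M : ℕ} (hM : max (NN y.1) (NN y'.1) ≤ M) :
    ker y y' = kpr (fun i => KK i y.1 y'.1) M y.2 y'.2 :=
  (kpr_stable (fun _ hi => KK_one hi) _ _ M hM).symm

theorem ker_sum (y y' : XPt × Bits) :
    ∑ h ∈ nbr (max (NN y.1) (NN y'.1)) y.2,
      cc y.1 y.2 h * (starRingEnd ℂ) (cc y'.1 y'.2 h) = ker y y' := by
  have e0 : ker y y' = kpr (fun i => WW i y.1 * (WW i y'.1)ᴴ) (max (NN y.1) (NN y'.1)) y.2 y'.2 :=
    rfl
  rw [e0, ← kpr_mul (fun i => WW i y.1) (fun i => (WW i y'.1)ᴴ)]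
  refine Finset.sum_congr rfl fun h _ => ?_
  rw [cc_eq y.1 y.2 h (le_max_left (NN y.1) (NN y'.1)),
    cc_eq y'.1 y'.2 h (le_max_right (NN y.1) (NN y'.1)), kpr_conj]

theorem KK_conjTranspose (i : ℕ) (x x' : XPt) : (KK i x x')ᴴ = KK i x' x := by
  unfold KK
  rw [Matrix.conjTranspose_mul, Matrix.conjTranspose_conjTranspose]

theorem ker_symm (y y' : XPt × Bits) : (starRingEnd ℂ) (ker y y') = ker y' y := by
  unfold ker
  rw [kpr_conj, max_comm]
  simp only [KK_conjTranspose]

/-! ### estimates -/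

theorem sum_bad_le (M J : ℕ) (hJM : J ≤ M) (a : ℕ → BB → ℝ) (ha0 : ∀ i b, 0 ≤ a i b)
    (ha1 : ∀ i b, a i b ≤ 1) (s : ℕ → BB) (δ : ℕ → ℝ) (hδ0 : ∀ i, 0 ≤ δ i)
    (hδ : ∀ i, J ≤ i → ∀ b, b ≠ s i → a i b ≤ δ i) (B : ℝ)
    (hB : ∑ i ∈ Finset.Ico J M, 4 * δ i ≤ B) :
    ∑ b : Fin M → BB, (if (∃ i : Fin M, J ≤ (i : ℕ) ∧ b i ≠ s i) then ∏ i : Fin M, a i (b i) else 0) ≤
      4 ^ J * Real.exp B * B := by
  classical
  set D : ℕ → ℝ := fun i => if i < J then 4 else 1 + 4 * δ i with hD
  have hD0 : ∀ i, 0 ≤ D i := by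
    intro i; rw [hD]; simp only
    split_ifs
    · norm_num
    · have := hδ0 i; linarith
  have hD1 : ∀ i, 1 ≤ D i := by
    intro i; rw [hD]; simp only
    split_ifs
    · norm_num
    · have := hδ0 i; linarith
  have hcard : ∀ c : ℝ, ∑ _b : BB, c = 4 * c := by
    intro c
    rw [Finset.sum_const, Finset.card_univ]
    simp
  -- row sums
  have hrow : ∀ i, ∑ b : BB, a i b ≤ D i := by
    intro i
    rw [hD]; simp only
    split_ifs with hi
    · calc ∑ b : BB, a i b ≤ ∑ _b : BB, (1 : ℝ) := Finset.sum_le_sum fun b _ => ha1 i b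
        _ = 4 := by rw [hcard]; norm_num
    · calc ∑ b : BB, a i b ≤ ∑ b : BB, ((if b = s i then 1 else 0) + δ i) := by
            apply Finset.sum_le_sum
            intro b _
            by_cases hb : b = s i
            · rw [if_pos hb]; have := ha1 i b; have := hδ0 i; linarith
            · rw [if_neg hb]; have := hδ i (by omega) b hb; linarith
        _ = 1 + 4 * δ i := by
            rw [Finset.sum_add_distrib, hcard, Finset.sum_ite_eq' Finset.univ (s i)]
            simp
  have hbad : ∀ j, J ≤ j → ∑ b : BB, (if b = s j then 0 else a j b) ≤ 4 * δ j := by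
    intro j hj
    calc ∑ b : BB, (if b = s j then 0 else a j b) ≤ ∑ _b : BB, δ j := by
          apply Finset.sum_le_sum
          intro b _
          split_ifs with hb
          · exact hδ0 j
          · exact hδ j hj b hb
      _ = 4 * δ j := hcard _
  -- union bound
  have step1 : ∀ b : Fin M → BB,
      (if (∃ i : Fin M, J ≤ (i : ℕ) ∧ b i ≠ s i) then ∏ i : Fin M, a i (b i) else 0) ≤
        ∑ j : Fin M, (if J ≤ (j : ℕ) ∧ b j ≠ s j then ∏ i : Fin M, a i (b i) else 0) := by
    intro b
    have hP : 0 ≤ ∏ i : Fin M, a i (b i) := Finset.prod_nonneg fun i _ => ha0 _ _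
    have hterm : ∀ j : Fin M, 0 ≤ (if J ≤ (j : ℕ) ∧ b j ≠ s j then ∏ i : Fin M, a i (b i) else 0) := by
      intro j; split_ifs
      · exact hP
      · exact le_rfl
    split_ifs with hex
    · obtain ⟨j, hj⟩ := hex
      calc ∏ i : Fin M, a i (b i) =
          (if J ≤ (j : ℕ) ∧ b j ≠ s j then ∏ i : Fin M, a i (b i) else 0) := by rw [if_pos hj]
        _ ≤ _ := Finset.single_le_sum (f := fun j : Fin M =>
            (if J ≤ (j : ℕ) ∧ b j ≠ s j then ∏ i : Fin M, a i (b i) else 0))
            (fun j _ => hterm j) (Finset.mem_univ j)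
    · exact Finset.sum_nonneg fun j _ => hterm j
  have hprodD : ∏ i : Fin M, D i ≤ 4 ^ J * Real.exp B := by
    rw [Fin.prod_univ_eq_prod_range D M, ← Finset.prod_range_mul_prod_Ico D hJM]
    have p1 : ∏ i ∈ Finset.range J, D i = 4 ^ J := by
      rw [Finset.prod_congr rfl (fun i hi => by
        show D i = 4
        rw [hD]; simp only; rw [if_pos (Finset.mem_range.1 hi)])]
      simp
    have p2 : ∏ i ∈ Finset.Ico J M, D i ≤ Real.exp B := by
      calc ∏ i ∈ Finset.Ico J M, D i ≤ ∏ i ∈ Finset.Ico J M, Real.exp (4 * δ i) := by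
            apply Finset.prod_le_prod
            · intro i _; exact hD0 i
            · intro i hi
              have hi' := (Finset.mem_Ico.1 hi).1
              rw [hD]; simp only; rw [if_neg (by omega)]
              have := Real.add_one_le_exp (4 * δ i)
              linarith
        _ = Real.exp (∑ i ∈ Finset.Ico J M, 4 * δ i) := (Real.exp_sum _ _).symm
        _ ≤ Real.exp B := Real.exp_le_exp.2 hB
    rw [p1]
    exact mul_le_mul_of_nonneg_left p2 (by positivity)
  -- single term
  have step3 : ∀ j : Fin M,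
      ∑ b : Fin M → BB, (if J ≤ (j : ℕ) ∧ b j ≠ s j then ∏ i : Fin M, a i (b i) else 0) ≤
        (if J ≤ (j : ℕ) then 4 * δ j else 0) * (4 ^ J * Real.exp B) := by
    intro j
    by_cases hj : J ≤ (j : ℕ)
    · rw [if_pos hj]
      have e1 : ∀ b : Fin M → BB,
          (if J ≤ (j : ℕ) ∧ b j ≠ s j then ∏ i : Fin M, a i (b i) else 0) =
          ∏ i : Fin M, (if i = j then (if b i = s i then 0 else a i (b i)) else a i (b i)) := by
        intro b
        by_cases hb : b j = s j
        · rw [if_neg (fun hh => hh.2 hb)]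
          symm
          apply Finset.prod_eq_zero (Finset.mem_univ j)
          rw [if_pos rfl, if_pos hb]
        · rw [if_pos ⟨hj, hb⟩]
          refine Finset.prod_congr rfl fun i _ => ?_
          by_cases hij : i = j
          · subst hij; rw [if_pos rfl, if_neg hb]
          · rw [if_neg hij]
      rw [Finset.sum_congr rfl fun b _ => e1 b]
      have e2 := Finset.prod_univ_sum (fun _ : Fin M => (Finset.univ : Finset BB))
        (fun (i : Fin M) (b : BB) => (if i = j then (if b = s i then 0 else a i b) else a i b))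
      rw [Fintype.piFinset_univ] at e2
      rw [← e2]
      calc ∏ i : Fin M, ∑ b : BB, (if i = j then (if b = s i then 0 else a i b) else a i b)
          ≤ ∏ i : Fin M, ((if i = j then 4 * δ j else 1) * D i) := by
            apply Finset.prod_le_prod
            · intro i _
              apply Finset.sum_nonneg
              intro b _
              split_ifs
              · exact le_rfl
              · exact ha0 _ _
              · exact ha0 _ _
            · intro i _
              by_cases hij : i = j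
              · subst hij
                simp only [if_true]
                have h1 := hbad i hj
                have h2 := hD1 i
                have h3 := hδ0 i
                calc _ ≤ 4 * δ i := h1
                  _ = 4 * δ i * 1 := by ring
                  _ ≤ 4 * δ i * D i := mul_le_mul_of_nonneg_left h2 (by positivity)
              · simp only [hij, if_false, one_mul]
                exact hrow i
        _ = (4 * δ j) * ∏ i : Fin M, D i := by
            rw [Finset.prod_mul_distrib, Finset.prod_ite_eq' Finset.univ j]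
            simp
        _ ≤ 4 * δ j * (4 ^ J * Real.exp B) :=
            mul_le_mul_of_nonneg_left hprodD (by have := hδ0 j; positivity)
    · rw [if_neg hj, zero_mul]
      apply le_of_eq
      apply Finset.sum_eq_zero
      intro b _
      rw [if_neg (fun hh => hj hh.1)]
  calc ∑ b : Fin M → BB, (if (∃ i : Fin M, J ≤ (i : ℕ) ∧ b i ≠ s i) then ∏ i : Fin M, a i (b i) else 0)
      ≤ ∑ b : Fin M → BB,
        ∑ j : Fin M, (if J ≤ (j : ℕ) ∧ b j ≠ s j then ∏ i : Fin M, a i (b i) else 0) :=
        Finset.sum_le_sum fun b _ => step1 b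
    _ = ∑ j : Fin M, ∑ b : Fin M → BB,
        (if J ≤ (j : ℕ) ∧ b j ≠ s j then ∏ i : Fin M, a i (b i) else 0) := Finset.sum_comm
    _ ≤ ∑ j : Fin M, (if J ≤ (j : ℕ) then 4 * δ j else 0) * (4 ^ J * Real.exp B) :=
        Finset.sum_le_sum fun j _ => step3 j
    _ = (∑ i ∈ Finset.Ico J M, 4 * δ i) * (4 ^ J * Real.exp B) := by
        rw [← Finset.sum_mul,
          Fin.sum_univ_eq_sum_range (fun j => if J ≤ j then 4 * δ j else 0) M,
          ← Finset.sum_range_add_sum_Ico _ hJM]
        congr 1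
        rw [Finset.sum_eq_zero (s := Finset.range J), zero_add]
        · exact Finset.sum_congr rfl fun i hi => by rw [if_pos (Finset.mem_Ico.1 hi).1]
        · intro i hi
          rw [if_neg (by have := Finset.mem_range.1 hi; omega)]
    _ ≤ B * (4 ^ J * Real.exp B) := mul_le_mul_of_nonneg_right hB (by positivity)
    _ = 4 ^ J * Real.exp B * B := by ring

theorem geo_le (J M : ℕ) (hJM : J ≤ M) :
    ∑ i ∈ Finset.Ico J M, (1 / 16 ^ (i + 1) : ℝ) ≤ (1 / 15) * (1 / 16 ^ J) := by
  have key : ∑ i ∈ Finset.Ico J M, (1 / 16 ^ (i + 1) : ℝ) =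
      (1 / 15) * (1 / 16 ^ J - 1 / 16 ^ M) := by
    induction hJM with
    | refl => simp
    | @step m hm ih =>
      rw [Nat.succ_eq_add_one, Finset.sum_Ico_succ_top hm, ih]
      rw [pow_succ (16 : ℝ) m]
      have h1 : (16 : ℝ) ^ m ≠ 0 := by positivity
      have h2 : (16 : ℝ) ^ J ≠ 0 := by positivity
      field_simp
      ring
  rw [key]
  have : (0 : ℝ) ≤ 1 / 16 ^ M := by positivity
  linarith

/-- the error bound -/
noncomputable def err (n J : ℕ) : ℝ :=
  4 ^ J * Real.exp (20 * n / 16 ^ J) * (20 * n / 16 ^ J)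

open Classical in
theorem ker_bad {n J : ℕ} (hnJ : n ≤ J) {x x' : XPt} (hE : cX.E n x x') (g : Bits)
    (S : Finset Bits) :
    ∑ g' ∈ S, (if cY.E (J + 1) (x, g) (x', g') then 0 else ‖ker (x, g) (x', g')‖) ≤ err n J := by
  obtain ⟨σ, ⟨Nσ, hNσ⟩, h1, h2⟩ := lift_E hE
  obtain ⟨M, hM⟩ : ∃ M, M = max (max (NN x) (NN x')) (max J Nσ) := ⟨_, rfl⟩
  have hM1 : max (NN x) (NN x') ≤ M := hM ▸ le_max_left _ _
  have hM2 : J ≤ M := hM ▸ (le_max_left _ _).trans (le_max_right _ _)
  have hM3 : Nσ ≤ M := hM ▸ (le_max_right _ _).trans (le_max_right _ _)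
  have hk : ∀ g', ker (x, g) (x', g') = kpr (fun i => KK i x x') M g g' := fun g' =>
    ker_eq (x, g) (x', g') hM1
  have s1 : ∑ g' ∈ S, (if cY.E (J + 1) (x, g) (x', g') then 0 else ‖ker (x, g) (x', g')‖) ≤
      ∑ g' ∈ nbr M g, (if cY.E (J + 1) (x, g) (x', g') then 0 else ‖ker (x, g) (x', g')‖) := by
    rw [← Finset.sum_filter_ne_zero S]
    apply Finset.sum_le_sum_of_subset_of_nonneg
    · intro g' hg'
      have hne := (Finset.mem_filter.1 hg').2
      rw [mem_nbr]
      by_contra hcon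
      apply hne
      split_ifs
      · rfl
      · rw [hk, kpr_not hcon, norm_zero]
    · intro g' _ _
      split_ifs
      · exact le_rfl
      · exact norm_nonneg _
  refine s1.trans ?_
  rw [sum_nbr]
  have s2 : ∀ b : Fin M → BB, (if cY.E (J + 1) (x, g) (x', extd M g b) then 0 else
      ‖ker (x, g) (x', extd M g b)‖) ≤
      (if (∃ i : Fin M, J ≤ (i : ℕ) ∧ b i ≠ act (σ i) (g.1 i)) then
        ∏ i : Fin M, ‖KK i x x' (g.1 i) (b i)‖ else 0) := by
    intro b
    by_cases hEE : cY.E (J + 1) (x, g) (x', extd M g b)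
    · rw [if_pos hEE]
      split_ifs
      · exact Finset.prod_nonneg fun i _ => norm_nonneg _
      · exact le_rfl
    · rw [if_neg hEE]
      have hex : ∃ i : Fin M, J ≤ (i : ℕ) ∧ b i ≠ act (σ i) (g.1 i) := by
        by_contra hcon
        push Not at hcon
        apply hEE
        apply h1 J hnJ
        intro i hi
        by_cases hiM : i < M
        · have := hcon ⟨i, hiM⟩ hi
          rw [← this]
          exact extd_lt g b ⟨i, hiM⟩
        · have hiM' : M ≤ i := by omega
          rw [extd_ge g b hiM', hNσ i (hM3.trans hiM'), act_false]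
      rw [if_pos hex, hk, kpr_of (fun i hi => (extd_ge g b hi).symm),
        ← Fin.prod_univ_eq_prod_range (fun i => KK i x x' (g.1 i) ((extd M g b).1 i)), norm_prod]
      apply le_of_eq
      exact Finset.prod_congr rfl fun i _ => by rw [extd_lt]
  refine (Finset.sum_le_sum fun b _ => s2 b).trans ?_
  have hδ0 : ∀ i : ℕ, (0 : ℝ) ≤ n * (72 / 16 ^ (i + 1)) := fun i => by positivity
  have hB : ∑ i ∈ Finset.Ico J M, 4 * ((n : ℝ) * (72 / 16 ^ (i + 1))) ≤ 20 * n / 16 ^ J := by
    have e1 : ∑ i ∈ Finset.Ico J M, 4 * ((n : ℝ) * (72 / 16 ^ (i + 1))) =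
        288 * n * ∑ i ∈ Finset.Ico J M, (1 / 16 ^ (i + 1) : ℝ) := by
      rw [Finset.mul_sum]
      exact Finset.sum_congr rfl fun i _ => by ring
    rw [e1]
    have e2 := geo_le J M hM2
    have e3 : (0 : ℝ) ≤ 288 * n := by positivity
    refine (mul_le_mul_of_nonneg_left e2 e3).trans ?_
    have e4 : (0 : ℝ) ≤ n * (1 / 16 ^ J) := by positivity
    have e5 : 20 * (n : ℝ) / 16 ^ J = 20 * (n * (1 / 16 ^ J)) := by ring
    rw [e5]
    nlinarith
  exact sum_bad_le M J hM2 (fun i b => ‖KK i x x' (g.1 i) b‖) (fun i b => norm_nonneg _)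
    (fun i b => KK_le_one i x x' _ _) (fun i => act (σ i) (g.1 i)) _ hδ0
    (fun i hi b hb => KK_small (h2 i (hnJ.trans hi)) hb) _ hB

theorem err_tendsto (n : ℕ) : Filter.Tendsto (fun J => err n J) Filter.atTop (nhds 0) := by
  have h1 : Filter.Tendsto (fun J : ℕ => (20 * n : ℝ) * (1 / 16) ^ J) Filter.atTop (nhds 0) := by
    have := tendsto_pow_atTop_nhds_zero_of_lt_one (r := (1 / 16 : ℝ)) (by norm_num) (by norm_num)
    simpa using this.const_mul (20 * n : ℝ)
  have h2 : Filter.Tendsto (fun J : ℕ => (20 * n : ℝ) * (1 / 4) ^ J) Filter.atTop (nhds 0) := by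
    have := tendsto_pow_atTop_nhds_zero_of_lt_one (r := (1 / 4 : ℝ)) (by norm_num) (by norm_num)
    simpa using this.const_mul (20 * n : ℝ)
  have h3 : Filter.Tendsto (fun J : ℕ => Real.exp ((20 * n : ℝ) * (1 / 16) ^ J)) Filter.atTop
      (nhds 1) := by
    have := (Real.continuous_exp.tendsto 0).comp h1
    rw [Real.exp_zero] at this
    exact this
  have h4 := h3.mul h2
  rw [one_mul] at h4
  refine h4.congr fun J => ?_
  unfold err
  have e1 : (20 * n : ℝ) / 16 ^ J = (20 * n : ℝ) * (1 / 16) ^ J := by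
    rw [one_div, inv_pow]; rfl
  have e2 : (4 : ℝ) ^ J * (1 / 16) ^ J = (1 / 4) ^ J := by
    rw [← mul_pow]; norm_num
  rw [e1, ← e2]
  ring

end Pool.Agent.Roe
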