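import Pool.Agent.Lib_MP_270856_an.Unitary

set_option autoImplicit false

namespace Pool.Agent.Roe

open Complex Matrix

/-- action of a bit -/
def act (s : Bool) (b : BB) : BB := if s = true then sw b else b

theorem act_false (b : BB) : act false b = b := by simp [act]
theorem act_true (b : BB) : act true b = sw b := by simp [act]

/-- the sign of a bit -/
def sgn (s : Bool) : ℝ := if s = true then -1 else 1

theorem sgn_false : sgn false = 1 := by simp [sgn]
theorem sgn_true : sgn true = -1 := by simp [sgn]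
theorem sgn_not (s : Bool) : sgn (!s) = - sgn s := by cases s <;> simp [sgn]
theorem sgn_mul_self (s : Bool) : sgn s * sgn s = 1 := by cases s <;> simp [sgn]

theorem act_not (s : Bool) (b : BB) : act (!s) b = sw (act s b) := by
  cases s <;> simp [act, sw_sw]

/-- apply a sequence of bits -/
def actB (σ : ℕ → Bool) (hσ : ∃ N, ∀ i, N ≤ i → σ i = false) (g : Bits) : Bits :=
  ⟨fun i => act (σ i) (g.1 i), by
    obtain ⟨N, hN⟩ := g.2
    obtain ⟨N', hN'⟩ := hσ
    refine ⟨max N N', fun i hi => ?_⟩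
    show act (σ i) (g.1 i) = _
    rw [hN' i (by omega), hN i (by omega), act_false]⟩

theorem chain_lift (n : ℕ) (x : XPt) : ∀ (t : ℕ) (x' : XPt), Chain (cX.S n) t x x' →
    ∃ σ : ℕ → Bool, (∃ N, ∀ i, N ≤ i → σ i = false) ∧
      (∀ g g' : Bits, (∀ i, g'.1 i = act (σ i) (g.1 i)) → Chain (SY n) t (x, g) (x', g')) ∧
      ∀ i, n ≤ i → ‖uu i x'.p - sgn (σ i) • uu i x.p‖ ≤ t * (72 / 16 ^ (i + 1)) := by
  intro t
  induction t with
  | zero =>
    intro x' hc
    have hxx : x = x' := hc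
    subst hxx
    refine ⟨fun _ => false, ⟨0, fun _ _ => rfl⟩, ?_, ?_⟩
    · intro g g' hg
      have : g = g' := Bits.ext' fun i => by rw [hg i, act_false]
      subst this
      exact rfl
    · intro i _
      simp [sgn_false]
  | succ t ih =>
    intro x' hc
    obtain ⟨z, hz, hzx⟩ := hc
    obtain ⟨σ, hσ, h1, h2⟩ := ih z hz
    have hδ : ∀ i : ℕ, (0 : ℝ) ≤ 72 / 16 ^ (i + 1) := fun i => by positivity
    rcases hzx with hn | ⟨l, hl⟩
    · refine ⟨σ, hσ, ?_, ?_⟩
      · intro g g' hg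
        refine ⟨(z, actB σ hσ g), h1 g _ (fun i => rfl), Or.inl ⟨hn, fun i _ => ?_⟩⟩
        exact (hg i).symm
      · intro i hi
        have e1 := h2 i hi
        have e2 := uu_near x'.hp z.hp (hn.symm.mono hi)
        calc ‖uu i x'.p - sgn (σ i) • uu i x.p‖
            = ‖(uu i x'.p - uu i z.p) + (uu i z.p - sgn (σ i) • uu i x.p)‖ := by
              congr 1; abel
          _ ≤ ‖uu i x'.p - uu i z.p‖ + ‖uu i z.p - sgn (σ i) • uu i x.p‖ := norm_add_le _ _
          _ ≤ ((t + 1 : ℕ) : ℝ) * (72 / 16 ^ (i + 1)) := by push_cast; linarith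
    · have hl' : Jump l z.p x'.p := hl
      obtain ⟨τ, hτ⟩ : ∃ τ : ℕ → Bool, ∀ i, τ i = if i = l then !(σ i) else σ i :=
        ⟨_, fun _ => rfl⟩
      refine ⟨τ, ?_, ?_, ?_⟩
      · obtain ⟨N, hN⟩ := hσ
        refine ⟨max N (l + 1), fun i hi => ?_⟩
        have : i ≠ l := by omega
        rw [hτ, if_neg this]
        exact hN i (by omega)
      · intro g g' hg
        refine ⟨(z, actB σ hσ g), h1 g _ (fun i => rfl), Or.inr ⟨l, hl', ?_⟩⟩
        apply Bits.ext'
        intro i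
        rw [flip_apply]
        show g'.1 i = if i = l then sw (act (σ i) (g.1 i)) else act (σ i) (g.1 i)
        rw [hg i, hτ i]
        by_cases hil : i = l
        · rw [if_pos hil, if_pos hil, act_not]
        · rw [if_neg hil, if_neg hil]
      · intro i hi
        have e1 := h2 i hi
        have e4 := hδ i
        rcases lt_trichotomy i l with hil | hil | hil
        · rw [hτ, if_neg hil.ne]
          obtain ⟨u1, u2⟩ := uu_jump_far hil hl'
          rw [u1] at e1
          rw [u2]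
          push_cast
          linarith
        · subst hil
          rw [hτ, if_pos rfl, uu_jump_self hl', sgn_not]
          have : -uu i z.p - -sgn (σ i) • uu i x.p = -(uu i z.p - sgn (σ i) • uu i x.p) := by
            rw [neg_smul]; abel
          rw [this, norm_neg]
          push_cast
          linarith
        · rw [hτ, if_neg hil.ne']
          have e2 := uu_near x'.hp z.hp (Jump_near hl' hil).symm
          calc ‖uu i x'.p - sgn (σ i) • uu i x.p‖
              = ‖(uu i x'.p - uu i z.p) + (uu i z.p - sgn (σ i) • uu i x.p)‖ := by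
                congr 1; abel
            _ ≤ ‖uu i x'.p - uu i z.p‖ + ‖uu i z.p - sgn (σ i) • uu i x.p‖ := norm_add_le _ _
            _ ≤ ((t + 1 : ℕ) : ℝ) * (72 / 16 ^ (i + 1)) := by push_cast; linarith

/-- the lifting statement in terms of the distances -/
theorem lift_E {n : ℕ} {x x' : XPt} (hE : cX.E n x x') :
    ∃ σ : ℕ → Bool, (∃ N, ∀ i, N ≤ i → σ i = false) ∧
      (∀ J, n ≤ J → ∀ g g' : Bits, (∀ i, J ≤ i → g'.1 i = act (σ i) (g.1 i)) →
        cY.E (J + 1) (x, g) (x', g')) ∧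
      ∀ i, n ≤ i → ‖uu i x'.p - sgn (σ i) • uu i x.p‖ ≤ n * (72 / 16 ^ (i + 1)) := by
  obtain ⟨σ, hσ, h1, h2⟩ := chain_lift n x n x' hE
  refine ⟨σ, hσ, ?_, h2⟩
  intro J hJ g g' hg
  have c1 : Chain (SY n) n (x, g) (x', actB σ hσ g) := h1 g _ (fun i => rfl)
  have c2 : Chain (SY (J + 1)) J (x, g) (x', actB σ hσ g) :=
    Chain.mono_n (cY.refl _) hJ (Chain.mono (fun a b => cY.mono n (J + 1) a b (by omega)) n _ _ c1)
  refine ⟨_, c2, Or.inl ⟨Near.refl _ _, fun i hi => ?_⟩⟩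
  exact (hg i (by omega)).symm

/-! ### the unitary matrices -/

/-- signs -/
def sI (a a' : Bool) : ℂ := if a = a' then 1 else -1

/-- matrix of a vector -/
noncomputable def MM (q : Q) : Matrix Bool Bool ℂ := fun b b' =>
  if b = true then (if b' = true then (starRingEnd ℂ) (q 0) else -(starRingEnd ℂ) (q 1))
  else (if b' = true then q 1 else q 0)

/-- the induced matrix on pairs of bits -/
noncomputable def VV (M : Matrix Bool Bool ℂ) : Matrix BB BB ℂ := fun p p' =>
  (1 / 2) * ((if p.2 = p'.2 then 1 else 0) + sI p.1 p'.1 * M p.2 p'.2)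

theorem VV_mul (M N : Matrix Bool Bool ℂ) : VV M * VV N = VV (M * N) := by
  ext ⟨a, b⟩ ⟨a', b'⟩
  rw [Matrix.mul_apply, Fintype.sum_prod_type]
  simp only [Fintype.sum_bool, VV, Matrix.mul_apply, sI]
  cases a <;> cases b <;> cases a' <;> cases b' <;> simp <;> ring

theorem VV_one : VV 1 = 1 := by
  ext ⟨a, b⟩ ⟨a', b'⟩
  simp only [VV, sI, Matrix.one_apply]
  cases a <;> cases b <;> cases a' <;> cases b' <;> simp <;> norm_num

theorem VV_conjTranspose (M : Matrix Bool Bool ℂ) : (VV M)ᴴ = VV Mᴴ := by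
  ext ⟨a, b⟩ ⟨a', b'⟩
  simp only [VV, sI, Matrix.conjTranspose_apply]
  cases a <;> cases b <;> cases a' <;> cases b' <;> simp

theorem MM_mul {q : Q} (hq : ‖q‖ = 1) : MM q * (MM q)ᴴ = 1 := by
  have h1 : (q 0) * (starRingEnd ℂ) (q 0) + (q 1) * (starRingEnd ℂ) (q 1) = 1 := by
    have h2 := EuclideanSpace.norm_sq_eq q
    rw [hq, Fin.sum_univ_two] at h2
    rw [Complex.mul_conj, Complex.mul_conj, Complex.normSq_eq_norm_sq, Complex.normSq_eq_norm_sq]
    rw [← Complex.ofReal_add, ← h2]; simp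
  ext a b
  rw [Matrix.mul_apply, Fintype.sum_bool]
  simp only [MM, Matrix.conjTranspose_apply, Matrix.one_apply]
  cases a <;> cases b <;> simp
  · rw [← h1]; ring
  · ring
  · ring
  · rw [← h1]; ring

theorem MM_entry (q : Q) (b b' : Bool) : ‖MM q b b'‖ ≤ ‖q‖ := by
  have h0 : ‖q 0‖ ≤ ‖q‖ := PiLp.norm_apply_le q 0
  have h1 : ‖q 1‖ ≤ ‖q‖ := PiLp.norm_apply_le q 1
  unfold MM
  cases b <;> cases b' <;> simp [h0, h1]

theorem MM_sub_smul (u u' : Q) (r : ℝ) : MM u - (r : ℂ) • MM u' = MM (u - r • u') := by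
  ext a b
  cases a <;> cases b <;> simp [MM]
  ring

/-- the unitary matrix at a point -/
noncomputable def WW (i : ℕ) (x : XPt) : Matrix BB BB ℂ := VV (MM (uu i x.p))

theorem WW_mul (i : ℕ) (x : XPt) : WW i x * (WW i x)ᴴ = 1 := by
  unfold WW
  rw [VV_conjTranspose, VV_mul, MM_mul (uu_norm x.hp), VV_one]

theorem MM_oneQ : MM oneQ = 1 := by
  ext a b
  cases a <;> cases b <;> simp [MM, oneQ, mkQ]

theorem WW_eventually (x : XPt) : ∃ N, ∀ i, N ≤ i → WW i x = 1 := by
  obtain ⟨N, hN⟩ := uu_eventually x.p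
  refine ⟨N, fun i hi => ?_⟩
  unfold WW
  rw [hN i hi, MM_oneQ, VV_one]

theorem WW_star_mul (i : ℕ) (x : XPt) : (WW i x)ᴴ * WW i x = 1 :=
  mul_eq_one_comm.1 (WW_mul i x)

/-- the transition matrix -/
noncomputable def KK (i : ℕ) (x x' : XPt) : Matrix BB BB ℂ := WW i x * (WW i x')ᴴ

theorem KK_mem (i : ℕ) (x x' : XPt) : KK i x x' ∈ Matrix.unitaryGroup BB ℂ := by
  rw [Matrix.mem_unitaryGroup_iff]
  unfold KK
  rw [Matrix.star_eq_conjTranspose, Matrix.conjTranspose_mul, Matrix.conjTranspose_conjTranspose,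
    Matrix.mul_assoc, ← Matrix.mul_assoc ((WW i x')ᴴ), WW_star_mul, Matrix.one_mul, WW_mul]

theorem KK_le_one (i : ℕ) (x x' : XPt) (p p' : BB) : ‖KK i x x' p p'‖ ≤ 1 :=
  entry_norm_bound_of_unitary (KK_mem i x x') p p'

theorem VV_smul_one {s : Bool} {p p' : BB} (hp : p' ≠ act s p) :
    VV ((sgn s : ℂ) • (1 : Matrix Bool Bool ℂ)) p p' = 0 := by
  obtain ⟨a, b⟩ := p
  obtain ⟨a', b'⟩ := p'
  cases s <;> cases a <;> cases b <;> cases a' <;> cases b' <;>
    simp_all [VV, sI, sgn, act, sw, Matrix.one_apply]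

theorem KK_small {i : ℕ} {x x' : XPt} {s : Bool} {δ : ℝ}
    (hδ : ‖uu i x'.p - sgn s • uu i x.p‖ ≤ δ) {p p' : BB} (hp : p' ≠ act s p) :
    ‖KK i x x' p p'‖ ≤ δ := by
  have hδ' : ‖uu i x.p - sgn s • uu i x'.p‖ ≤ δ := by
    have : uu i x.p - sgn s • uu i x'.p = -(sgn s) • (uu i x'.p - sgn s • uu i x.p) := by
      rw [smul_sub, smul_smul, neg_mul, sgn_mul_self, neg_smul, neg_smul, one_smul]; abel
    rw [this, norm_smul]
    have : ‖-sgn s‖ = 1 := by cases s <;> simp [sgn]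
    rw [this, one_mul]; exact hδ
  have hK : KK i x x' = VV (MM (uu i x.p) * (MM (uu i x'.p))ᴴ) := by
    unfold KK WW
    rw [VV_conjTranspose, VV_mul]
  have hd : MM (uu i x.p) * (MM (uu i x'.p))ᴴ - (sgn s : ℂ) • (1 : Matrix Bool Bool ℂ) =
      MM (uu i x.p - sgn s • uu i x'.p) * (MM (uu i x'.p))ᴴ := by
    rw [← MM_sub_smul, Matrix.sub_mul, Matrix.smul_mul, MM_mul (uu_norm x'.hp)]
  have he : ‖(MM (uu i x.p) * (MM (uu i x'.p))ᴴ - (sgn s : ℂ) • (1 : Matrix Bool Bool ℂ))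
      p.2 p'.2‖ ≤ 2 * δ := by
    rw [hd, Matrix.mul_apply, Fintype.sum_bool]
    refine (norm_add_le _ _).trans ?_
    rw [norm_mul, norm_mul, Matrix.conjTranspose_apply, Matrix.conjTranspose_apply, norm_star,
      norm_star]
    have a1 := MM_entry (uu i x.p - sgn s • uu i x'.p) p.2 true
    have a2 := MM_entry (uu i x.p - sgn s • uu i x'.p) p.2 false
    have a3 := MM_entry (uu i x'.p) p'.2 true
    have a4 := MM_entry (uu i x'.p) p'.2 false
    rw [uu_norm x'.hp] at a3 a4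
    have b1 := mul_le_mul (a1.trans hδ') a3 (norm_nonneg _) ((norm_nonneg _).trans hδ')
    have b2 := mul_le_mul (a2.trans hδ') a4 (norm_nonneg _) ((norm_nonneg _).trans hδ')
    linarith
  have hV : KK i x x' p p' = VV ((sgn s : ℂ) • (1 : Matrix Bool Bool ℂ)) p p' +
      (1 / 2) * (sI p.1 p'.1 * (MM (uu i x.p) * (MM (uu i x'.p))ᴴ -
        (sgn s : ℂ) • (1 : Matrix Bool Bool ℂ)) p.2 p'.2) := by
    rw [hK]
    simp only [VV, Matrix.sub_apply]
    ring
  rw [hV, VV_smul_one hp, zero_add, norm_mul, norm_mul]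
  have hs : ‖sI p.1 p'.1‖ = 1 := by
    unfold sI; split_ifs <;> simp
  rw [hs, one_mul]
  have : ‖(1 / 2 : ℂ)‖ = 1 / 2 := by simp
  rw [this]
  linarith

end Pool.Agent.Roe
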