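import Pool.Agent.Lib_MP_270856_an.Spaces

set_option autoImplicit false

namespace Pool.Agent.Roe

/-- natural number versions of `k`, `L`, `h` -/
def kN (n : ℕ) : ℕ := 16 ^ (n + 1)

def LN : ℕ → ℕ
  | 0 => 1
  | n + 1 => 3 * (kN n * LN n)

def hN (n : ℕ) : ℕ := kN n * LN n

theorem cast_kN (n : ℕ) : ((kN n : ℕ) : ℤ) = k n := by simp [kN, k]

theorem cast_LN : ∀ n, ((LN n : ℕ) : ℤ) = L n
  | 0 => by simp [LN, L]
  | n + 1 => by simp [LN, L, cast_LN n, cast_kN]

theorem cast_hN (n : ℕ) : ((hN n : ℕ) : ℤ) = h n := by simp [hN, h, cast_LN n, cast_kN]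

theorem LN_succ (n : ℕ) : LN (n + 1) = 3 * hN n := rfl

/-- the mod 2 cochain attached to a coloring -/
def kap (c : Pt → Fin 3) (x y : Pt) : ZMod 2 :=
  if (c x = 0 ∧ c y = 1) ∨ (c x = 1 ∧ c y = 0) then 1 else 0

theorem kap_symm (c : Pt → Fin 3) (x y : Pt) : kap c x y = kap c y x := by
  unfold kap
  congr 1
  apply propext
  tauto

/-- boundary sum of a rectangle -/
def bs (c : Pt → Fin 3) (x y : ℤ) (a b : ℕ) : ZMod 2 :=
  ∑ i ∈ Finset.range a, kap c (x + i, y) (x + i + 1, y)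
  + ∑ j ∈ Finset.range b, kap c (x + a, y + j) (x + a, y + j + 1)
  + ∑ i ∈ Finset.range a, kap c (x + i, y + b) (x + i + 1, y + b)
  + ∑ j ∈ Finset.range b, kap c (x, y + j) (x, y + j + 1)

theorem two_cancel (a : ZMod 2) : a + a = 0 := CharTwo.add_self_eq_zero a

theorem bs_add_h (c : Pt → Fin 3) (x y : ℤ) (a a' b : ℕ) :
    bs c x y (a + a') b = bs c x y a b + bs c (x + a) y a' b := by
  unfold bs
  rw [Finset.sum_range_add, Finset.sum_range_add]
  have e1 : ∀ i : ℕ, x + ((a + i : ℕ) : ℤ) = x + a + i := by intro i; push_cast; ring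
  simp only [e1]
  have := two_cancel (∑ j ∈ Finset.range b, kap c (x + a, y + j) (x + a, y + j + 1))
  linear_combination -this

theorem bs_add_v (c : Pt → Fin 3) (x y : ℤ) (a b b' : ℕ) :
    bs c x y a (b + b') = bs c x y a b + bs c x (y + b) a b' := by
  unfold bs
  rw [Finset.sum_range_add, Finset.sum_range_add]
  have e1 : ∀ i : ℕ, y + ((b + i : ℕ) : ℤ) = y + b + i := by intro i; push_cast; ring
  simp only [e1]
  have := two_cancel (∑ i ∈ Finset.range a, kap c (x + i, y + b) (x + i + 1, y + b))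
  linear_combination -this

theorem bs_zero_h (c : Pt → Fin 3) (x y : ℤ) (b : ℕ) : bs c x y 0 b = 0 := by
  unfold bs
  simp only [Finset.range_zero, Finset.sum_empty, Nat.cast_zero, add_zero, zero_add]
  exact two_cancel _

theorem bs_zero_v (c : Pt → Fin 3) (x y : ℤ) (a : ℕ) : bs c x y a 0 = 0 := by
  unfold bs
  simp only [Finset.range_zero, Finset.sum_empty, Nat.cast_zero, add_zero]
  exact two_cancel _

theorem bs_row (c : Pt → Fin 3) (x y : ℤ) (w b : ℕ) : ∀ m : ℕ,
    (∀ i < m, bs c (x + i * w) y w b = 0) → bs c x y (m * w) b = 0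
  | 0, _ => by rw [zero_mul]; exact bs_zero_h c x y b
  | m + 1, hm => by
    rw [Nat.succ_mul, bs_add_h, bs_row c x y w b m (fun i hi => hm i (by omega)), zero_add]
    have := hm m (by omega)
    rw [← this]
    congr 1

theorem bs_col (c : Pt → Fin 3) (x y : ℤ) (a w : ℕ) : ∀ m : ℕ,
    (∀ j < m, bs c x (y + j * w) a w = 0) → bs c x y a (m * w) = 0
  | 0, _ => by rw [zero_mul]; exact bs_zero_v c x y a
  | m + 1, hm => by
    rw [Nat.succ_mul, bs_add_v, bs_col c x y a w m (fun i hi => hm i (by omega)), zero_add]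
    have := hm m (by omega)
    rw [← this]
    congr 1

theorem bs_array (c : Pt → Fin 3) (x y : ℤ) (w m m' : ℕ)
    (hm : ∀ i < m, ∀ j < m', bs c (x + i * w) (y + j * w) w w = 0) :
    bs c x y (m * w) (m' * w) = 0 := by
  apply bs_row
  intro i hi
  apply bs_col
  intro j hj
  exact hm i hi j hj

/-- small 4-cycles have zero sum -/
def FourCycle (c : Pt → Fin 3) : Prop :=
  ∀ x y z w : XPt, cX.E 2 x y → cX.E 2 x z → cX.E 2 x w → cX.E 2 y z → cX.E 2 y w → cX.E 2 z w →
    kap c x.p y.p + kap c y.p z.p + kap c z.p w.p + kap c w.p x.p = 0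

theorem E_of_near0 {x y : XPt} (hn : Near 0 x.p y.p) : cX.E 2 x y := by
  apply cX.E_mono (m := 1) (by omega)
  exact ⟨x, rfl, Or.inl (hn.mono (by omega))⟩

theorem E_of_jump {x y : XPt} {l : ℕ} (hj : Jump l x.p y.p) : cX.E 2 x y := by
  apply cX.E_mono (m := 1) (by omega)
  exact ⟨x, rfl, Or.inr ⟨l, hj⟩⟩

theorem E_of_near_jump {x y z : XPt} {l : ℕ} (hn : Near 0 x.p y.p) (hj : Jump l y.p z.p) :
    cX.E 2 x z :=
  ⟨y, ⟨x, rfl, Or.inl (hn.mono (by omega))⟩, Or.inr ⟨l, hj⟩⟩

theorem near0_iff {x y : Pt} : Near 0 x y ↔ (|x.1 - y.1| ≤ 1 ∧ |x.2 - y.2| ≤ 1) := by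
  simp [Near, L]

/-- cells of level `n` which are not inside a hole of type at least `n` -/
def Good (n : ℕ) (a b : ℤ) : Prop :=
  ∀ l, n ≤ l → ∀ A B : ℤ, ¬ ((A * L (l + 1) + h l ≤ a * L n ∧
    (a + 1) * L n ≤ A * L (l + 1) + 2 * h l) ∧ (B * L (l + 1) + h l ≤ b * L n ∧
    (b + 1) * L n ≤ B * L (l + 1) + 2 * h l))

theorem Good_zero_P {a b : ℤ} (hg : Good 0 a b) {x y : ℤ} (hx : x = a ∨ x = a + 1)
    (hy : y = b ∨ y = b + 1) : P (x, y) := by
  intro l A B hO
  obtain ⟨⟨h1, h2⟩, h3, h4⟩ := hO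
  simp only at h1 h2 h3 h4
  refine hg l (Nat.zero_le _) A B ?_
  simp only [L_zero, mul_one]
  rcases hx with rfl | rfl <;> rcases hy with rfl | rfl <;>
    refine ⟨⟨?_, ?_⟩, ?_, ?_⟩ <;> linarith

theorem Good_succ_P {n : ℕ} {a b : ℤ} (hg : Good (n + 1) a b) {q : Pt} (hq : Bd n a b q) :
    P q := by
  intro l' A' B' hO
  rcases lt_trichotomy l' n with hlt | heq | hgt
  · rcases Bd_grid hq with hg | hg
    · exact (OH_not_grid hO n hlt).1 hg
    · exact (OH_not_grid hO n hlt).2 hg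
  · subst heq
    have hC : CH l' A' B' q := ⟨⟨hO.1.1.le, hO.1.2.le⟩, hO.2.1.le, hO.2.2.le⟩
    obtain ⟨rfl, rfl⟩ := CH_cell_unique hC hq.1
    exact hq.2 hO
  · have hLp := L_pos (n + 1)
    have hp := h_pos n
    have hL := L_succ n
    have d0 : L (n + 1) ∣ L l' := L_dvd hgt
    have d1 : L (n + 1) ∣ L (l' + 1) := d0.trans (L_dvd_succ l')
    have d2 : L (n + 1) ∣ h l' := d0.trans (L_dvd_h l')
    have dd : ∀ C : ℤ, L (n + 1) ∣ C * L (l' + 1) + h l' := fun C =>
      dvd_add (dvd_mul_of_dvd_right d1 _) d2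
    have dd' : ∀ C : ℤ, L (n + 1) ∣ C * L (l' + 1) + 2 * h l' := fun C =>
      dvd_add (dvd_mul_of_dvd_right d1 _) (dvd_mul_of_dvd_right d2 _)
    obtain ⟨⟨q1, q2⟩, q3, q4⟩ := hq.1
    obtain ⟨⟨o1, o2⟩, o3, o4⟩ := hO
    have a1 := interval_aux hLp (dd A') (dd' A') o1 o2 (a := a) (by linarith) (by linarith)
    have b1 := interval_aux hLp (dd B') (dd' B') o3 o4 (a := b) (by linarith) (by linarith)
    exact hg l' hgt A' B' ⟨a1, b1⟩

/-- interval inclusion at a coarser level -/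
theorem interval_aux2 {M N a a' p q : ℤ} (hM : 0 < M) (hN : 0 < N) (hp : N ∣ p) (hq : N ∣ q)
    (h1 : p ≤ a' * M) (h2 : (a' + 1) * M ≤ q) (h3 : a * N ≤ a' * M)
    (h4 : (a' + 1) * M ≤ (a + 1) * N) : p ≤ a * N ∧ (a + 1) * N ≤ q := by
  obtain ⟨u, rfl⟩ := hp
  obtain ⟨v, rfl⟩ := hq
  have e1 : u ≤ a := cell_le hN (by nlinarith)
  have e2 : a < v := by
    by_contra hcon
    push Not at hcon
    nlinarith
  have e3 : a + 1 ≤ v := e2
  constructor <;> nlinarith

theorem Good_sub {n : ℕ} {a b : ℤ} (hg : Good (n + 1) a b) {p q : ℤ} (hp : 0 ≤ p ∧ p < 3)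
    (hq : 0 ≤ q ∧ q < 3) (hpq : ¬ (p = 1 ∧ q = 1)) {i j : ℤ} (hi : 0 ≤ i ∧ i < k n)
    (hj : 0 ≤ j ∧ j < k n) : Good n (3 * k n * a + p * k n + i) (3 * k n * b + q * k n + j) := by
  intro l hl A B hin
  have hLn := L_pos n
  have hh := h_pos n
  have hLs := L_succ n
  have hhe : k n * L n = h n := (h_eq n).symm
  have hLp := L_pos (n + 1)
  -- positions
  have pos : ∀ (a p i : ℤ), (3 * k n * a + p * k n + i) * L n = a * L (n + 1) + p * h n + i * L n := by
    intro a p i
    rw [hLs, ← hhe]; ring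
  have pos' : ∀ (a p i : ℤ), (3 * k n * a + p * k n + i + 1) * L n
      = a * L (n + 1) + p * h n + (i + 1) * L n := by
    intro a p i
    rw [hLs, ← hhe]; ring
  rw [pos, pos', pos, pos'] at hin
  have bi : (i + 1) * L n ≤ h n := by rw [← hhe]; nlinarith
  have bj : (j + 1) * L n ≤ h n := by rw [← hhe]; nlinarith
  have ci : 0 ≤ i * L n := by nlinarith
  have cj : 0 ≤ j * L n := by nlinarith
  rcases Nat.lt_or_ge n l with hlt | hge
  · -- coarser holes
    have d0 : L (n + 1) ∣ L l := L_dvd hlt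
    have d1 : L (n + 1) ∣ L (l + 1) := d0.trans (L_dvd_succ l)
    have d2 : L (n + 1) ∣ h l := d0.trans (L_dvd_h l)
    have dd : ∀ C : ℤ, L (n + 1) ∣ C * L (l + 1) + h l := fun C =>
      dvd_add (dvd_mul_of_dvd_right d1 _) d2
    have dd' : ∀ C : ℤ, L (n + 1) ∣ C * L (l + 1) + 2 * h l := fun C =>
      dvd_add (dvd_mul_of_dvd_right d1 _) (dvd_mul_of_dvd_right d2 _)
    have gen : ∀ (A a p i : ℤ), 0 ≤ p → p < 3 → 0 ≤ i * L n → (i + 1) * L n ≤ h n →
        (A * L (l + 1) + h l ≤ a * L (n + 1) + p * h n + i * L n ∧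
          a * L (n + 1) + p * h n + (i + 1) * L n ≤ A * L (l + 1) + 2 * h l) →
        A * L (l + 1) + h l ≤ a * L (n + 1) ∧ (a + 1) * L (n + 1) ≤ A * L (l + 1) + 2 * h l := by
      intro A a p i hp0 hp3 hi0 hi1 hyp
      have hp' : p ≤ 2 := by omega
      refine interval_aux2 (a' := 3 * k n * a + p * k n + i) hLn hLp (dd A) (dd' A) ?_ ?_ ?_ ?_
      · rw [pos]; exact hyp.1
      · rw [pos']; exact hyp.2
      · rw [pos]; nlinarith
      · rw [pos', hLs]; nlinarith
    exact hg l hlt A B ⟨gen A a p i hp.1 hp.2 ci bi hin.1, gen B b q j hq.1 hq.2 cj bj hin.2⟩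
  · have hln : l = n := le_antisymm hge hl
    subst hln
    have gen : ∀ (A a p i : ℤ), 0 ≤ p → p < 3 → 0 ≤ i * L l → (i + 1) * L l ≤ h l →
        (A * L (l + 1) + h l ≤ a * L (l + 1) + p * h l + i * L l ∧
          a * L (l + 1) + p * h l + (i + 1) * L l ≤ A * L (l + 1) + 2 * h l) → p = 1 := by
      intro A a p i hp0 hp3 hi0 hi1 ⟨g1, g2⟩
      have hp' : p ≤ 2 := by omega
      have e1 : A ≤ a := by
        apply cell_le hLp
        rw [hLs] at *
        nlinarith
      have e2 : a ≤ A := by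
        apply cell_le hLp
        rw [hLs] at *
        nlinarith
      have e3 : A = a := le_antisymm e1 e2
      subst e3
      have f1 : 0 < p := by
        by_contra hcon
        have : p = 0 := by omega
        subst this
        nlinarith
      have f2 : p < 2 := by
        by_contra hcon
        have : p = 2 := by omega
        subst this
        nlinarith
      omega
    exact hpq ⟨gen A a p i hp.1 hp.2 ci bi hin.1, gen B b q j hq.1 hq.2 cj bj hin.2⟩

/-- telescoping with reflection -/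
theorem antipodal_sum (f g J : ℕ → ZMod 2) : ∀ n : ℕ,
    (∀ i < n, f i + J (i + 1) + g (n - 1 - i) + J i = 0) →
    ∑ i ∈ Finset.range n, f i + ∑ i ∈ Finset.range n, g i = J 0 + J n := by
  intro n hn
  rw [← Finset.sum_range_reflect g n, ← Finset.sum_add_distrib]
  have h1 : ∀ i ∈ Finset.range n, f i + g (n - 1 - i) = J i + J (i + 1) := by
    intro i hi
    have := hn i (Finset.mem_range.1 hi)
    have t1 := two_cancel (J i)
    have t2 := two_cancel (J (i + 1))
    linear_combination this - t1 - t2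
  rw [Finset.sum_congr rfl h1]
  clear hn h1
  induction n with
  | zero => simp [two_cancel]
  | succ n ih =>
    rw [Finset.sum_range_succ, ih]
    linear_combination two_cancel (J n)

/-- mod 2 sum around a hole -/
theorem bs_hole {c : Pt → Fin 3} (hc : FourCycle c) {n : ℕ} {a b : ℤ} (hg : Good (n + 1) a b) :
    bs c (a * L (n + 1) + h n) (b * L (n + 1) + h n) (hN n) (hN n) = 0 := by
  set x0 : ℤ := a * L (n + 1) + h n with hx0
  set y0 : ℤ := b * L (n + 1) + h n with hy0
  have hH : ((hN n : ℕ) : ℤ) = h n := cast_hN n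
  have hp := h_pos n
  have hL := L_succ n
  -- points on the boundary
  have bd : ∀ i j : ℤ, 0 ≤ i → i ≤ h n → 0 ≤ j → j ≤ h n → (i = 0 ∨ i = h n ∨ j = 0 ∨ j = h n) →
      Bd n a b (x0 + i, y0 + j) := by
    intro i j i0 i1 j0 j1 hij
    refine ⟨⟨⟨?_, ?_⟩, ?_, ?_⟩, ?_⟩
    · simp only; omega
    · simp only; omega
    · simp only; omega
    · simp only; omega
    · rintro ⟨⟨o1, o2⟩, o3, o4⟩
      simp only at o1 o2 o3 o4
      rcases hij with hij | hij | hij | hij <;> omega
  have rh : ∀ i j : ℤ, rho n a b (x0 + i, y0 + j) = (x0 + (h n - i), y0 + (h n - j)) := by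
    intro i j
    unfold rho
    simp only [hx0, hy0, hL]
    ext <;> simp only <;> ring
  -- the points as elements of `X`
  have mk : ∀ i j : ℤ, 0 ≤ i → i ≤ h n → 0 ≤ j → j ≤ h n → (i = 0 ∨ i = h n ∨ j = 0 ∨ j = h n) →
      ∃ u v : XPt, u.p = (x0 + i, y0 + j) ∧ v.p = (x0 + (h n - i), y0 + (h n - j)) ∧
        Jump n u.p v.p := by
    intro i j i0 i1 j0 j1 hij
    have hb := bd i j i0 i1 j0 j1 hij
    refine ⟨⟨_, Good_succ_P hg hb⟩, ⟨_, Good_succ_P hg (rho_Bd hb)⟩, rfl, rh i j, a, b, hb, rfl⟩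
  have four : ∀ i j i' j' : ℤ, 0 ≤ i → i ≤ h n → 0 ≤ j → j ≤ h n →
      (i = 0 ∨ i = h n ∨ j = 0 ∨ j = h n) → 0 ≤ i' → i' ≤ h n → 0 ≤ j' → j' ≤ h n →
      (i' = 0 ∨ i' = h n ∨ j' = 0 ∨ j' = h n) → |i - i'| ≤ 1 → |j - j'| ≤ 1 →
      kap c (x0 + i, y0 + j) (x0 + i', y0 + j')
      + kap c (x0 + i', y0 + j') (x0 + (h n - i'), y0 + (h n - j'))
      + kap c (x0 + (h n - i'), y0 + (h n - j')) (x0 + (h n - i), y0 + (h n - j))
      + kap c (x0 + (h n - i), y0 + (h n - j)) (x0 + i, y0 + j) = 0 := by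
    intro i j i' j' i0 i1 j0 j1 hij i0' i1' j0' j1' hij' hi hj
    obtain ⟨u, v, hu, hv, huv⟩ := mk i j i0 i1 j0 j1 hij
    obtain ⟨u', v', hu', hv', huv'⟩ := mk i' j' i0' i1' j0' j1' hij'
    have nu : Near 0 u.p u'.p := by
      rw [near0_iff, hu, hu']
      simp only
      constructor
      · have : x0 + i - (x0 + i') = i - i' := by ring
        rw [this]; exact hi
      · have : y0 + j - (y0 + j') = j - j' := by ring
        rw [this]; exact hj
    have nv : Near 0 v.p v'.p := by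
      rw [near0_iff, hv, hv']
      simp only
      constructor
      · have : x0 + (h n - i) - (x0 + (h n - i')) = i' - i := by ring
        rw [this, abs_sub_comm]; exact hi
      · have : y0 + (h n - j) - (y0 + (h n - j')) = j' - j := by ring
        rw [this, abs_sub_comm]; exact hj
    have := hc u u' v' v (E_of_near0 nu) (E_of_near_jump nu huv') (E_of_jump huv)
      (E_of_jump huv') (E_of_near_jump nu.symm huv)
      (E_of_near0 nv.symm)
    rw [hu, hu', hv, hv'] at this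
    exact this
  -- horizontal sides
  have hor := antipodal_sum (fun i => kap c (x0 + i, y0) (x0 + i + 1, y0))
    (fun i => kap c (x0 + i, y0 + (hN n : ℕ)) (x0 + i + 1, y0 + (hN n : ℕ)))
    (fun i => kap c (x0 + i, y0) (x0 + (h n - i), y0 + h n)) (hN n) (by
      intro i hi
      have hi' : (i : ℤ) < h n := by rw [← hH]; exact_mod_cast hi
      have i0 : (0 : ℤ) ≤ i := Int.natCast_nonneg i
      have := four i 0 (i + 1) 0 i0 (by omega) le_rfl hp.le (by simp) (by omega) (by omega) le_rfl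
        hp.le (by simp) (by simp) (by simp)
      have ec : ((hN n - 1 - i : ℕ) : ℤ) = h n - 1 - i := by
        rw [← hH]; omega
      simp only [ec, hH]
      rw [← this]
      push_cast
      simp only [add_zero, sub_zero]
      have e1 : x0 + (i + 1 : ℤ) = x0 + i + 1 := by ring
      have e2 : x0 + (h n - 1 - i) = x0 + (h n - (i + 1)) := by ring
      have e3 : x0 + (h n - 1 - i) + 1 = x0 + (h n - i) := by ring
      rw [e3, e2, e1]
      rw [kap_symm c (x0 + (h n - ↑i), y0 + h n) (x0 + ↑i, y0)])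
  have ver := antipodal_sum (fun j => kap c (x0 + (hN n : ℕ), y0 + j) (x0 + (hN n : ℕ), y0 + j + 1))
    (fun j => kap c (x0, y0 + j) (x0, y0 + j + 1))
    (fun j => kap c (x0 + h n, y0 + j) (x0, y0 + (h n - j))) (hN n) (by
      intro j hj
      have hj' : (j : ℤ) < h n := by rw [← hH]; exact_mod_cast hj
      have j0 : (0 : ℤ) ≤ j := Int.natCast_nonneg j
      have := four (h n) j (h n) (j + 1) hp.le le_rfl j0 (by omega) (by simp) hp.le le_rfl
        (by omega) (by omega) (by simp) (by simp) (by simp)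
      have ec : ((hN n - 1 - j : ℕ) : ℤ) = h n - 1 - j := by
        rw [← hH]; omega
      simp only [ec, hH]
      rw [← this]
      push_cast
      simp only [sub_self, add_zero]
      have e1 : y0 + (j + 1 : ℤ) = y0 + j + 1 := by ring
      have e2 : y0 + (h n - 1 - j) = y0 + (h n - (j + 1)) := by ring
      have e3 : y0 + (h n - 1 - j) + 1 = y0 + (h n - j) := by ring
      rw [e3, e2, e1]
      rw [kap_symm c (x0, y0 + (h n - ↑j)) (x0 + h n, y0 + ↑j)])
  have tot : bs c x0 y0 (hN n) (hN n) =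
      (∑ i ∈ Finset.range (hN n), kap c (x0 + i, y0) (x0 + i + 1, y0) +
      ∑ i ∈ Finset.range (hN n), kap c (x0 + i, y0 + (hN n : ℕ)) (x0 + i + 1, y0 + (hN n : ℕ))) +
      (∑ j ∈ Finset.range (hN n), kap c (x0 + (hN n : ℕ), y0 + j) (x0 + (hN n : ℕ), y0 + j + 1)
      + ∑ j ∈ Finset.range (hN n), kap c (x0, y0 + j) (x0, y0 + j + 1)) := by
    unfold bs
    ring
  rw [tot, hor, ver]
  simp only [Nat.cast_zero, add_zero, sub_zero, hH, sub_self]
  rw [kap_symm c (x0 + h n, y0 + h n) (x0, y0)]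
  have t1 := two_cancel (kap c (x0, y0) (x0 + h n, y0 + h n))
  have t2 := two_cancel (kap c (x0 + h n, y0) (x0, y0 + h n))
  linear_combination t1 + t2

/-- mod 2 sum around a good cell -/
theorem bs_cell {c : Pt → Fin 3} (hc : FourCycle c) : ∀ (n : ℕ) (a b : ℤ), Good n a b →
    bs c (a * L n) (b * L n) (LN n) (LN n) = 0
  | 0, a, b, hg => by
    have mk : ∀ x y : ℤ, (x = a ∨ x = a + 1) → (y = b ∨ y = b + 1) → ∃ u : XPt, u.p = (x, y) :=
      fun x y hx hy => ⟨⟨(x, y), Good_zero_P hg hx hy⟩, rfl⟩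
    obtain ⟨u, hu⟩ := mk a b (by simp) (by simp)
    obtain ⟨v, hv⟩ := mk (a + 1) b (by simp) (by simp)
    obtain ⟨w, hw⟩ := mk (a + 1) (b + 1) (by simp) (by simp)
    obtain ⟨z, hz⟩ := mk a (b + 1) (by simp) (by simp)
    have near : ∀ s t : XPt, (s.p.1 = a ∨ s.p.1 = a + 1) → (s.p.2 = b ∨ s.p.2 = b + 1) →
        (t.p.1 = a ∨ t.p.1 = a + 1) → (t.p.2 = b ∨ t.p.2 = b + 1) → cX.E 2 s t := by
      intro s t h1 h2 h3 h4
      apply E_of_near0
      rw [near0_iff, abs_le, abs_le]
      omega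
    have := hc u v w z (near _ _ (by simp [hu]) (by simp [hu]) (by simp [hv]) (by simp [hv]))
      (near _ _ (by simp [hu]) (by simp [hu]) (by simp [hw]) (by simp [hw]))
      (near _ _ (by simp [hu]) (by simp [hu]) (by simp [hz]) (by simp [hz]))
      (near _ _ (by simp [hv]) (by simp [hv]) (by simp [hw]) (by simp [hw]))
      (near _ _ (by simp [hv]) (by simp [hv]) (by simp [hz]) (by simp [hz]))
      (near _ _ (by simp [hw]) (by simp [hw]) (by simp [hz]) (by simp [hz]))
    rw [hu, hv, hw, hz] at this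
    unfold bs
    simp only [LN, L, Finset.range_one, Finset.sum_singleton, mul_one, Nat.cast_zero, add_zero,
      Nat.cast_one]
    rw [kap_symm c (a, b) (a, b + 1)]
    rw [kap_symm c (a + 1, b + 1) (a, b + 1)] at this
    linear_combination this
  | n + 1, a, b, hg => by
    have hH : ((hN n : ℕ) : ℤ) = h n := cast_hN n
    have ih := bs_cell hc n
    have hLs := L_succ n
    have hhe : k n * L n = h n := (h_eq n).symm
    -- the outer blocks
    have outer : ∀ p q : ℤ, 0 ≤ p ∧ p < 3 → 0 ≤ q ∧ q < 3 → ¬ (p = 1 ∧ q = 1) →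
        bs c (a * L (n + 1) + p * h n) (b * L (n + 1) + q * h n) (hN n) (hN n) = 0 := by
      intro p q hp hq hpq
      have : hN n = kN n * LN n := rfl
      rw [this]
      apply bs_array
      intro i hi j hj
      have ci : (i : ℤ) < k n := by rw [← cast_kN]; exact_mod_cast hi
      have cj : (j : ℤ) < k n := by rw [← cast_kN]; exact_mod_cast hj
      have hg' := Good_sub hg hp hq hpq (i := i) (j := j) ⟨Int.natCast_nonneg i, ci⟩
        ⟨Int.natCast_nonneg j, cj⟩
      have := ih _ _ hg'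
      rw [← this]
      congr 1
      · rw [cast_LN, hLs, ← hhe]; ring
      · rw [cast_LN, hLs, ← hhe]; ring
    have hcen := bs_hole hc hg
    rw [LN_succ]
    have e3 : 3 * hN n = hN n + (hN n + hN n) := by ring
    rw [e3]
    rw [bs_add_h, bs_add_h, bs_add_v, bs_add_v, bs_add_v, bs_add_v, bs_add_v, bs_add_v]
    have o00 := outer 0 0 (by omega) (by omega) (by omega)
    have o01 := outer 0 1 (by omega) (by omega) (by omega)
    have o02 := outer 0 2 (by omega) (by omega) (by omega)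
    have o10 := outer 1 0 (by omega) (by omega) (by omega)
    have o12 := outer 1 2 (by omega) (by omega) (by omega)
    have o20 := outer 2 0 (by omega) (by omega) (by omega)
    have o21 := outer 2 1 (by omega) (by omega) (by omega)
    have o22 := outer 2 2 (by omega) (by omega) (by omega)
    simp only [zero_mul, add_zero, one_mul, two_mul] at o00 o01 o02 o10 o12 o20 o21 o22
    simp only [hH]
    simp only [← add_assoc] at o00 o01 o02 o10 o12 o20 o21 o22 hcen ⊢
    rw [o00, o01, o02, o10, hcen, o12, o20, o21, o22]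
    simp

end Pool.Agent.Roe
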