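import Pool.Agent.Lib_MP_270856_an.LowerX

set_option autoImplicit false

namespace Pool.Agent.Roe

theorem h_mono {n m : ℕ} (hnm : n ≤ m) : h n ≤ h m := by
  have h1 := L_succ n
  have h2 := L_succ m
  have h3 : L (n + 1) ≤ L (m + 1) := L_mono (by omega)
  omega

theorem CH_large {l : ℕ} {A B : ℤ} {x : Pt} (hx : CH l A B x) : h l ≤ |x.1| := by
  obtain ⟨⟨h1, h2⟩, _⟩ := hx
  have hp := h_pos l
  have hL := L_succ l
  rcases le_or_gt 0 A with hA | hA
  · have : 0 ≤ A * L (l + 1) := mul_nonneg hA (L_pos _).le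
    exact le_trans (by linarith) (le_abs_self _)
  · have : A * L (l + 1) ≤ - L (l + 1) := by
      have : A ≤ -1 := by omega
      have hLp := L_pos (l + 1)
      nlinarith
    exact le_trans (by linarith) (neg_le_abs _)

theorem displacement {m J : ℕ} (hmJ : m ≤ J) {N : ℤ} {x : XPt} (hx : |x.p.1| ≤ N) :
    ∀ (t : ℕ) (y : XPt), N + t * L J < h J → Chain (cX.S m) t x y →
      |y.p.1 - x.p.1| ≤ t * L J ∧ |y.p.2 - x.p.2| ≤ t * L J
  | 0, y, _, hc => by
    have : x = y := hc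
    subst this
    simp
  | t + 1, y, hN, ⟨z, hz, hzy⟩ => by
    have hLJ := L_pos J
    push_cast at hN
    have ih := displacement hmJ hx t z (by nlinarith) hz
    have hz1 : |z.p.1| < h J := by
      have := abs_add_le (z.p.1 - x.p.1) x.p.1
      rw [sub_add_cancel] at this
      nlinarith [ih.1]
    have step : Near J z.p y.p := by
      rcases hzy with hn | ⟨l, hl⟩
      · exact hn.mono hmJ
      · rcases Nat.lt_or_ge l J with hlt | hge
        · exact Jump_near hl hlt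
        · exfalso
          obtain ⟨A, B, hB, _⟩ := hl
          have := CH_large hB.1
          have := h_mono hge
          omega
    obtain ⟨s1, s2⟩ := step
    rw [abs_sub_comm] at s1 s2
    have e1 : y.p.1 - x.p.1 = (y.p.1 - z.p.1) + (z.p.1 - x.p.1) := by ring
    have e2 : y.p.2 - x.p.2 = (y.p.2 - z.p.2) + (z.p.2 - x.p.2) := by ring
    have a1 := abs_add_le (y.p.1 - z.p.1) (z.p.1 - x.p.1)
    have a2 := abs_add_le (y.p.2 - z.p.2) (z.p.2 - x.p.2)
    rw [← e1] at a1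
    rw [← e2] at a2
    push_cast
    constructor
    · nlinarith [ih.1]
    · nlinarith [ih.2]

theorem tele01 (f : ℕ → Fin 3) : ∀ N : ℕ, (∀ i ≤ N, f i ≠ 2) →
    ∑ i ∈ Finset.range N, (if (f i = 0 ∧ f (i + 1) = 1) ∨ (f i = 1 ∧ f (i + 1) = 0)
      then (1 : ZMod 2) else 0) = if f 0 = f N then 0 else 1
  | 0, _ => by simp
  | N + 1, hf => by
    rw [Finset.sum_range_succ, tele01 f N (fun i hi => hf i (by omega))]
    have h0 := hf 0 (by omega)
    have h1 := hf N (by omega)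
    have h2 := hf (N + 1) le_rfl
    have key : ∀ a b c : Fin 3, a ≠ 2 → b ≠ 2 → c ≠ 2 →
        (if a = b then (0 : ZMod 2) else 1) +
        (if (b = 0 ∧ c = 1) ∨ (b = 1 ∧ c = 0) then (1 : ZMod 2) else 0)
        = if a = c then 0 else 1 := by decide
    exact key _ _ _ h0 h1 h2

theorem decide_four : ∀ c1 c2 c3 c4 : Fin 3, ∀ i1 i2 i3 i4 : Fin 2,
  (i1 = i2 → c1 = c2) → (i1 = i3 → c1 = c3) → (i1 = i4 → c1 = c4) → (i2 = i3 → c2 = c3) →
  (i2 = i4 → c2 = c4) → (i3 = i4 → c3 = c4) →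
  ((if (c1 = 0 ∧ c2 = 1) ∨ (c1 = 1 ∧ c2 = 0) then (1:ZMod 2) else 0)
  + (if (c2 = 0 ∧ c3 = 1) ∨ (c2 = 1 ∧ c3 = 0) then (1:ZMod 2) else 0)
  + (if (c3 = 0 ∧ c4 = 1) ∨ (c3 = 1 ∧ c4 = 0) then (1:ZMod 2) else 0)
  + (if (c4 = 0 ∧ c1 = 1) ∨ (c4 = 1 ∧ c1 = 0) then (1:ZMod 2) else 0)) = 0 := by decide

theorem P_of_dvd {x : Pt} {J : ℕ} (hd : L J ∣ x.1 ∨ L J ∣ x.2)
    (hb : 0 ≤ x.1 ∧ x.1 < h J) : P x := by
  intro l A B hO
  rcases Nat.lt_or_ge l J with hlt | hge
  · rcases hd with hd | hd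
    · exact (OH_not_grid hO J hlt).1 hd
    · exact (OH_not_grid hO J hlt).2 hd
  · have h1 := CH_large (l := l) (A := A) (B := B) (x := x)
      ⟨⟨hO.1.1.le, hO.1.2.le⟩, hO.2.1.le, hO.2.2.le⟩
    have h2 := h_mono hge
    rw [abs_of_nonneg hb.1] at h1
    omega

theorem Good_box {J : ℕ} {a b : ℤ} (ha : 0 ≤ a) (ha' : (a + 1) * L J < h J) : Good J a b := by
  intro l hl A B hin
  obtain ⟨⟨h1, h2⟩, _⟩ := hin
  have h3 := h_mono hl
  have hLJ := L_pos J
  have hp := h_pos l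
  have hL := L_succ l
  rcases le_or_gt 0 A with hA | hA
  · have : 0 ≤ A * L (l + 1) := mul_nonneg hA (L_pos _).le
    nlinarith
  · have : A * L (l + 1) ≤ - L (l + 1) := by
      have : A ≤ -1 := by omega
      have hLp := L_pos (l + 1)
      nlinarith
    nlinarith

theorem k_gt (J : ℕ) : 2 * (J : ℤ) + 1 < k J := by
  unfold k
  have : ∀ n : ℕ, 2 * (n : ℤ) + 1 < 16 ^ (n + 1) := by
    intro n
    induction n with
    | zero => norm_num
    | succ n ih => 
      push_cast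
      rw [pow_succ]
      nlinarith
  exact this J

theorem X_not_asdim_one (H : letI := cX.metric; ∀ R : ℝ, 0 < R →
      ∃ U : Fin (1 + 1) → Set (Set XPt),
        (∃ D : ℝ, ∀ i, ∀ A ∈ U i, ∀ a ∈ A, ∀ b ∈ A, dist a b ≤ D) ∧
        (∀ z : XPt, ∃ i, ∃ A ∈ U i, z ∈ A) ∧
        (∀ i, ∀ A ∈ U i, ∀ B ∈ U i, A ≠ B → ∀ a ∈ A, ∀ b ∈ B, R < dist a b)) : False := by
  classical
  letI := cX.metric
  obtain ⟨U, ⟨D, hD⟩, hcov, hdisj⟩ := H 2 (by norm_num)
  choose idx A hA hzA using hcov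
  -- same index and close implies same set
  have same : ∀ x y : XPt, cX.E 2 x y → idx x = idx y → A x = A y := by
    intro x y hE hi
    by_contra hne
    have h1 := hdisj (idx x) (A x) (hA x) (A y) (by rw [hi]; exact hA y) hne x (hzA x) y (hzA y)
    have h2 := cX.dist_le_of_E hE
    have h3 : dist x y ≤ 2 := by simpa using h2
    linarith
  set J : ℕ := ⌊D⌋₊ with hJ
  have close : ∀ x y z : XPt, y ∈ A x → z ∈ A x → cX.E J y z := by
    intro x y z hy hz
    exact cX.E_of_dist_le (hD (idx x) (A x) (hA x) y hy z hz)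
  have hLJ := L_pos J
  have hkJ := k_gt J
  -- the box
  set N : ℕ := (J + 1) * LN J with hN
  have hNc : (N : ℤ) = (J + 1) * L J := by rw [hN]; push_cast; rw [cast_LN]
  have hNJ : (N : ℤ) + J * L J < h J := by
    rw [hNc, h_eq]
    nlinarith
  have hNpos : (0 : ℤ) < N := by rw [hNc]; positivity
  let Lf : Set XPt := {x | x.p.1 = 0 ∧ 0 ≤ x.p.2 ∧ x.p.2 ≤ N}
  let Rt : Set XPt := {x | x.p.1 = N ∧ 0 ≤ x.p.2 ∧ x.p.2 ≤ N}
  let Bt : Set XPt := {x | x.p.2 = 0 ∧ 0 ≤ x.p.1 ∧ x.p.1 ≤ N}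
  let Tp : Set XPt := {x | x.p.2 = N ∧ 0 ≤ x.p.1 ∧ x.p.1 ≤ N}
  have sepLR : ∀ w x y : XPt, x ∈ A w → y ∈ A w → x ∈ Lf → y ∈ Rt → False := by
    intro w x y hx hy hxL hyR
    have hE := close w x y hx hy
    have hx1 : |x.p.1| ≤ N := by rw [hxL.1]; simp
    have := (displacement (le_refl J) hx1 J y hNJ hE).1
    rw [hxL.1, hyR.1, sub_zero, abs_of_nonneg hNpos.le, hNc] at this
    nlinarith
  have sepBT : ∀ w x y : XPt, x ∈ A w → y ∈ A w → x ∈ Bt → y ∈ Tp → False := by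
    intro w x y hx hy hxL hyR
    have hE := close w x y hx hy
    have hx1 : |x.p.1| ≤ N := by rw [abs_of_nonneg hxL.2.1]; exact hxL.2.2
    have := (displacement (le_refl J) hx1 J y hNJ hE).2
    rw [hxL.1, hyR.1, sub_zero, abs_of_nonneg hNpos.le, hNc] at this
    nlinarith
  let col : Set XPt → Fin 3 := fun S =>
    if (∃ x ∈ S, x ∈ Lf) then 0 else if (∃ x ∈ S, x ∈ Bt) then 1 else 2
  let c : Pt → Fin 3 := fun p => if hp : P p then col (A ⟨p, hp⟩) else 2
  have hcx : ∀ x : XPt, c x.p = col (A x) := by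
    intro x
    show (if hp : P x.p then col (A ⟨x.p, hp⟩) else 2) = col (A x)
    rw [dif_pos x.hp]
  have colL : ∀ x : XPt, x ∈ Lf → c x.p = 0 := by
    intro x hx
    rw [hcx]
    exact if_pos ⟨x, hzA x, hx⟩
  have colR : ∀ x : XPt, x ∈ Rt → c x.p ≠ 0 := by
    intro x hx
    rw [hcx]
    have : ¬ (∃ y ∈ A x, y ∈ Lf) := by
      rintro ⟨y, hy, hyL⟩
      exact sepLR x y x hy (hzA x) hyL hx
    show (if (∃ x' ∈ A x, x' ∈ Lf) then (0 : Fin 3) else _) ≠ 0
    rw [if_neg this]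
    split_ifs <;> decide
  have colB : ∀ x : XPt, x ∈ Bt → c x.p ≠ 2 := by
    intro x hx
    rw [hcx]
    show (if (∃ x' ∈ A x, x' ∈ Lf) then (0 : Fin 3) else
      if (∃ x' ∈ A x, x' ∈ Bt) then 1 else 2) ≠ 2
    rw [if_pos (⟨x, hzA x, hx⟩ : ∃ x' ∈ A x, x' ∈ Bt)]
    split_ifs <;> decide
  have colT : ∀ x : XPt, x ∈ Tp → c x.p ≠ 1 := by
    intro x hx
    rw [hcx]
    have : ¬ (∃ y ∈ A x, y ∈ Bt) := by
      rintro ⟨y, hy, hyB⟩
      exact sepBT x y x hy (hzA x) hyB hx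
    show (if (∃ x' ∈ A x, x' ∈ Lf) then (0 : Fin 3) else
      if (∃ x' ∈ A x, x' ∈ Bt) then 1 else 2) ≠ 1
    rw [if_neg this]
    split_ifs <;> decide
  have hfour : FourCycle c := by
    intro x y z w hxy hxz hxw hyz hyw hzw
    unfold kap
    rw [hcx, hcx, hcx, hcx]
    have e : ∀ u v : XPt, cX.E 2 u v → idx u = idx v → col (A u) = col (A v) := by
      intro u v hE hi; rw [same u v hE hi]
    exact decide_four _ _ _ _ _ _ _ _ (e x y hxy) (e x z hxz) (e x w hxw) (e y z hyz)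
      (e y w hyw) (e z w hzw)
  -- the sum over the box is zero
  have hzero : bs c 0 0 N N = 0 := by
    rw [hN]
    apply bs_array
    intro i hi j hj
    have hg : Good J (i : ℤ) (j : ℤ) := by
      apply Good_box (Int.natCast_nonneg i)
      have : (i : ℤ) + 1 ≤ J + 1 := by exact_mod_cast hi
      rw [h_eq]
      nlinarith
    have := bs_cell hfour J i j hg
    rw [← this]
    congr 1
    · rw [cast_LN]; ring
    · rw [cast_LN]; ring
  -- points on the sides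
  have hdN : L J ∣ (N : ℤ) := by rw [hNc]; exact Dvd.intro_left _ rfl
  have hNh : (N : ℤ) < h J := by nlinarith [Int.natCast_nonneg J]
  have pB : ∀ i : ℤ, 0 ≤ i → i ≤ N → P (i, 0) := fun i h0 h1 =>
    P_of_dvd (J := J) (Or.inr (dvd_zero _)) ⟨h0, by simp only; omega⟩
  have pT : ∀ i : ℤ, 0 ≤ i → i ≤ N → P (i, (N : ℤ)) := fun i h0 h1 =>
    P_of_dvd (J := J) (Or.inr hdN) ⟨h0, by simp only; omega⟩
  have pL : ∀ i : ℤ, P (0, i) := fun i =>
    P_of_dvd (J := J) (Or.inl (dvd_zero _)) ⟨le_rfl, h_pos J⟩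
  have pR : ∀ i : ℤ, P ((N : ℤ), i) := fun i =>
    P_of_dvd (J := J) (Or.inl hdN) ⟨hNpos.le, hNh⟩
  -- evaluate the sum
  have sB : ∑ i ∈ Finset.range N, kap c ((0 : ℤ) + i, 0) (0 + i + 1, 0) = 1 := by
    have := tele01 (fun i => c ((i : ℤ), 0)) N (by
      intro i hi
      exact colB ⟨_, pB i (Int.natCast_nonneg i) (by exact_mod_cast hi)⟩
        ⟨rfl, Int.natCast_nonneg i, by simp only; exact_mod_cast hi⟩)
    have h0 : c (((0 : ℕ) : ℤ), 0) = 0 := colL ⟨_, pB 0 le_rfl hNpos.le⟩ ⟨rfl, le_rfl, hNpos.le⟩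
    have h1 : c ((N : ℤ), 0) ≠ 0 := colR ⟨_, pB N hNpos.le le_rfl⟩ ⟨rfl, le_rfl, hNpos.le⟩
    rw [h0, if_neg (Ne.symm h1)] at this
    rw [← this]
    apply Finset.sum_congr rfl
    intro i _
    unfold kap
    push_cast
    rw [zero_add]
  have sR : ∑ j ∈ Finset.range N, kap c ((0 : ℤ) + N, 0 + j) (0 + N, 0 + j + 1) = 0 := by
    apply Finset.sum_eq_zero
    intro j hj
    rw [Finset.mem_range] at hj
    have a1 := colR ⟨_, pR j⟩ ⟨rfl, Int.natCast_nonneg j, by simp only; exact_mod_cast hj.le⟩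
    have a2 := colR ⟨_, pR (j + 1)⟩ ⟨rfl, by simp only; omega, by simp only; omega⟩
    simp only at a1 a2
    unfold kap
    simp only [zero_add]
    rw [if_neg]
    rintro (⟨h1, _⟩ | ⟨_, h2⟩)
    · exact a1 h1
    · exact a2 h2
  have sT : ∑ i ∈ Finset.range N, kap c ((0 : ℤ) + i, 0 + N) (0 + i + 1, 0 + N) = 0 := by
    apply Finset.sum_eq_zero
    intro i hi
    rw [Finset.mem_range] at hi
    have a1 := colT ⟨_, pT i (Int.natCast_nonneg i) (by exact_mod_cast hi.le)⟩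
      ⟨rfl, Int.natCast_nonneg i, by simp only; exact_mod_cast hi.le⟩
    have a2 := colT ⟨_, pT (i + 1) (by omega) (by omega)⟩
      ⟨rfl, by simp only; omega, by simp only; omega⟩
    simp only at a1 a2
    unfold kap
    simp only [zero_add]
    rw [if_neg]
    rintro (⟨_, h1⟩ | ⟨h2, _⟩)
    · exact a2 h1
    · exact a1 h2
  have sL : ∑ j ∈ Finset.range N, kap c ((0 : ℤ), 0 + j) (0, 0 + j + 1) = 0 := by
    apply Finset.sum_eq_zero
    intro j hj
    rw [Finset.mem_range] at hj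
    have a1 := colL ⟨_, pL j⟩ ⟨rfl, Int.natCast_nonneg j, by simp only; exact_mod_cast hj.le⟩
    have a2 := colL ⟨_, pL (j + 1)⟩ ⟨rfl, by simp only; omega, by simp only; omega⟩
    simp only at a1 a2
    unfold kap
    simp only [zero_add]
    rw [if_neg]
    rintro (⟨_, h1⟩ | ⟨h2, _⟩)
    · rw [a2] at h1; exact absurd h1 (by decide)
    · rw [a1] at h2; exact absurd h2 (by decide)
  unfold bs at hzero
  rw [sB, sR, sT, sL] at hzero
  exact absurd hzero (by decide)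

end Pool.Agent.Roe
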