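import Pool.Agent.Lib_MP_270856_an.Hilb

set_option autoImplicit false

namespace Pool.Agent.Roe

open Classical

/-- restriction of a homomorphism to the closed algebras generated by finite propagation
operators -/
theorem exists_restrict (X Y : Type) [MetricSpace X] [MetricSpace Y]
    (Φ0 : (H2 X →L[ℂ] H2 X) →⋆ₙₐ[ℂ] (H2 Y →L[ℂ] H2 Y)) (hc : Continuous Φ0)
    (hi : Function.Injective Φ0)
    (hprop : ∀ T : H2 X →L[ℂ] H2 X, (∃ R : ℝ, ∀ a b : X, R < dist a b → ent T a b = 0) →
      ∀ ε : ℝ, 0 < ε → ∃ S : H2 Y →L[ℂ] H2 Y,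
        (∃ R : ℝ, ∀ a b : Y, R < dist a b → ent S a b = 0) ∧ ‖Φ0 T - S‖ < ε) :
    ∃ Φ : (StarAlgebra.adjoin ℂ
              {T : lp (fun _ : X => ℂ) 2 →L[ℂ] lp (fun _ : X => ℂ) 2 |
                ∃ R : ℝ, ∀ a b : X, R < dist a b →
                  inner ℂ (lp.single (E := fun _ : X => ℂ) 2 a (1 : ℂ))
                    (T (lp.single (E := fun _ : X => ℂ) 2 b (1 : ℂ))) = 0}).topologicalClosure
            →⋆ₙₐ[ℂ]
           (StarAlgebra.adjoin ℂ
              {T : lp (fun _ : Y => ℂ) 2 →L[ℂ] lp (fun _ : Y => ℂ) 2 |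
                ∃ R : ℝ, ∀ a b : Y, R < dist a b →
                  inner ℂ (lp.single (E := fun _ : Y => ℂ) 2 a (1 : ℂ))
                    (T (lp.single (E := fun _ : Y => ℂ) 2 b (1 : ℂ))) = 0}).topologicalClosure,
        Function.Injective Φ := by
  set sX : Set (H2 X →L[ℂ] H2 X) := {T | ∃ R : ℝ, ∀ a b : X, R < dist a b →
                  inner ℂ (lp.single (E := fun _ : X => ℂ) 2 a (1 : ℂ))
                    (T (lp.single (E := fun _ : X => ℂ) 2 b (1 : ℂ))) = 0} with hsX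
  set sY : Set (H2 Y →L[ℂ] H2 Y) := {T | ∃ R : ℝ, ∀ a b : Y, R < dist a b →
                  inner ℂ (lp.single (E := fun _ : Y => ℂ) 2 a (1 : ℂ))
                    (T (lp.single (E := fun _ : Y => ℂ) 2 b (1 : ℂ))) = 0} with hsY
  have hmem1 : ∀ T ∈ sX, Φ0 T ∈ (StarAlgebra.adjoin ℂ sY).topologicalClosure := by
    intro T hT
    rw [← SetLike.mem_coe, StarSubalgebra.topologicalClosure_coe]
    apply closure_mono (StarAlgebra.subset_adjoin ℂ sY)
    rw [Metric.mem_closure_iff]
    intro ε hε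
    obtain ⟨S, hS1, hS2⟩ := hprop T hT ε hε
    exact ⟨S, hS1, by rw [dist_eq_norm]; exact hS2⟩
  have halg : ∀ r : ℂ, algebraMap ℂ (H2 X →L[ℂ] H2 X) r ∈ sX := by
    intro r
    refine ⟨0, fun a b hab => ?_⟩
    have hne : a ≠ b := dist_pos.1 hab
    show ent (algebraMap ℂ (H2 X →L[ℂ] H2 X) r) a b = 0
    rw [ent_eq, Algebra.algebraMap_eq_smul_one]
    show (r • (bas b : H2 X)) a = 0
    rw [lp.coeFn_smul, Pi.smul_apply, bas_ne (Ne.symm hne), smul_zero]
  have hmem2 : ∀ T ∈ StarAlgebra.adjoin ℂ sX,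
      Φ0 T ∈ (StarAlgebra.adjoin ℂ sY).topologicalClosure := by
    intro T hT
    induction hT using StarAlgebra.adjoin_induction with
    | mem x hx => exact hmem1 x hx
    | algebraMap r => exact hmem1 _ (halg r)
    | add x y _ _ h1 h2 => rw [map_add]; exact add_mem h1 h2
    | mul x y _ _ h1 h2 => rw [map_mul]; exact mul_mem h1 h2
    | star x _ h1 => rw [map_star]; exact star_mem h1
  have hmem3 : ∀ T ∈ (StarAlgebra.adjoin ℂ sX).topologicalClosure,
      Φ0 T ∈ (StarAlgebra.adjoin ℂ sY).topologicalClosure := by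
    intro T hT
    rw [← SetLike.mem_coe, StarSubalgebra.topologicalClosure_coe] at hT
    have h1 : Set.MapsTo Φ0 (StarAlgebra.adjoin ℂ sX : Set (H2 X →L[ℂ] H2 X))
        (StarAlgebra.adjoin ℂ sY).topologicalClosure := fun x hx => hmem2 x hx
    have h2 := map_mem_closure hc hT h1
    rwa [(StarSubalgebra.isClosed_topologicalClosure _).closure_eq] at h2
  refine ⟨{ toFun := fun T => ⟨Φ0 T.1, hmem3 T.1 T.2⟩
            map_smul' := fun c T => Subtype.ext (map_smul Φ0 c T.1)
            map_zero' := Subtype.ext (map_zero Φ0)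
            map_add' := fun S T => Subtype.ext (map_add Φ0 S.1 T.1)
            map_mul' := fun S T => Subtype.ext (map_mul Φ0 S.1 T.1)
            map_star' := fun T => Subtype.ext (map_star Φ0 T.1) }, ?_⟩
  intro S T hST
  exact Subtype.ext (hi (congrArg Subtype.val hST))

end Pool.Agent.Roe
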