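import Pool.Agent.Lib_MP_270856_an.Carpet

set_option autoImplicit false

namespace Pool.Agent.Roe

/-- the points of the space `X` -/
structure XPt where
  p : Pt
  hp : P p

theorem XPt.ext' {x y : XPt} (hxy : x.p = y.p) : x = y := by
  cases x; cases y; simp_all

theorem XPt.p_injective : Function.Injective XPt.p := fun _ _ => XPt.ext'

/-- two bits -/
abbrev BB := Bool × Bool

/-- finitely supported sequences of pairs of bits -/
def Bits : Type := {g : ℕ → BB // ∃ N, ∀ i, N ≤ i → g i = (false, false)}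

theorem Bits.ext' {g g' : Bits} (hg : ∀ i, g.1 i = g'.1 i) : g = g' := Subtype.ext (funext hg)

/-- the swap of the first bit -/
def sw (b : BB) : BB := (!b.1, b.2)

theorem sw_sw (b : BB) : sw (sw b) = b := by simp [sw]

/-- flip the first bit at place `l` -/
def flip (l : ℕ) (g : Bits) : Bits :=
  ⟨fun i => if i = l then sw (g.1 i) else g.1 i, by
    obtain ⟨N, hN⟩ := g.2
    refine ⟨max N (l + 1), fun i hi => ?_⟩
    have : i ≠ l := by omega
    simp [this, hN i (by omega)]⟩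

theorem flip_apply (l : ℕ) (g : Bits) (i : ℕ) :
    (flip l g).1 i = if i = l then sw (g.1 i) else g.1 i := rfl

theorem flip_self (l : ℕ) (g : Bits) : (flip l g).1 l = sw (g.1 l) := by simp [flip_apply]

theorem flip_ne {l i : ℕ} (hi : i ≠ l) (g : Bits) : (flip l g).1 i = g.1 i := by
  simp [flip_apply, hi]

theorem flip_flip (l : ℕ) (g : Bits) : flip l (flip l g) = g := by
  apply Bits.ext'
  intro i
  by_cases hi : i = l
  · subst hi; simp [flip_self, sw_sw]
  · simp [flip_ne hi]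

/-- replace the first `n` digits -/
def extd (n : ℕ) (g : Bits) (b : Fin n → BB) : Bits :=
  ⟨fun i => if hi : i < n then b ⟨i, hi⟩ else g.1 i, by
    obtain ⟨N, hN⟩ := g.2
    refine ⟨max N n, fun i hi => ?_⟩
    have : ¬ i < n := by omega
    simp [this, hN i (by omega)]⟩

theorem extd_lt {n : ℕ} (g : Bits) (b : Fin n → BB) (i : Fin n) : (extd n g b).1 i = b i := by
  simp [extd]

theorem extd_ge {n : ℕ} (g : Bits) (b : Fin n → BB) {i : ℕ} (hi : n ≤ i) :
    (extd n g b).1 i = g.1 i := by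
  simp [extd, Nat.not_lt.2 hi]

theorem extd_injective (n : ℕ) (g : Bits) : Function.Injective (extd n g) := by
  intro b b' hb
  funext i
  rw [← extd_lt g b i, ← extd_lt g b' i, hb]

theorem extd_of_agree {n : ℕ} {g g' : Bits} (ha : ∀ i, n ≤ i → g.1 i = g'.1 i) :
    extd n g (fun i => g'.1 i) = g' := by
  apply Bits.ext'
  intro i
  by_cases hi : i < n
  · exact extd_lt g _ ⟨i, hi⟩
  · rw [extd_ge _ _ (Nat.not_lt.1 hi), ha i (Nat.not_lt.1 hi)]

open Classical in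
/-- sequences which agree with `g` beyond `n` -/
noncomputable def nbr (n : ℕ) (g : Bits) : Finset Bits := Finset.univ.image (extd n g)

theorem mem_nbr {n : ℕ} {g g' : Bits} : g' ∈ nbr n g ↔ ∀ i, n ≤ i → g.1 i = g'.1 i := by
  classical
  unfold nbr
  rw [Finset.mem_image]
  constructor
  · rintro ⟨b, _, rfl⟩ i hi
    rw [extd_ge _ _ hi]
  · intro ha
    exact ⟨_, Finset.mem_univ _, extd_of_agree ha⟩

theorem card_nbr (n : ℕ) (g : Bits) : (nbr n g).card ≤ 4 ^ n := by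
  classical
  unfold nbr
  refine Finset.card_image_le.trans ?_
  simp

theorem sum_nbr {M : Type} [AddCommMonoid M] (n : ℕ) (g : Bits) (F : Bits → M) :
    ∑ h ∈ nbr n g, F h = ∑ b : Fin n → BB, F (extd n g b) := by
  classical
  unfold nbr
  rw [Finset.sum_image]
  intro b _ b' _ hb
  exact extd_injective n g hb

open Classical in
/-- nearby points of `X` -/
noncomputable def nearX (n : ℕ) (x : XPt) : Finset XPt :=
  (Finset.Icc (x.p.1 - L n) (x.p.1 + L n) ×ˢ Finset.Icc (x.p.2 - L n) (x.p.2 + L n)).preimage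
    XPt.p XPt.p_injective.injOn

theorem mem_nearX {n : ℕ} {x y : XPt} (hn : Near n x.p y.p) : y ∈ nearX n x := by
  classical
  unfold nearX
  rw [Finset.mem_preimage, Finset.mem_product, Finset.mem_Icc, Finset.mem_Icc]
  obtain ⟨h1, h2⟩ := hn
  rw [abs_le] at h1 h2
  refine ⟨⟨?_, ?_⟩, ?_, ?_⟩ <;> linarith

theorem card_nearX (n : ℕ) (x : XPt) : (nearX n x).card ≤ (2 * L n + 1).toNat ^ 2 := by
  classical
  unfold nearX
  have h1 : ((Finset.Icc (x.p.1 - L n) (x.p.1 + L n) ×ˢ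
      Finset.Icc (x.p.2 - L n) (x.p.2 + L n)).preimage
    XPt.p XPt.p_injective.injOn).card ≤ (Finset.Icc (x.p.1 - L n) (x.p.1 + L n) ×ˢ
      Finset.Icc (x.p.2 - L n) (x.p.2 + L n)).card := by
    apply Finset.card_le_card_of_injOn XPt.p
    · intro a ha
      have := Finset.mem_preimage.1 (Finset.mem_coe.1 ha)
      exact this
    · exact XPt.p_injective.injOn
  refine h1.trans ?_
  rw [Finset.card_product, Int.card_Icc, Int.card_Icc, sq]
  apply le_of_eq
  congr 1 <;> congr 1 <;> ring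

/-- the chain structure of `X` -/
noncomputable def cX : ChainData XPt where
  S n x y := SX n x.p y.p
  refl n x := Or.inl (Near.refl n x.p)
  symm n x y hs := by
    rcases hs with hs | ⟨l, hl⟩
    · exact Or.inl hs.symm
    · exact Or.inr ⟨l, hl.symm⟩
  mono m n x y hmn hs := by
    rcases hs with hs | hl
    · exact Or.inl (hs.mono hmn)
    · exact Or.inr hl
  conn x y := by
    obtain ⟨n, hn1, hn⟩ := exists_near x.p y.p
    refine ⟨n, Chain.mono_n (r := fun x y : XPt => SX n x.p y.p)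
      (fun x => Or.inl (Near.refl n x.p)) hn1 ?_⟩
    exact ⟨x, rfl, Or.inl hn⟩

/-- the basic relation on `Y` -/
def SY (n : ℕ) (y y' : XPt × Bits) : Prop :=
  (Near n y.1.p y'.1.p ∧ ∀ i, n ≤ i → y.2.1 i = y'.2.1 i) ∨
    ∃ l, Jump l y.1.p y'.1.p ∧ y'.2 = flip l y.2

theorem SY_tri {n j : ℕ} (hnj : n ≤ j) {y y' : XPt × Bits} (hs : SY n y y') :
    (Near j y.1.p y'.1.p ∧ ∀ i, j ≤ i → y.2.1 i = y'.2.1 i) ∨
    (Jump j y.1.p y'.1.p ∧ y'.2 = flip j y.2) ∨
    ∃ l, j < l ∧ Jump l y.1.p y'.1.p ∧ y'.2 = flip l y.2 := by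
  rcases hs with ⟨hs, ha⟩ | ⟨l, hl, hf⟩
  · exact Or.inl ⟨hs.mono hnj, fun i hi => ha i (hnj.trans hi)⟩
  · rcases lt_trichotomy l j with h1 | h1 | h1
    · refine Or.inl ⟨Jump_near hl h1, fun i hi => ?_⟩
      rw [hf, flip_ne (by omega)]
    · subst h1; exact Or.inr (Or.inl ⟨hl, hf⟩)
    · exact Or.inr (Or.inr ⟨l, h1, hl, hf⟩)

theorem exists_agree (g g' : Bits) : ∃ N, ∀ i, N ≤ i → g.1 i = g'.1 i := by
  obtain ⟨N, hN⟩ := g.2
  obtain ⟨N', hN'⟩ := g'.2
  exact ⟨max N N', fun i hi => by rw [hN i (by omega), hN' i (by omega)]⟩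

/-- the chain structure of `Y` -/
noncomputable def cY : ChainData (XPt × Bits) where
  S := SY
  refl n y := Or.inl ⟨Near.refl n _, fun _ _ => rfl⟩
  symm n y y' hs := by
    rcases hs with ⟨hs, ha⟩ | ⟨l, hl, hf⟩
    · exact Or.inl ⟨hs.symm, fun i hi => (ha i hi).symm⟩
    · exact Or.inr ⟨l, hl.symm, by rw [hf, flip_flip]⟩
  mono m n y y' hmn hs := by
    rcases hs with ⟨hs, ha⟩ | hl
    · exact Or.inl ⟨hs.mono hmn, fun i hi => ha i (hmn.trans hi)⟩
    · exact Or.inr hl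
  conn y y' := by
    obtain ⟨n, hn1, hn⟩ := exists_near y.1.p y'.1.p
    obtain ⟨N, hN⟩ := exists_agree y.2 y'.2
    refine ⟨max n N, Chain.mono_n (r := SY (max n N)) (n := 1)
      (fun x => Or.inl ⟨Near.refl _ _, fun _ _ => rfl⟩) (by omega) ?_⟩
    exact ⟨y, rfl, Or.inl ⟨hn.mono (le_max_left _ _), fun i hi => hN i (by omega)⟩⟩

theorem jump_unique_X {x : XPt} : ∃ s : Finset XPt, s.card ≤ 1 ∧
    ∀ y : XPt, (∃ l, Jump l x.p y.p) → y ∈ s := by
  classical
  by_cases hx : ∃ y : XPt, ∃ l, Jump l x.p y.p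
  · obtain ⟨y, l, hl⟩ := hx
    refine ⟨{y}, by simp, ?_⟩
    rintro y' ⟨l', hl'⟩
    rw [Finset.mem_singleton]
    exact XPt.ext' (Jump_unique hl' hl).2
  · refine ⟨∅, by simp, ?_⟩
    intro y hy
    exact absurd ⟨y, hy⟩ hx

theorem cX_bound (n : ℕ) : ∃ K : ℕ, ∀ x, ∃ s : Finset XPt, s.card ≤ K ∧
    ∀ y, cX.S n x y → y ∈ s := by
  classical
  refine ⟨(2 * L n + 1).toNat ^ 2 + 1, fun x => ?_⟩
  obtain ⟨s, hs, hs'⟩ := jump_unique_X (x := x)
  refine ⟨nearX n x ∪ s, (Finset.card_union_le _ _).trans (add_le_add (card_nearX n x) hs), ?_⟩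
  intro y hy
  rcases hy with hy | hy
  · exact Finset.mem_union_left _ (mem_nearX hy)
  · exact Finset.mem_union_right _ (hs' y hy)

theorem cY_bound (n : ℕ) : ∃ K : ℕ, ∀ y, ∃ s : Finset (XPt × Bits), s.card ≤ K ∧
    ∀ y', cY.S n y y' → y' ∈ s := by
  classical
  refine ⟨(2 * L n + 1).toNat ^ 2 * 4 ^ n + 1, fun y => ?_⟩
  obtain ⟨s, hs, hs'⟩ : ∃ s : Finset (XPt × Bits), s.card ≤ 1 ∧
      ∀ y' : XPt × Bits, (∃ l, Jump l y.1.p y'.1.p ∧ y'.2 = flip l y.2) → y' ∈ s := by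
    by_cases hx : ∃ y' : XPt × Bits, ∃ l, Jump l y.1.p y'.1.p ∧ y'.2 = flip l y.2
    · obtain ⟨y', l, hl, hf⟩ := hx
      refine ⟨{y'}, by simp, ?_⟩
      rintro y'' ⟨l', hl', hf'⟩
      rw [Finset.mem_singleton]
      obtain ⟨h1, h2⟩ := Jump_unique hl' hl
      subst h1
      exact Prod.ext (XPt.ext' h2) (by rw [hf, hf'])
    · refine ⟨∅, by simp, ?_⟩
      intro y' hy'
      exact absurd ⟨y', hy'⟩ hx
  refine ⟨(nearX n y.1 ×ˢ nbr n y.2) ∪ s, (Finset.card_union_le _ _).trans (add_le_add ?_ hs), ?_⟩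
  · rw [Finset.card_product]
    exact Nat.mul_le_mul (card_nearX n y.1) (card_nbr n y.2)
  · intro y' hy'
    rcases hy' with ⟨hy', ha⟩ | hy'
    · exact Finset.mem_union_left _ (Finset.mem_product.2 ⟨mem_nearX hy', mem_nbr.2 ha⟩)
    · exact Finset.mem_union_right _ (hs' y' hy')

end Pool.Agent.Roe
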