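import Pool.Agent.Lib_MP_270856_an.UpperY2

set_option autoImplicit false

namespace Pool.Agent.Roe

open Complex

/-- the space containing the three-sphere -/
abbrev Q := EuclideanSpace ℂ (Fin 2)

/-- build a vector from three reals -/
noncomputable def mkQ (a b c : ℝ) : Q := !₂[(a : ℂ), (b : ℂ) + (c : ℂ) * I]

theorem mkQ_norm_sq (a b c : ℝ) : ‖mkQ a b c‖ ^ 2 = a ^ 2 + b ^ 2 + c ^ 2 := by
  rw [EuclideanSpace.norm_sq_eq, Fin.sum_univ_two]
  have h1 : ‖(mkQ a b c) 0‖ ^ 2 = a ^ 2 := by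
    simp [mkQ]
  have h2 : ‖(mkQ a b c) 1‖ ^ 2 = b ^ 2 + c ^ 2 := by
    have : (mkQ a b c) 1 = (b : ℂ) + (c : ℂ) * I := by simp [mkQ]
    rw [this, Complex.sq_norm, Complex.normSq_add_mul_I]
  rw [h1, h2]; ring

theorem mkQ_neg (a b c : ℝ) : mkQ (-a) (-b) (-c) = - mkQ a b c := by
  ext i
  fin_cases i <;> simp [mkQ] <;> ring

theorem mkQ_sub (a b c a' b' c' : ℝ) :
    mkQ a b c - mkQ a' b' c' = mkQ (a - a') (b - b') (c - c') := by
  ext i
  fin_cases i <;> simp [mkQ] <;> ring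

theorem mkQ_smul (r a b c : ℝ) : r • mkQ a b c = mkQ (r * a) (r * b) (r * c) := by
  ext i
  fin_cases i <;> simp [mkQ] <;> ring

theorem mkQ_norm_le (a b c : ℝ) : ‖mkQ a b c‖ ≤ |a| + |b| + |c| := by
  have h1 := mkQ_norm_sq a b c
  have h2 := abs_nonneg a
  have h3 := abs_nonneg b
  have h4 := abs_nonneg c
  have h5 : a ^ 2 = |a| ^ 2 := (sq_abs a).symm
  have h6 : b ^ 2 = |b| ^ 2 := (sq_abs b).symm
  have h7 : c ^ 2 = |c| ^ 2 := (sq_abs c).symm
  refine (le_abs_self _).trans (abs_le_of_sq_le_sq ?_ (by positivity))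
  rw [h1, h5, h6, h7]
  nlinarith [mul_nonneg h2 h3, mul_nonneg h2 h4, mul_nonneg h3 h4]

theorem le_mkQ_norm {m a b c : ℝ} (hm : m ^ 2 ≤ a ^ 2 + b ^ 2 + c ^ 2) : m ≤ ‖mkQ a b c‖ := by
  rw [← mkQ_norm_sq] at hm
  exact (le_abs_self _).trans (abs_le_of_sq_le_sq hm (norm_nonneg _))

theorem normalize_lip {V : Type} [NormedAddCommGroup V] [NormedSpace ℝ V] (a b : V) {m : ℝ}
    (hm : 0 < m) (ha : m ≤ ‖a‖) (hb : m ≤ ‖b‖) :
    ‖‖a‖⁻¹ • a - ‖b‖⁻¹ • b‖ ≤ 2 * ‖a - b‖ / m := by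
  have ha0 : 0 < ‖a‖ := lt_of_lt_of_le hm ha
  have hb0 : 0 < ‖b‖ := lt_of_lt_of_le hm hb
  have e1 : ‖a‖⁻¹ • a - ‖b‖⁻¹ • b = ‖a‖⁻¹ • (a - b) + (‖a‖⁻¹ - ‖b‖⁻¹) • b := by
    rw [smul_sub, sub_smul]; abel
  rw [e1]
  refine (norm_add_le _ _).trans ?_
  rw [norm_smul, norm_smul, norm_inv, norm_norm]
  have e2 : ‖‖a‖⁻¹ - ‖b‖⁻¹‖ * ‖b‖ = |‖b‖ - ‖a‖| / ‖a‖ := by
    rw [Real.norm_eq_abs]
    have : ‖a‖⁻¹ - ‖b‖⁻¹ = (‖b‖ - ‖a‖) / (‖a‖ * ‖b‖) := by
      field_simp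
    rw [this, abs_div, abs_of_pos (mul_pos ha0 hb0)]
    field_simp
  rw [e2]
  have e3 : |‖b‖ - ‖a‖| ≤ ‖a - b‖ := by
    rw [abs_sub_comm]; exact abs_norm_sub_norm_le a b
  have e4 : |‖b‖ - ‖a‖| / ‖a‖ ≤ ‖a - b‖ / m :=
    div_le_div₀ (norm_nonneg _) e3 hm ha
  have e5 : ‖a‖⁻¹ * ‖a - b‖ ≤ ‖a - b‖ / m := by
    rw [inv_mul_eq_div]
    exact div_le_div_of_nonneg_left (norm_nonneg _) hm ha
  calc ‖a‖⁻¹ * ‖a - b‖ + |‖b‖ - ‖a‖| / ‖a‖ ≤ ‖a - b‖ / m + ‖a - b‖ / m := add_le_add e5 e4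
    _ = 2 * ‖a - b‖ / m := by ring

/-- auxiliary cut-off -/
def zz (i : ℕ) (x : Pt) : ℤ := max (2 * h i - TT i x) 0

/-- the vector before normalization -/
noncomputable def qq (i : ℕ) (x : Pt) : Q :=
  mkQ (((TT i x - h i) * h i : ℤ) : ℝ) ((zz i x * vv i x.1 : ℤ) : ℝ) ((zz i x * vv i x.2 : ℤ) : ℝ)

/-- the normalized vector -/
noncomputable def uu (i : ℕ) (x : Pt) : Q := ‖qq i x‖⁻¹ • qq i x

/-- the base vector -/
noncomputable def oneQ : Q := mkQ 1 0 0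

theorem oneQ_norm : ‖oneQ‖ = 1 := by
  have := mkQ_norm_sq 1 0 0
  have h0 : ‖mkQ 1 0 0‖ ^ 2 = 1 := by rw [this]; norm_num
  have h1 := norm_nonneg (mkQ 1 0 0)
  show ‖mkQ 1 0 0‖ = 1
  nlinarith

theorem qq_norm_ge {i : ℕ} {x : Pt} (hP : P x) : ((h i : ℤ) : ℝ) ^ 2 / 2 ≤ ‖qq i x‖ := by
  have t1 := TT_ge (j := i) hP
  have hp := h_pos i
  apply le_mkQ_norm
  have key : (h i ^ 2) ^ 2 ≤ 4 * (((TT i x - h i) * h i) ^ 2 + (zz i x * vv i x.1) ^ 2 +
      (zz i x * vv i x.2) ^ 2) := by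
    by_cases hc : 3 * h i ≤ 2 * TT i x
    · have : (h i ^ 2) ^ 2 ≤ 4 * ((TT i x - h i) * h i) ^ 2 := by
        have e1 : 0 ≤ h i ^ 2 := by positivity
        have e2 : h i ^ 2 ≤ 2 * ((TT i x - h i) * h i) := by nlinarith
        calc (h i ^ 2) ^ 2 ≤ (2 * ((TT i x - h i) * h i)) ^ 2 := pow_le_pow_left₀ e1 e2 2
          _ = _ := by ring
      nlinarith [sq_nonneg (zz i x * vv i x.1), sq_nonneg (zz i x * vv i x.2)]
    · push Not at hc
      have z1 : h i ≤ 2 * zz i x := by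
        have : 2 * h i - TT i x ≤ zz i x := le_max_left _ _
        linarith
      have q3 : TT i x ^ 2 ≤ vv i x.1 ^ 2 + vv i x.2 ^ 2 := by
        rcases max_choice |vv i x.1| |vv i x.2| with hc | hc
        · have : TT i x = |vv i x.1| := hc
          rw [this, sq_abs]; nlinarith [sq_nonneg (vv i x.2)]
        · have : TT i x = |vv i x.2| := hc
          rw [this, sq_abs]; nlinarith [sq_nonneg (vv i x.1)]
      have q2 : h i ^ 2 ≤ vv i x.1 ^ 2 + vv i x.2 ^ 2 := by nlinarith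
      have q4 : h i ^ 2 ≤ (2 * zz i x) ^ 2 := pow_le_pow_left₀ hp.le z1 2
      have q5 : h i ^ 2 * h i ^ 2 ≤ (2 * zz i x) ^ 2 * (vv i x.1 ^ 2 + vv i x.2 ^ 2) :=
        mul_le_mul q4 q2 (by positivity) (by positivity)
      nlinarith [sq_nonneg ((TT i x - h i) * h i)]
  have key' : (((h i ^ 2) ^ 2 : ℤ) : ℝ) ≤ ((4 * (((TT i x - h i) * h i) ^ 2 +
      (zz i x * vv i x.1) ^ 2 + (zz i x * vv i x.2) ^ 2) : ℤ) : ℝ) := by exact_mod_cast key
  push_cast at key' ⊢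
  nlinarith

theorem h_cast_pos (i : ℕ) : (0 : ℝ) < ((h i : ℤ) : ℝ) := by exact_mod_cast h_pos i

theorem qq_pos {i : ℕ} {x : Pt} (hP : P x) : 0 < ‖qq i x‖ :=
  lt_of_lt_of_le (by have := h_cast_pos i; positivity) (qq_norm_ge hP)

theorem uu_norm {i : ℕ} {x : Pt} (hP : P x) : ‖uu i x‖ = 1 := by
  have := qq_pos (i := i) hP
  unfold uu
  rw [norm_smul, norm_inv, norm_norm]
  field_simp

theorem uu_far {i : ℕ} {x : Pt} (hx : 2 * h i ≤ TT i x) : uu i x = oneQ := by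
  have hp := h_pos i
  have z0 : zz i x = 0 := max_eq_right (by linarith)
  have q0 : qq i x = mkQ (((TT i x - h i) * h i : ℤ) : ℝ) 0 0 := by
    unfold qq; rw [z0]; simp
  have hpos : (0 : ℝ) < (((TT i x - h i) * h i : ℤ) : ℝ) := by
    have : 0 < (TT i x - h i) * h i := mul_pos (by linarith) hp
    exact_mod_cast this
  set w : ℝ := (((TT i x - h i) * h i : ℤ) : ℝ) with hw
  have n0 : ‖mkQ w 0 0‖ = w := by
    have h1 := mkQ_norm_sq w 0 0
    have h2 := norm_nonneg (mkQ w 0 0)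
    have h3 : ‖mkQ w 0 0‖ ^ 2 = w ^ 2 := by rw [h1]; ring
    exact (pow_left_inj₀ h2 hpos.le (by norm_num)).1 h3
  unfold uu
  rw [q0, n0, mkQ_smul]
  unfold oneQ
  rw [inv_mul_cancel₀ hpos.ne', mul_zero]

theorem uu_near {i : ℕ} {x x' : Pt} (hP : P x) (hP' : P x') (hn : Near i x x') :
    ‖uu i x - uu i x'‖ ≤ 72 / 16 ^ (i + 1) := by
  have hd := L_pos i
  have hH := h_pos i
  have hLh := L_le_h i
  have hnn : (0 : ℝ) ≤ 72 / 16 ^ (i + 1) := by positivity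
  have far : (3 * h i - 2 * L i ≤ TT i x ∧ 3 * h i - 2 * L i ≤ TT i x') →
      ‖uu i x - uu i x'‖ ≤ 72 / 16 ^ (i + 1) := by
    rintro ⟨f1, f2⟩
    rw [uu_far (by linarith), uu_far (by linarith), sub_self, norm_zero]
    exact hnn
  have farL : ∀ v v' : ℤ, (3 * h i - 2 * L i ≤ v ∧ v' ≤ -(3 * h i - 2 * L i)) →
      3 * h i - 2 * L i ≤ |v| ∧ 3 * h i - 2 * L i ≤ |v'| := fun v v' hv =>
    ⟨hv.1.trans (le_abs_self v), by have := neg_le_abs v'; linarith [hv.2]⟩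
  rcases near_coord (j := i) hn.1 with ⟨c1, d1⟩ | ⟨_, c2, c3⟩ | ⟨_, c2, c3⟩
  · rcases near_coord (j := i) hn.2 with ⟨c2, d2⟩ | ⟨_, c4, c5⟩ | ⟨_, c4, c5⟩
    · have T1 := TT_lip d1 d2
      have t1 := TT_ge (j := i) hP
      have t2 := TT_ge (j := i) hP'
      -- the difference of the vectors
      have w1 : |(TT i x - h i) * h i - (TT i x' - h i) * h i| ≤ 2 * L i * h i := by
        have : (TT i x - h i) * h i - (TT i x' - h i) * h i = (TT i x - TT i x') * h i := by ring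
        rw [this]
        exact abs_mul_le_of T1 (by rw [abs_of_pos hH])
      have Z1 : |zz i x - zz i x'| ≤ 2 * L i := by
        unfold zz
        refine (abs_max_sub_max_le_max _ _ _ _).trans (max_le ?_ ?_)
        · have : 2 * h i - TT i x - (2 * h i - TT i x') = -(TT i x - TT i x') := by ring
          rw [this, abs_neg]; exact T1
        · simp; linarith
      have Z2 : |zz i x'| ≤ h i := by
        unfold zz
        rw [abs_le]
        constructor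
        · have : (0 : ℤ) ≤ max (2 * h i - TT i x') 0 := le_max_right _ _
          linarith
        · exact max_le (by linarith) hH.le
      have gen : ∀ v v' : ℤ, |v| ≤ 3 * h i → |v - v'| ≤ 2 * L i →
          |zz i x * v - zz i x' * v'| ≤ 8 * (L i * h i) := by
        intro v v' hv hvv
        have e1 : zz i x * v - zz i x' * v' = (zz i x - zz i x') * v + zz i x' * (v - v') := by
          ring
        rw [e1]
        refine (abs_add_le _ _).trans ?_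
        have a1 := abs_mul_le_of Z1 hv
        have a2 := abs_mul_le_of Z2 hvv
        nlinarith
      have w2 := gen _ _ (vv_abs i x.1) d1
      have w3 := gen _ _ (vv_abs i x.2) d2
      have hq : ‖qq i x - qq i x'‖ ≤ 18 * (((L i : ℤ) : ℝ) * ((h i : ℤ) : ℝ)) := by
        unfold qq
        rw [mkQ_sub]
        refine (mkQ_norm_le _ _ _).trans ?_
        have w1' : |(((TT i x - h i) * h i : ℤ) : ℝ) - (((TT i x' - h i) * h i : ℤ) : ℝ)| ≤
            ((2 * L i * h i : ℤ) : ℝ) := by exact_mod_cast w1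
        have w2' : |((zz i x * vv i x.1 : ℤ) : ℝ) - ((zz i x' * vv i x'.1 : ℤ) : ℝ)| ≤
            ((8 * (L i * h i) : ℤ) : ℝ) := by exact_mod_cast w2
        have w3' : |((zz i x * vv i x.2 : ℤ) : ℝ) - ((zz i x' * vv i x'.2 : ℤ) : ℝ)| ≤
            ((8 * (L i * h i) : ℤ) : ℝ) := by exact_mod_cast w3
        push_cast at w1' w2' w3' ⊢
        linarith
      have hm : (0 : ℝ) < ((h i : ℤ) : ℝ) ^ 2 / 2 := by have := h_cast_pos i; positivity
      have hfin := normalize_lip (qq i x) (qq i x') hm (qq_norm_ge hP) (qq_norm_ge hP')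
      refine hfin.trans ?_
      have hk : ((h i : ℤ) : ℝ) = 16 ^ (i + 1) * ((L i : ℤ) : ℝ) := by
        have : h i = 16 ^ (i + 1) * L i := rfl
        rw [this]; push_cast; ring
      have hLp : (0 : ℝ) < ((L i : ℤ) : ℝ) := by exact_mod_cast hd
      have hhp := h_cast_pos i
      rw [div_le_div_iff₀ hm (by positivity)]
      have e2 : 72 * (((h i : ℤ) : ℝ) ^ 2 / 2) =
          36 * ((((L i : ℤ) : ℝ) * ((h i : ℤ) : ℝ)) * 16 ^ (i + 1)) := by
        rw [sq]; nth_rewrite 1 [hk]; ring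
      rw [e2]
      have e3 : 2 * ‖qq i x - qq i x'‖ * 16 ^ (i + 1) ≤
          2 * (18 * (((L i : ℤ) : ℝ) * ((h i : ℤ) : ℝ))) * 16 ^ (i + 1) := by
        apply mul_le_mul_of_nonneg_right _ (by positivity)
        linarith
      refine e3.trans (le_of_eq ?_)
      ring
    · obtain ⟨f1, f2⟩ := farL _ _ ⟨c4, c5⟩
      exact far ⟨f1.trans (le_TT2 i x), f2.trans (le_TT2 i x')⟩
    · obtain ⟨f1, f2⟩ := farL _ _ ⟨c4, c5⟩
      exact far ⟨f2.trans (le_TT2 i x), f1.trans (le_TT2 i x')⟩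
  · obtain ⟨f1, f2⟩ := farL _ _ ⟨c2, c3⟩
    exact far ⟨f1.trans (le_TT1 i x), f2.trans (le_TT1 i x')⟩
  · obtain ⟨f1, f2⟩ := farL _ _ ⟨c2, c3⟩
    exact far ⟨f2.trans (le_TT1 i x), f1.trans (le_TT1 i x')⟩

theorem uu_jump_self {i : ℕ} {x x' : Pt} (hj : Jump i x x') : uu i x' = - uu i x := by
  obtain ⟨A, B, hx, rfl⟩ := hj
  obtain ⟨c1, c2⟩ := CH_cell hx.1
  obtain ⟨c3, c4⟩ := CH_cell (rho_Bd hx).1
  have T1 := Bd_TT hx
  have T2 := Bd_TT (rho_Bd hx)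
  have v1 : vv i (rho i A B x).1 = - vv i x.1 := by
    unfold vv; rw [c1, c3]; unfold rho; simp only; ring
  have v2 : vv i (rho i A B x).2 = - vv i x.2 := by
    unfold vv; rw [c2, c4]; unfold rho; simp only; ring
  have q : qq i (rho i A B x) = - qq i x := by
    unfold qq zz
    rw [T1, T2, v1, v2, ← mkQ_neg]
    congr 1 <;> push_cast <;> ring
  unfold uu
  rw [q, norm_neg, smul_neg]

theorem uu_jump_far {i l : ℕ} (hil : i < l) {x x' : Pt} (hj : Jump l x x') :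
    uu i x = oneQ ∧ uu i x' = oneQ := by
  have hp := h_pos i
  have key : ∀ (A B : ℤ) (y : Pt), Bd l A B y → uu i y = oneQ := by
    intro A B y hy
    apply uu_far
    have hd : L (i + 1) ∣ L l := L_dvd hil
    rw [TT_far ((Bd_grid hy).imp hd.trans hd.trans)]
    linarith
  obtain ⟨A, B, hx, rfl⟩ := hj
  exact ⟨key A B _ hx, key A B _ (rho_Bd hx)⟩

theorem uu_eventually (x : Pt) : ∃ N, ∀ i, N ≤ i → uu i x = oneQ := by
  obtain ⟨N, hN⟩ := exists_L_ge (2 * |x.1|)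
  refine ⟨N, fun i hi => uu_far ?_⟩
  have h1 : 2 * |x.1| ≤ h i := by
    have := L_mono hi
    have := L_le_h i
    have := L_pos i
    linarith
  have hp := h_pos i
  have hL := L_succ i
  refine le_trans ?_ (le_TT1 i x)
  rcases le_or_gt 0 x.1 with h0 | h0
  · rw [abs_of_nonneg h0] at h1
    have c1 : cellI i x.1 = 0 := cellI_unique (by linarith) (by linarith)
    have : vv i x.1 = 2 * x.1 - 3 * h i := by unfold vv; rw [c1, hL]; ring
    rw [this]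
    have := neg_le_abs (2 * x.1 - 3 * h i)
    linarith
  · rw [abs_of_neg h0] at h1
    have c1 : cellI i x.1 = -1 := cellI_unique (by linarith) (by linarith)
    have : vv i x.1 = 2 * x.1 + 3 * h i := by unfold vv; rw [c1, hL]; ring
    rw [this]
    have := le_abs_self (2 * x.1 + 3 * h i)
    linarith

end Pool.Agent.Roe
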