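import Pool.Agent.Lib_MP_270856_an.Spaces

set_option autoImplicit false

namespace Pool.Agent.Roe

/-- cell index of a coordinate at level `j + 1` -/
def cellI (j : ℕ) (x : ℤ) : ℤ := x / L (j + 1)

/-- doubled coordinate relative to the center of the cell -/
def vv (j : ℕ) (x : ℤ) : ℤ := 2 * x - (2 * cellI j x + 1) * L (j + 1)

theorem cellI_le (j : ℕ) (x : ℤ) : cellI j x * L (j + 1) ≤ x :=
  Int.ediv_mul_le x (L_pos (j + 1)).ne'

theorem lt_cellI (j : ℕ) (x : ℤ) : x < cellI j x * L (j + 1) + L (j + 1) := by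
  have := Int.lt_ediv_add_one_mul_self x (L_pos (j + 1))
  unfold cellI
  linarith

theorem cellI_unique {j : ℕ} {x a : ℤ} (h1 : a * L (j + 1) ≤ x)
    (h2 : x < a * L (j + 1) + L (j + 1)) : cellI j x = a := by
  have h3 := cellI_le j x
  have h4 := lt_cellI j x
  exact le_antisymm (cell_le (L_pos (j + 1)) (by linarith)) (cell_le (L_pos (j + 1)) (by linarith))

theorem vv_bounds (j : ℕ) (x : ℤ) : -(3 * h j) ≤ vv j x ∧ vv j x < 3 * h j := by
  have h3 := cellI_le j x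
  have h4 := lt_cellI j x
  have h5 := L_succ j
  unfold vv
  constructor <;> linarith

theorem vv_abs (j : ℕ) (x : ℤ) : |vv j x| ≤ 3 * h j := by
  have := vv_bounds j x
  rw [abs_le]
  constructor <;> linarith

/-- sup norm of the relative position -/
def TT (j : ℕ) (x : Pt) : ℤ := max |vv j x.1| |vv j x.2|

theorem TT_le (j : ℕ) (x : Pt) : TT j x ≤ 3 * h j := max_le (vv_abs j x.1) (vv_abs j x.2)

theorem le_TT1 (j : ℕ) (x : Pt) : |vv j x.1| ≤ TT j x := le_max_left _ _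
theorem le_TT2 (j : ℕ) (x : Pt) : |vv j x.2| ≤ TT j x := le_max_right _ _

theorem OH_of_small {j : ℕ} {x : ℤ} (hv : |vv j x| < h j) :
    cellI j x * L (j + 1) + h j < x ∧ x < cellI j x * L (j + 1) + 2 * h j := by
  rw [abs_lt] at hv
  unfold vv at hv
  have h5 := L_succ j
  constructor <;> linarith

theorem TT_ge {j : ℕ} {x : Pt} (hP : P x) : h j ≤ TT j x := by
  by_contra hcon
  push Not at hcon
  have h1 : |vv j x.1| < h j := lt_of_le_of_lt (le_TT1 j x) hcon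
  have h2 : |vv j x.2| < h j := lt_of_le_of_lt (le_TT2 j x) hcon
  exact hP j _ _ ⟨OH_of_small h1, OH_of_small h2⟩

/-- first coordinate of the twisted vector -/
def FA (j : ℕ) (x : Pt) (e : ℤ) : ℤ :=
  (TT j x - h j) * vv j x.1 - e * (3 * h j - TT j x) * vv j x.2

/-- second coordinate of the twisted vector -/
def FB (j : ℕ) (x : Pt) (e : ℤ) : ℤ :=
  (TT j x - h j) * vv j x.2 + e * (3 * h j - TT j x) * vv j x.1

theorem near_coord {j : ℕ} {x x' : ℤ} (hx : |x - x'| ≤ L j) :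
    (cellI j x = cellI j x' ∧ |vv j x - vv j x'| ≤ 2 * L j) ∨
    (cellI j x' = cellI j x + 1 ∧ 3 * h j - 2 * L j ≤ vv j x ∧ vv j x' ≤ -(3 * h j - 2 * L j)) ∨
    (cellI j x = cellI j x' + 1 ∧ 3 * h j - 2 * L j ≤ vv j x' ∧ vv j x ≤ -(3 * h j - 2 * L j)) := by
  have h1 := cellI_le j x
  have h2 := lt_cellI j x
  have h3 := cellI_le j x'
  have h4 := lt_cellI j x'
  have h5 := L_succ j
  have h6 := L_le_h j
  have h7 := L_pos j
  have h8 := L_pos (j + 1)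
  rw [abs_le] at hx
  have e1 : cellI j x ≤ cellI j x' + 1 := cell_le h8 (by nlinarith)
  have e2 : cellI j x' ≤ cellI j x + 1 := cell_le h8 (by nlinarith)
  have e3 : cellI j x = cellI j x' ∨ cellI j x' = cellI j x + 1 ∨ cellI j x = cellI j x' + 1 := by
    omega
  rcases e3 with e3 | e3 | e3
  · left
    refine ⟨e3, ?_⟩
    unfold vv
    rw [e3, abs_le]
    constructor <;> linarith
  · right; left
    refine ⟨e3, ?_, ?_⟩
    · unfold vv
      rw [e3] at h3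
      nlinarith
    · unfold vv
      rw [e3] at h3 ⊢
      nlinarith
  · right; right
    refine ⟨e3, ?_, ?_⟩
    · unfold vv
      rw [e3] at h1
      nlinarith
    · unfold vv
      rw [e3] at h1 ⊢
      nlinarith

/-- closeness of one coordinate of the twisted vector -/
def Cl (j : ℕ) (η a F a' F' : ℤ) : Prop :=
  (a = a' ∧ |F - F'| ≤ η) ∨
  (a' = a + 1 ∧ 6 * h j ^ 2 - η ≤ F ∧ F' ≤ -(6 * h j ^ 2 - η)) ∨
  (a = a' + 1 ∧ 6 * h j ^ 2 - η ≤ F' ∧ F ≤ -(6 * h j ^ 2 - η))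

theorem abs_mul_le_of {a b A B : ℤ} (ha : |a| ≤ A) (hb : |b| ≤ B) : |a * b| ≤ A * B := by
  rw [abs_mul]
  exact mul_le_mul ha hb (abs_nonneg _) ((abs_nonneg _).trans ha)

/-- the algebraic Lipschitz estimate -/
theorem lip_aux {H d e t t' v v' w w' : ℤ} (he : |e| ≤ 1) (ht : |t - t'| ≤ 2 * d)
    (hH : 0 ≤ H) (hd : 0 ≤ d) (hv : |v - v'| ≤ 2 * d) (hw : |w - w'| ≤ 2 * d) (hv1 : |v| ≤ 3 * H)
    (hw1 : |w| ≤ 3 * H) (ht1 : H ≤ t' ∧ t' ≤ 3 * H) :
    |((t - H) * v - e * (3 * H - t) * w) - ((t' - H) * v' - e * (3 * H - t') * w')|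
      ≤ 20 * (d * H) := by
  have e1 : ((t - H) * v - e * (3 * H - t) * w) - ((t' - H) * v' - e * (3 * H - t') * w')
      = (t - t') * v + (t' - H) * (v - v') + (e * ((t - t') * w) +
        -(e * ((3 * H - t') * (w - w')))) := by ring
  rw [e1]
  have a1 := abs_mul_le_of ht hv1
  have a2 : |(t' - H) * (v - v')| ≤ (2 * H) * (2 * d) := by
    apply abs_mul_le_of _ hv
    rw [abs_le]; constructor <;> linarith [ht1.1, ht1.2]
  have a3 : |e * ((t - t') * w)| ≤ 1 * ((2 * d) * (3 * H)) :=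
    abs_mul_le_of he (abs_mul_le_of ht hw1)
  have a4 : |-(e * ((3 * H - t') * (w - w')))| ≤ 1 * ((2 * H) * (2 * d)) := by
    rw [abs_neg]
    refine abs_mul_le_of he (abs_mul_le_of ?_ hw)
    rw [abs_le]; constructor <;> linarith [ht1.1, ht1.2]
  have b1 := abs_add_le ((t - t') * v + (t' - H) * (v - v')) (e * ((t - t') * w) +
        -(e * ((3 * H - t') * (w - w'))))
  have b2 := abs_add_le ((t - t') * v) ((t' - H) * (v - v'))
  have b3 := abs_add_le (e * ((t - t') * w)) (-(e * ((3 * H - t') * (w - w'))))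
  nlinarith

theorem approx_aux {H d e t v w : ℤ} (he : |e| ≤ 1) (ht : 3 * H - 2 * d ≤ t ∧ t ≤ 3 * H)
    (hd : 0 ≤ d) (hv1 : |v| ≤ 3 * H) (hw1 : |w| ≤ 3 * H) :
    |((t - H) * v - e * (3 * H - t) * w) - 2 * H * v| ≤ 12 * (d * H) := by
  have e1 : ((t - H) * v - e * (3 * H - t) * w) - 2 * H * v
      = (t - 3 * H) * v + -(e * ((3 * H - t) * w)) := by ring
  rw [e1]
  have a1 : |(t - 3 * H) * v| ≤ (2 * d) * (3 * H) := by
    apply abs_mul_le_of _ hv1
    rw [abs_le]; constructor <;> linarith [ht.1, ht.2]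
  have a2 : |-(e * ((3 * H - t) * w))| ≤ 1 * ((2 * d) * (3 * H)) := by
    rw [abs_neg]
    refine abs_mul_le_of he (abs_mul_le_of ?_ hw1)
    rw [abs_le]; constructor <;> linarith [ht.1, ht.2]
  have b1 := abs_add_le ((t - 3 * H) * v) (-(e * ((3 * H - t) * w)))
  nlinarith

theorem F_bound_aux {H e t v w : ℤ} (he : |e| ≤ 1) (ht : H ≤ t ∧ t ≤ 3 * H)
    (hv1 : |v| ≤ 3 * H) (hw1 : |w| ≤ 3 * H) :
    |((t - H) * v - e * (3 * H - t) * w)| ≤ 6 * H ^ 2 := by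
  have a1 : |(t - H) * v| ≤ (t - H) * (3 * H) := by
    apply abs_mul_le_of _ hv1
    rw [abs_le]; constructor <;> linarith [ht.1, ht.2]
  have a2 : |-(e * ((3 * H - t) * w))| ≤ 1 * ((3 * H - t) * (3 * H)) := by
    rw [abs_neg]
    refine abs_mul_le_of he (abs_mul_le_of ?_ hw1)
    rw [abs_le]; constructor <;> linarith [ht.1, ht.2]
  have e1 : ((t - H) * v - e * (3 * H - t) * w)
      = (t - H) * v + -(e * ((3 * H - t) * w)) := by ring
  rw [e1]
  have b1 := abs_add_le ((t - H) * v) (-(e * ((3 * H - t) * w)))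
  nlinarith

theorem FA_bound {j : ℕ} {x : Pt} (hP : P x) {e : ℤ} (he : |e| ≤ 1) : |FA j x e| ≤ 6 * h j ^ 2 :=
  F_bound_aux he ⟨TT_ge hP, TT_le j x⟩ (vv_abs j _) (vv_abs j _)

theorem FB_eq (j : ℕ) (x : Pt) (e : ℤ) :
    FB j x e = (TT j x - h j) * vv j x.2 - (-e) * (3 * h j - TT j x) * vv j x.1 := by
  unfold FB; ring

theorem FB_bound {j : ℕ} {x : Pt} (hP : P x) {e : ℤ} (he : |e| ≤ 1) :
    |FB j x e| ≤ 6 * h j ^ 2 := by
  rw [FB_eq]
  exact F_bound_aux (by rwa [abs_neg]) ⟨TT_ge hP, TT_le j x⟩ (vv_abs j _) (vv_abs j _)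

theorem TT_lip {j : ℕ} {x x' : Pt} {D : ℤ} (h1 : |vv j x.1 - vv j x'.1| ≤ D)
    (h2 : |vv j x.2 - vv j x'.2| ≤ D) : |TT j x - TT j x'| ≤ D := by
  unfold TT
  refine (abs_max_sub_max_le_max _ _ _ _).trans (max_le ?_ ?_)
  · exact (abs_abs_sub_abs_le _ _).trans h1
  · exact (abs_abs_sub_abs_le _ _).trans h2

theorem Cl_near {j : ℕ} {x x' : Pt} (hP : P x) (hP' : P x') (hn : Near j x x') {e : ℤ}
    (he : |e| ≤ 1) :
    Cl j (28 * (L j * h j)) (cellI j x.1) (FA j x e) (cellI j x'.1) (FA j x' e) ∧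
    Cl j (28 * (L j * h j)) (cellI j x.2) (FB j x e) (cellI j x'.2) (FB j x' e) := by
  have hd := (L_pos j).le
  have hH := (h_pos j).le
  have hdH : 0 ≤ L j * h j := mul_nonneg hd hH
  have t1 := TT_ge (j := j) hP
  have t2 := TT_ge (j := j) hP'
  have t3 := TT_le j x
  have t4 := TT_le j x'
  have n1 := near_coord (j := j) hn.1
  have n2 := near_coord (j := j) hn.2
  have he' : |-e| ≤ 1 := by rwa [abs_neg]
  have far : (3 * h j - 2 * L j ≤ TT j x ∧ 3 * h j - 2 * L j ≤ TT j x') →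
      Cl j (28 * (L j * h j)) (cellI j x.1) (FA j x e) (cellI j x'.1) (FA j x' e) ∧
      Cl j (28 * (L j * h j)) (cellI j x.2) (FB j x e) (cellI j x'.2) (FB j x' e) := by
    rintro ⟨f1, f2⟩
    have A1 : |FA j x e - 2 * h j * vv j x.1| ≤ 12 * (L j * h j) :=
      approx_aux he ⟨f1, t3⟩ hd (vv_abs j _) (vv_abs j _)
    have A2 : |FA j x' e - 2 * h j * vv j x'.1| ≤ 12 * (L j * h j) :=
      approx_aux he ⟨f2, t4⟩ hd (vv_abs j _) (vv_abs j _)
    have B1 : |FB j x e - 2 * h j * vv j x.2| ≤ 12 * (L j * h j) := by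
      rw [FB_eq]
      exact approx_aux he' ⟨f1, t3⟩ hd (vv_abs j _) (vv_abs j _)
    have B2 : |FB j x' e - 2 * h j * vv j x'.2| ≤ 12 * (L j * h j) := by
      rw [FB_eq]
      exact approx_aux he' ⟨f2, t4⟩ hd (vv_abs j _) (vv_abs j _)
    have gen : ∀ (a v F a' v' F' : ℤ), |F - 2 * h j * v| ≤ 12 * (L j * h j) →
        |F' - 2 * h j * v'| ≤ 12 * (L j * h j) →
        ((a = a' ∧ |v - v'| ≤ 2 * L j) ∨
        (a' = a + 1 ∧ 3 * h j - 2 * L j ≤ v ∧ v' ≤ -(3 * h j - 2 * L j)) ∨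
        (a = a' + 1 ∧ 3 * h j - 2 * L j ≤ v' ∧ v ≤ -(3 * h j - 2 * L j))) →
        Cl j (28 * (L j * h j)) a F a' F' := by
      intro a v F a' v' F' g1 g2 g3
      rw [abs_le] at g1 g2
      rcases g3 with ⟨g3, g4⟩ | ⟨g3, g4, g5⟩ | ⟨g3, g4, g5⟩
      · left
        refine ⟨g3, ?_⟩
        rw [abs_le] at g4 ⊢
        have m1 : h j * (v - v') ≤ h j * (2 * L j) := mul_le_mul_of_nonneg_left g4.2 hH
        have m2 : h j * (-(2 * L j)) ≤ h j * (v - v') := mul_le_mul_of_nonneg_left g4.1 hH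
        constructor <;> nlinarith
      · right; left
        have m1 : h j * (3 * h j - 2 * L j) ≤ h j * v := mul_le_mul_of_nonneg_left g4 hH
        have m2 : h j * v' ≤ h j * (-(3 * h j - 2 * L j)) := mul_le_mul_of_nonneg_left g5 hH
        refine ⟨g3, ?_, ?_⟩ <;> nlinarith
      · right; right
        have m1 : h j * (3 * h j - 2 * L j) ≤ h j * v' := mul_le_mul_of_nonneg_left g4 hH
        have m2 : h j * v ≤ h j * (-(3 * h j - 2 * L j)) := mul_le_mul_of_nonneg_left g5 hH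
        refine ⟨g3, ?_, ?_⟩ <;> nlinarith
    exact ⟨gen _ _ _ _ _ _ A1 A2 n1, gen _ _ _ _ _ _ B1 B2 n2⟩
  have farL : ∀ v v' : ℤ, (3 * h j - 2 * L j ≤ v ∧ v' ≤ -(3 * h j - 2 * L j)) →
      3 * h j - 2 * L j ≤ |v| ∧ 3 * h j - 2 * L j ≤ |v'| := fun v v' hv =>
    ⟨hv.1.trans (le_abs_self v), by have := neg_le_abs v'; linarith [hv.2]⟩
  rcases n1 with ⟨c1, d1⟩ | ⟨_, c2, c3⟩ | ⟨_, c2, c3⟩
  · rcases n2 with ⟨c2, d2⟩ | ⟨_, c4, c5⟩ | ⟨_, c4, c5⟩
    · have T1 := TT_lip d1 d2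
      constructor
      · left
        refine ⟨c1, ?_⟩
        refine (lip_aux he T1 hH hd d1 d2 (vv_abs j _) (vv_abs j _) ⟨t2, t4⟩).trans ?_
        linarith
      · left
        refine ⟨c2, ?_⟩
        rw [FB_eq, FB_eq]
        refine (lip_aux he' T1 hH hd d2 d1 (vv_abs j _) (vv_abs j _) ⟨t2, t4⟩).trans ?_
        linarith
    · obtain ⟨f1, f2⟩ := farL _ _ ⟨c4, c5⟩
      exact far ⟨f1.trans (le_TT2 j x), f2.trans (le_TT2 j x')⟩
    · obtain ⟨f1, f2⟩ := farL _ _ ⟨c4, c5⟩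
      exact far ⟨f2.trans (le_TT2 j x), f1.trans (le_TT2 j x')⟩
  · obtain ⟨f1, f2⟩ := farL _ _ ⟨c2, c3⟩
    exact far ⟨f1.trans (le_TT1 j x), f2.trans (le_TT1 j x')⟩
  · obtain ⟨f1, f2⟩ := farL _ _ ⟨c2, c3⟩
    exact far ⟨f2.trans (le_TT1 j x), f1.trans (le_TT1 j x')⟩

theorem CH_cell {j : ℕ} {A B : ℤ} {x : Pt} (hx : CH j A B x) :
    cellI j x.1 = A ∧ cellI j x.2 = B := by
  obtain ⟨⟨h1, h2⟩, h3, h4⟩ := hx
  have hp := h_pos j
  have hL := L_succ j
  exact ⟨cellI_unique (by linarith) (by linarith), cellI_unique (by linarith) (by linarith)⟩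

theorem Bd_TT {j : ℕ} {A B : ℤ} {x : Pt} (hx : Bd j A B x) : TT j x = h j := by
  obtain ⟨c1, c2⟩ := CH_cell hx.1
  obtain ⟨⟨⟨h1, h2⟩, h3, h4⟩, hO⟩ := hx
  have hp := h_pos j
  have hL := L_succ j
  have e1 : |vv j x.1| ≤ h j := by
    unfold vv; rw [c1, abs_le]; constructor <;> linarith
  have e2 : |vv j x.2| ≤ h j := by
    unfold vv; rw [c2, abs_le]; constructor <;> linarith
  refine le_antisymm (max_le e1 e2) ?_
  by_contra hcon
  push Not at hcon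
  have f1 : |vv j x.1| < h j := lt_of_le_of_lt (le_TT1 j x) hcon
  have f2 : |vv j x.2| < h j := lt_of_le_of_lt (le_TT2 j x) hcon
  have g1 := OH_of_small f1
  have g2 := OH_of_small f2
  rw [c1] at g1
  rw [c2] at g2
  exact hO ⟨g1, g2⟩

/-- jumps of type `j` preserve the twisted vector -/
theorem jump_same {j : ℕ} {x x' : Pt} (hj : Jump j x x') (e : ℤ) :
    cellI j x'.1 = cellI j x.1 ∧ cellI j x'.2 = cellI j x.2 ∧ FA j x' (-e) = FA j x e ∧
      FB j x' (-e) = FB j x e := by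
  obtain ⟨A, B, hx, rfl⟩ := hj
  obtain ⟨c1, c2⟩ := CH_cell hx.1
  obtain ⟨c3, c4⟩ := CH_cell (rho_Bd hx).1
  have T1 := Bd_TT hx
  have T2 := Bd_TT (rho_Bd hx)
  have v1 : vv j (rho j A B x).1 = - vv j x.1 := by
    unfold vv; rw [c1, c3]; unfold rho; simp only; ring
  have v2 : vv j (rho j A B x).2 = - vv j x.2 := by
    unfold vv; rw [c2, c4]; unfold rho; simp only; ring
  refine ⟨c3.trans c1.symm, c4.trans c2.symm, ?_, ?_⟩
  · unfold FA; rw [T1, T2, v1, v2]; ring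
  · unfold FB; rw [T1, T2, v1, v2]; ring

/-- lower bound on the size of the twisted vector -/
theorem F_size {j : ℕ} {x : Pt} (hP : P x) {e : ℤ} (he : e = 1 ∨ e = -1) :
    h j ^ 2 ≤ max |FA j x e| |FB j x e| := by
  have hp := h_pos j
  have t1 := TT_ge (j := j) hP
  have t3 := TT_le j x
  by_contra hcon
  push Not at hcon
  rw [max_lt_iff] at hcon
  obtain ⟨c1, c2⟩ := hcon
  have s1 : FA j x e ^ 2 < (h j ^ 2) ^ 2 := by
    rw [← sq_abs (FA j x e)]
    exact pow_lt_pow_left₀ c1 (abs_nonneg _) (by norm_num)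
  have s2 : FB j x e ^ 2 < (h j ^ 2) ^ 2 := by
    rw [← sq_abs (FB j x e)]
    exact pow_lt_pow_left₀ c2 (abs_nonneg _) (by norm_num)
  have e2 : e ^ 2 = 1 := by rcases he with rfl | rfl <;> norm_num
  have id : FA j x e ^ 2 + FB j x e ^ 2 =
      ((TT j x - h j) ^ 2 + e ^ 2 * (3 * h j - TT j x) ^ 2) * (vv j x.1 ^ 2 + vv j x.2 ^ 2) := by
    unfold FA FB; ring
  rw [e2, one_mul] at id
  have q1 : 2 * h j ^ 2 ≤ (TT j x - h j) ^ 2 + (3 * h j - TT j x) ^ 2 := by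
    nlinarith [sq_nonneg ((TT j x - h j) - (3 * h j - TT j x))]
  have q2 : h j ^ 2 ≤ vv j x.1 ^ 2 + vv j x.2 ^ 2 := by
    have q3 : TT j x ^ 2 ≤ vv j x.1 ^ 2 + vv j x.2 ^ 2 := by
      rcases max_choice |vv j x.1| |vv j x.2| with hc | hc
      · have : TT j x = |vv j x.1| := hc
        rw [this, sq_abs]; nlinarith [sq_nonneg (vv j x.2)]
      · have : TT j x = |vv j x.2| := hc
        rw [this, sq_abs]; nlinarith [sq_nonneg (vv j x.1)]
    nlinarith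
  have q4 : (2 * h j ^ 2) * (h j ^ 2) ≤
      ((TT j x - h j) ^ 2 + (3 * h j - TT j x) ^ 2) * (vv j x.1 ^ 2 + vv j x.2 ^ 2) :=
    mul_le_mul q1 q2 (by positivity) (by positivity)
  nlinarith

end Pool.Agent.Roe
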