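import Pool.Agent.Lib_MP_270856_an.UpperY

set_option autoImplicit false

namespace Pool.Agent.Roe

/-- half of `L (j + 1)` -/
def Mh (j : ℕ) : ℤ := 24 * 16 ^ j * L j

theorem L_eq_two_Mh (j : ℕ) : L (j + 1) = 2 * Mh j := by
  rw [L_succ, h_eq]; unfold k Mh; ring

theorem Mh_pos (j : ℕ) : 0 < Mh j := by
  have := L_pos (j + 1)
  rw [L_eq_two_Mh] at this
  omega

/-- gap function -/
def bee (F G : ℤ) : ℤ := 2 * min |F| |G| - max |F| |G|

/-- vertex label -/
def lab0f (M a F b G : ℤ) : Pt := ((2 * a + 1 + Int.sign F) * M, (2 * b + 1 + Int.sign G) * M)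

/-- edge label -/
def lab1f (M a F b G : ℤ) : Pt :=
  if |G| < |F| then ((2 * a + 1 + Int.sign F) * M, (2 * b + 1) * M)
  else ((2 * a + 1) * M, (2 * b + 1 + Int.sign G) * M)

theorem Cl_abs {j : ℕ} {η a F a' F' : ℤ} (hc : Cl j η a F a' F') (hη : 0 ≤ η)
    (hη' : η ≤ 6 * h j ^ 2)
    (hF : |F| ≤ 6 * h j ^ 2) (hF' : |F'| ≤ 6 * h j ^ 2) : |(|F| - |F'|)| ≤ η := by
  rcases hc with ⟨_, hc⟩ | ⟨_, hc, hc'⟩ | ⟨_, hc, hc'⟩
  · exact (abs_abs_sub_abs_le _ _).trans hc
  · have h1 : |F| = F := abs_of_nonneg (by linarith)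
    have h2 : |F'| = -F' := abs_of_nonpos (by linarith)
    rw [h1] at hF ⊢
    rw [h2] at hF' ⊢
    rw [abs_le]; constructor <;> linarith
  · have h1 : |F| = -F := abs_of_nonpos (by linarith)
    have h2 : |F'| = F' := abs_of_nonneg (by linarith)
    rw [h1] at hF ⊢
    rw [h2] at hF' ⊢
    rw [abs_le]; constructor <;> linarith

theorem Cl_lab {j : ℕ} {η a F a' F' : ℤ} (hc : Cl j η a F a' F')
    (hη' : η < 6 * h j ^ 2) (hF : η < |F|) :
    2 * a + 1 + Int.sign F = 2 * a' + 1 + Int.sign F' := by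
  rcases hc with ⟨ha, hc⟩ | ⟨ha, hc, hc'⟩ | ⟨ha, hc, hc'⟩
  · rw [abs_le] at hc
    rcases le_or_gt 0 F with h0 | h0
    · rw [abs_of_nonneg h0] at hF
      rw [ha, Int.sign_eq_one_of_pos (by linarith), Int.sign_eq_one_of_pos (by linarith)]
    · rw [abs_of_neg h0] at hF
      rw [ha, Int.sign_eq_neg_one_of_neg (by linarith), Int.sign_eq_neg_one_of_neg (by linarith)]
  · rw [ha, Int.sign_eq_one_of_pos (by linarith), Int.sign_eq_neg_one_of_neg (by linarith)]
    ring
  · rw [ha, Int.sign_eq_one_of_pos (a := F') (by linarith),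
      Int.sign_eq_neg_one_of_neg (a := F) (by linarith)]
    ring

theorem Cl_cell {j : ℕ} {η a F a' F' : ℤ} (hc : Cl j η a F a' F') (hF : |F| < 6 * h j ^ 2 - η) :
    a = a' := by
  rcases hc with ⟨ha, _⟩ | ⟨_, hc, _⟩ | ⟨_, _, hc'⟩
  · exact ha
  · have := le_abs_self F
    linarith
  · have := neg_le_abs F
    linarith

/-- effect of a small step on the gap function and the labels -/
theorem step_labels {j : ℕ} {η M a F b G a' F' b' G' : ℤ} (h1 : Cl j η a F a' F')
    (h2 : Cl j η b G b' G') (hη : 0 ≤ η) (hη' : 128 * η ≤ h j ^ 2)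
    (bF : |F| ≤ 6 * h j ^ 2) (bF' : |F'| ≤ 6 * h j ^ 2) (bG : |G| ≤ 6 * h j ^ 2)
    (bG' : |G'| ≤ 6 * h j ^ 2) (hsize : h j ^ 2 ≤ max |F| |G|) :
    |bee F G - bee F' G'| ≤ 3 * η ∧
    (- h j ^ 2 ≤ 2 * bee F G → lab0f M a F b G = lab0f M a' F' b' G') ∧
    (2 * bee F G < h j ^ 2 → lab1f M a F b G = lab1f M a' F' b' G') := by
  have hh : 0 < h j ^ 2 := by have := h_pos j; positivity
  have f1 := Cl_abs h1 hη (by linarith) bF bF'
  have f2 := Cl_abs h2 hη (by linarith) bG bG'
  refine ⟨?_, ?_, ?_⟩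
  · unfold bee
    have m1 : abs (min |F| |G| - min |F'| |G'|) ≤ η :=
      (abs_min_sub_min_le_max _ _ _ _).trans (max_le f1 f2)
    have m2 : abs (max |F| |G| - max |F'| |G'|) ≤ η :=
      (abs_max_sub_max_le_max _ _ _ _).trans (max_le f1 f2)
    rw [abs_le] at *
    constructor <;> linarith [m1.1, m1.2, m2.1, m2.2]
  · intro hb
    unfold bee at hb
    have m1 : h j ^ 2 ≤ 4 * min |F| |G| := by linarith
    have m2 := min_le_left |F| |G|
    have m3 := min_le_right |F| |G|
    unfold lab0f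
    rw [Cl_lab h1 (by linarith) (by linarith), Cl_lab h2 (by linarith) (by linarith)]
  · intro hb
    unfold bee at hb
    rw [abs_le] at f1 f2
    unfold lab1f
    rcases lt_or_ge |G| |F| with hlt | hge
    · rw [max_eq_left hlt.le] at hb hsize
      rw [min_eq_right hlt.le] at hb
      have c1 : |G'| < |F'| := by linarith [f1.1, f1.2, f2.1, f2.2]
      rw [if_pos hlt, if_pos c1, Cl_lab h1 (by linarith) (by linarith),
        Cl_cell h2 (by linarith)]
    · rw [max_eq_right hge] at hb hsize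
      rw [min_eq_left hge] at hb
      have c1 : ¬ |G'| < |F'| := by
        intro hcon
        linarith [f1.1, f1.2, f2.1, f2.2]
      rw [if_neg (not_lt.2 hge), if_neg c1, Cl_lab h2 (by linarith) (by linarith),
        Cl_cell h1 (by linarith)]

/-! ### jumps of larger type -/

/-- reflection of one coordinate -/
theorem refl_coord {j : ℕ} {x W : ℤ} (hW : L (j + 1) ∣ W) :
    (L (j + 1) ∣ x ∧ L (j + 1) ∣ (W - x) ∧ vv j x = -(3 * h j) ∧ vv j (W - x) = -(3 * h j) ∧
      (2 * cellI j x) * Mh j = x ∧ (2 * cellI j (W - x)) * Mh j = W - x) ∨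
    (¬ L (j + 1) ∣ x ∧ vv j (W - x) = - vv j x ∧
      (2 * cellI j (W - x) + 1) * Mh j = W - (2 * cellI j x + 1) * Mh j) := by
  have hL := L_succ j
  have hM := L_eq_two_Mh j
  have hLp := L_pos (j + 1)
  have dvd_case : ∀ z : ℤ, L (j + 1) ∣ z → vv j z = -(3 * h j) ∧ (2 * cellI j z) * Mh j = z := by
    intro z hz
    have h1 : cellI j z * L (j + 1) = z := Int.ediv_mul_cancel hz
    constructor
    · unfold vv; linarith
    · rw [hM] at h1; linarith
  by_cases hx : L (j + 1) ∣ x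
  · left
    have hx' : L (j + 1) ∣ (W - x) := dvd_sub hW hx
    obtain ⟨e1, e2⟩ := dvd_case x hx
    obtain ⟨e3, e4⟩ := dvd_case _ hx'
    exact ⟨hx, hx', e1, e3, e2, e4⟩
  · right
    obtain ⟨w, rfl⟩ := hW
    have h1 := cellI_le j x
    have h2 := lt_cellI j x
    have h3 : cellI j x * L (j + 1) ≠ x := fun he => hx ⟨cellI j x, by rw [mul_comm]; exact he.symm⟩
    have h4 : cellI j x * L (j + 1) < x := lt_of_le_of_ne h1 h3
    have h5 : cellI j (L (j + 1) * w - x) = w - 1 - cellI j x := by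
      apply cellI_unique <;> nlinarith
    refine ⟨hx, ?_, ?_⟩
    · unfold vv; rw [h5]; ring
    · rw [h5, hM]; ring

theorem TT_far {j : ℕ} {x : Pt} (hx : L (j + 1) ∣ x.1 ∨ L (j + 1) ∣ x.2) : TT j x = 3 * h j := by
  have hp := h_pos j
  refine le_antisymm (TT_le j x) ?_
  rcases hx with hx | hx
  · rcases refl_coord (j := j) (x := x.1) (W := 0) (dvd_zero _) with h1 | h1
    · have := le_TT1 j x
      rw [h1.2.2.1, abs_neg, abs_of_pos (by linarith)] at this
      exact this
    · exact absurd hx h1.1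
  · rcases refl_coord (j := j) (x := x.2) (W := 0) (dvd_zero _) with h1 | h1
    · have := le_TT2 j x
      rw [h1.2.2.1, abs_neg, abs_of_pos (by linarith)] at this
      exact this
    · exact absurd hx h1.1

theorem FA_far {j : ℕ} {x : Pt} (hx : L (j + 1) ∣ x.1 ∨ L (j + 1) ∣ x.2) (e : ℤ) :
    FA j x e = 2 * h j * vv j x.1 := by
  unfold FA; rw [TT_far hx]; ring

theorem FB_far {j : ℕ} {x : Pt} (hx : L (j + 1) ∣ x.1 ∨ L (j + 1) ∣ x.2) (e : ℤ) :
    FB j x e = 2 * h j * vv j x.2 := by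
  unfold FB; rw [TT_far hx]; ring

theorem sign_F {j : ℕ} (v : ℤ) : Int.sign (2 * h j * v) = Int.sign v := by
  have hp := h_pos j
  rw [Int.sign_mul, Int.sign_eq_one_of_pos (by linarith), one_mul]

/-- the position of a label coordinate -/
structure GoodQ (lo hi x q : ℤ) : Prop where
  h1 : lo ≤ q
  h2 : q ≤ hi
  h3 : (x = lo ∨ x = hi) → q = x

/-- vertex type coordinate -/
theorem goodQ_vertex {j : ℕ} {lo hi x : ℤ} (dlo : L (j + 1) ∣ lo) (dhi : L (j + 1) ∣ hi)
    (h1 : lo ≤ x) (h2 : x ≤ hi) :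
    GoodQ lo hi x ((2 * cellI j x + 1 + Int.sign (vv j x)) * Mh j) := by
  have hM := L_eq_two_Mh j
  have hMp := Mh_pos j
  have hp := h_pos j
  have hLp := L_pos (j + 1)
  rcases refl_coord (j := j) (x := x) (W := 0) (dvd_zero _) with hr | hr
  · have : (2 * cellI j x + 1 + Int.sign (vv j x)) * Mh j = x := by
      rw [hr.2.2.1, Int.sign_eq_neg_one_of_neg (by linarith)]
      have := hr.2.2.2.2.1
      linarith
    rw [this]
    exact ⟨h1, h2, fun _ => rfl⟩
  · have hne := hr.1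
    have c1 := cellI_le j x
    have c2 := lt_cellI j x
    have c3 : cellI j x * L (j + 1) ≠ x := fun he => hne ⟨cellI j x, by rw [mul_comm]; exact he.symm⟩
    have c4 : cellI j x * L (j + 1) < x := lt_of_le_of_ne c1 c3
    have l1 : lo < x := lt_of_le_of_ne h1 (fun he => hne (he ▸ dlo))
    have l2 : x < hi := lt_of_le_of_ne h2 (fun he => hne (he ▸ dhi))
    obtain ⟨i1, i2⟩ := interval_aux hLp dlo dhi l1 l2 (a := cellI j x) c4 (by linarith)
    rw [hM] at i1 i2
    have s1 : Int.sign (vv j x) = 1 ∨ Int.sign (vv j x) = -1 ∨ Int.sign (vv j x) = 0 := by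
      rcases lt_trichotomy (vv j x) 0 with h0 | h0 | h0
      · right; left; exact Int.sign_eq_neg_one_of_neg h0
      · right; right; rw [h0]; rfl
      · left; exact Int.sign_eq_one_of_pos h0
    refine ⟨?_, ?_, ?_⟩
    · rcases s1 with s1 | s1 | s1 <;> rw [s1] <;> nlinarith
    · rcases s1 with s1 | s1 | s1 <;> rw [s1] <;> nlinarith
    · rintro (he | he)
      · exact absurd he l1.ne'
      · exact absurd he l2.ne

/-- center type coordinate -/
theorem goodQ_center {j : ℕ} {lo hi x : ℤ} (dlo : L (j + 1) ∣ lo) (dhi : L (j + 1) ∣ hi)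
    (h1 : lo ≤ x) (h2 : x ≤ hi) (hne : ¬ L (j + 1) ∣ x) :
    GoodQ lo hi x ((2 * cellI j x + 1) * Mh j) := by
  have hM := L_eq_two_Mh j
  have hMp := Mh_pos j
  have hLp := L_pos (j + 1)
  have c1 := cellI_le j x
  have c2 := lt_cellI j x
  have c3 : cellI j x * L (j + 1) ≠ x := fun he => hne ⟨cellI j x, by rw [mul_comm]; exact he.symm⟩
  have c4 : cellI j x * L (j + 1) < x := lt_of_le_of_ne c1 c3
  have l1 : lo < x := lt_of_le_of_ne h1 (fun he => hne (he ▸ dlo))
  have l2 : x < hi := lt_of_le_of_ne h2 (fun he => hne (he ▸ dhi))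
  obtain ⟨i1, i2⟩ := interval_aux hLp dlo dhi l1 l2 (a := cellI j x) c4 (by linarith)
  rw [hM] at i1 i2
  refine ⟨by nlinarith, by nlinarith, ?_⟩
  rintro (he | he)
  · exact absurd he l1.ne'
  · exact absurd he l2.ne

theorem Bd_of_goodQ {l : ℕ} {A B : ℤ} {x q : Pt} (hx : Bd l A B x)
    (h1 : GoodQ (A * L (l + 1) + h l) (A * L (l + 1) + 2 * h l) x.1 q.1)
    (h2 : GoodQ (B * L (l + 1) + h l) (B * L (l + 1) + 2 * h l) x.2 q.2) : Bd l A B q := by
  refine ⟨⟨⟨h1.h1, h1.h2⟩, h2.h1, h2.h2⟩, ?_⟩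
  rintro ⟨⟨o1, o2⟩, o3, o4⟩
  apply hx.2
  obtain ⟨⟨c1, c2⟩, c3, c4⟩ := hx.1
  refine ⟨⟨lt_of_le_of_ne c1 ?_, lt_of_le_of_ne c2 ?_⟩, lt_of_le_of_ne c3 ?_,
    lt_of_le_of_ne c4 ?_⟩
  · intro he
    have := h1.h3 (Or.inl he.symm)
    rw [this] at o1
    linarith
  · intro he
    have := h1.h3 (Or.inr he)
    rw [this] at o2
    linarith
  · intro he
    have := h2.h3 (Or.inl he.symm)
    rw [this] at o3
    linarith
  · intro he
    have := h2.h3 (Or.inr he)
    rw [this] at o4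
    linarith

/-- label data at a point -/
def be (j : ℕ) (x : Pt) (e : ℤ) : ℤ := bee (FA j x e) (FB j x e)
def lab0 (j : ℕ) (x : Pt) (e : ℤ) : Pt :=
  lab0f (Mh j) (cellI j x.1) (FA j x e) (cellI j x.2) (FB j x e)
def lab1 (j : ℕ) (x : Pt) (e : ℤ) : Pt :=
  lab1f (Mh j) (cellI j x.1) (FA j x e) (cellI j x.2) (FB j x e)

theorem far_jump {j l : ℕ} (hjl : j < l) {A B : ℤ} {x : Pt} (hx : Bd l A B x) (e : ℤ) :
    be j (rho l A B x) e = be j x e ∧
    (Bd l A B (lab0 j x e) ∧ lab0 j (rho l A B x) e = rho l A B (lab0 j x e)) ∧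
    (2 * be j x e < h j ^ 2 →
      (Bd l A B (lab1 j x e) ∧ lab1 j (rho l A B x) e = rho l A B (lab1 j x e))) := by
  have hp := h_pos j
  have d0 : L (j + 1) ∣ L l := L_dvd hjl
  have d1 : L (j + 1) ∣ L (l + 1) := d0.trans (L_dvd_succ l)
  have d2 : L (j + 1) ∣ h l := d0.trans (L_dvd_h l)
  have dlo : ∀ C : ℤ, L (j + 1) ∣ C * L (l + 1) + h l := fun C =>
    dvd_add (dvd_mul_of_dvd_right d1 _) d2
  have dhi : ∀ C : ℤ, L (j + 1) ∣ C * L (l + 1) + 2 * h l := fun C =>
    dvd_add (dvd_mul_of_dvd_right d1 _) (dvd_mul_of_dvd_right d2 _)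
  have dW : ∀ C : ℤ, L (j + 1) ∣ (2 * C + 1) * L (l + 1) := fun C => dvd_mul_of_dvd_right d1 _
  have gx : L (j + 1) ∣ x.1 ∨ L (j + 1) ∣ x.2 := by
    rcases Bd_grid hx with hg | hg
    · exact Or.inl (d0.trans hg)
    · exact Or.inr (d0.trans hg)
  have gx' : L (j + 1) ∣ (rho l A B x).1 ∨ L (j + 1) ∣ (rho l A B x).2 := by
    rcases gx with hg | hg
    · exact Or.inl (dvd_sub (dW A) hg)
    · exact Or.inr (dvd_sub (dW B) hg)
  have r1 : (rho l A B x).1 = (2 * A + 1) * L (l + 1) - x.1 := rfl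
  have r2 : (rho l A B x).2 = (2 * B + 1) * L (l + 1) - x.2 := rfl
  -- coordinatewise facts
  have absv : ∀ (z W : ℤ), L (j + 1) ∣ W → |vv j (W - z)| = |vv j z| := by
    intro z W hW
    rcases refl_coord (x := z) hW with hr | hr
    · rw [hr.2.2.1, hr.2.2.2.1]
    · rw [hr.2.1, abs_neg]
  have labv : ∀ (z W : ℤ), L (j + 1) ∣ W →
      (2 * cellI j (W - z) + 1 + Int.sign (vv j (W - z))) * Mh j =
        W - (2 * cellI j z + 1 + Int.sign (vv j z)) * Mh j := by
    intro z W hW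
    rcases refl_coord (x := z) hW with ⟨_, _, e1, e2, e3, e4⟩ | ⟨_, e1, e2⟩
    · rw [e1, e2, Int.sign_eq_neg_one_of_neg (by linarith)]
      linarith
    · rw [e1, Int.sign_neg]
      linarith
  have fa := FA_far gx e
  have fb := FB_far gx e
  have fa' := FA_far gx' e
  have fb' := FB_far gx' e
  have absF : |FA j (rho l A B x) e| = |FA j x e| := by
    rw [fa, fa', abs_mul (2 * h j), abs_mul (2 * h j), r1, absv _ _ (dW A)]
  have absG : |FB j (rho l A B x) e| = |FB j x e| := by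
    rw [fb, fb', abs_mul (2 * h j), abs_mul (2 * h j), r2, absv _ _ (dW B)]
  obtain ⟨⟨c1, c2⟩, c3, c4⟩ := hx.1
  refine ⟨?_, ⟨?_, ?_⟩, ?_⟩
  · unfold be bee
    rw [absF, absG]
  · apply Bd_of_goodQ hx
    · show GoodQ _ _ _ ((2 * cellI j x.1 + 1 + Int.sign (FA j x e)) * Mh j)
      rw [fa, sign_F]
      exact goodQ_vertex (dlo A) (dhi A) c1 c2
    · show GoodQ _ _ _ ((2 * cellI j x.2 + 1 + Int.sign (FB j x e)) * Mh j)
      rw [fb, sign_F]
      exact goodQ_vertex (dlo B) (dhi B) c3 c4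
  · unfold lab0 lab0f
    rw [fa, fb, fa', fb', sign_F, sign_F, sign_F, sign_F, r1, r2, labv _ _ (dW A),
      labv _ _ (dW B)]
    rfl
  · intro hb
    -- the smaller coordinate is off the grid
    have big : ∀ z : ℤ, L (j + 1) ∣ z → |2 * h j * vv j z| = 6 * h j ^ 2 := by
      intro z hz
      rcases refl_coord (x := z) (W := 0) (dvd_zero _) with hr | hr
      · rw [hr.2.2.1, abs_mul, abs_neg, abs_of_pos (by linarith), abs_of_pos (by linarith)]
        ring
      · exact absurd hz hr.1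
    have upper : ∀ z : ℤ, |2 * h j * vv j z| ≤ 6 * h j ^ 2 := by
      intro z
      have := vv_abs j z
      rw [abs_mul, abs_of_pos (by linarith : 0 < 2 * h j)]
      nlinarith
    have hh : 0 < h j ^ 2 := by positivity
    unfold be bee at hb
    rcases lt_or_ge |FB j x e| |FA j x e| with hlt | hge
    · have off : ¬ L (j + 1) ∣ x.2 := by
        intro hd
        have h1 := big _ hd
        have h2 := upper x.1
        rw [← fb] at h1
        rw [← fa] at h2
        linarith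
      have hlt' : |FB j (rho l A B x) e| < |FA j (rho l A B x) e| := by rwa [absF, absG]
      unfold lab1 lab1f
      rw [if_pos hlt, if_pos hlt']
      constructor
      · apply Bd_of_goodQ hx
        · simp only
          rw [fa, sign_F]
          exact goodQ_vertex (dlo A) (dhi A) c1 c2
        · simp only
          exact goodQ_center (dlo B) (dhi B) c3 c4 off
      · rw [fa, fa', sign_F, sign_F, r1, r2, labv _ _ (dW A)]
        rcases refl_coord (x := x.2) (dW B) with hr | hr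
        · exact absurd hr.1 off
        · rw [hr.2.2]
          rfl
    · have off : ¬ L (j + 1) ∣ x.1 := by
        intro hd
        have h1 := big _ hd
        have h2 := upper x.2
        rw [← fa] at h1
        rw [← fb] at h2
        have h3 : |FB j x e| = |FA j x e| := by linarith
        rw [h3, min_self, max_self, h1] at hb
        linarith
      have hge' : ¬ |FB j (rho l A B x) e| < |FA j (rho l A B x) e| := by
        rw [absF, absG]; exact not_lt.2 hge
      unfold lab1 lab1f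
      rw [if_neg (not_lt.2 hge), if_neg hge']
      constructor
      · apply Bd_of_goodQ hx
        · simp only
          exact goodQ_center (dlo A) (dhi A) c1 c2 off
        · simp only
          rw [fb, sign_F]
          exact goodQ_vertex (dlo B) (dhi B) c3 c4
      · rw [fb, fb', sign_F, sign_F, r1, r2, labv _ _ (dW B)]
        rcases refl_coord (x := x.1) (dW A) with hr | hr
        · exact absurd hr.1 off
        · rw [hr.2.2]
          rfl

end Pool.Agent.Roe
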