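import Pool.Agent.Lib_MP_270856_an.UpperY2

set_option autoImplicit false

namespace Pool.Agent.Roe

/-- forget the digits up to `j` -/
def truncG (j : ℕ) (g : Bits) : Bits :=
  ⟨fun i => if i ≤ j then (false, false) else g.1 i, by
    obtain ⟨N, hN⟩ := g.2
    refine ⟨N, fun i hi => ?_⟩
    simp [hN i hi]⟩

theorem truncG_congr {j : ℕ} {g g' : Bits} (ha : ∀ i, j < i → g.1 i = g'.1 i) :
    truncG j g = truncG j g' := by
  apply Bits.ext'
  intro i
  show (if i ≤ j then (false, false) else g.1 i) = (if i ≤ j then (false, false) else g'.1 i)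
  by_cases hi : i ≤ j
  · rw [if_pos hi, if_pos hi]
  · rw [if_neg hi, if_neg hi, ha i (not_le.1 hi)]

theorem truncG_inj {j : ℕ} {g g' : Bits} (ht : truncG j g = truncG j g') :
    ∀ i, j < i → g.1 i = g'.1 i := by
  intro i hi
  have h1 : (truncG j g).1 i = (truncG j g').1 i := by rw [ht]
  have h2 : (if i ≤ j then ((false, false) : BB) else g.1 i) =
      (if i ≤ j then (false, false) else g'.1 i) := h1
  rwa [if_neg (not_le.2 hi), if_neg (not_le.2 hi)] at h2

/-- the set label -/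
def Lab (j : ℕ) (q : Pt) (g : Bits) : Set (Pt × Bits) :=
  {lam | lam = (q, truncG j g) ∨
    ∃ l, j < l ∧ P q ∧ Jump l q lam.1 ∧ lam.2 = truncG j (flip l g)}

theorem Lab_congr {j : ℕ} {q : Pt} {g g' : Bits} (ha : ∀ i, j < i → g.1 i = g'.1 i) :
    Lab j q g = Lab j q g' := by
  have h1 := truncG_congr ha
  have h2 : ∀ l, truncG j (flip l g) = truncG j (flip l g') := by
    intro l
    apply truncG_congr
    intro i hi
    rw [flip_apply, flip_apply, ha i hi]
  unfold Lab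
  rw [h1]
  ext lam
  simp only [Set.mem_ofPred_eq, h2]

theorem Lab_jump_sub {j l : ℕ} (hl : j < l) {q q' : Pt} (hP : P q) (hj : Jump l q q') (g : Bits) :
    Lab j q g ⊆ Lab j q' (flip l g) := by
  rintro lam (rfl | ⟨l', hl', hPq, hJ, h2⟩)
  · right
    exact ⟨l, hl, Jump_P hP hj, hj.symm, by rw [flip_flip]⟩
  · left
    obtain ⟨e1, e2⟩ := Jump_unique hJ hj
    subst e1
    exact Prod.ext e2 h2

theorem Lab_jump {j l : ℕ} (hl : j < l) {q q' : Pt} (hP : P q) (hj : Jump l q q') (g : Bits) :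
    Lab j q g = Lab j q' (flip l g) := by
  apply Set.Subset.antisymm (Lab_jump_sub hl hP hj g)
  have := Lab_jump_sub hl (Jump_P hP hj) hj.symm (flip l g)
  rwa [flip_flip] at this

/-- the sign attached to a sheet -/
def eps (j : ℕ) (g : Bits) : ℤ := if (g.1 j).1 = true then -1 else 1

theorem eps_cases (j : ℕ) (g : Bits) : eps j g = 1 ∨ eps j g = -1 := by
  unfold eps; split_ifs <;> simp

theorem eps_abs (j : ℕ) (g : Bits) : |eps j g| ≤ 1 := by
  rcases eps_cases j g with he | he <;> rw [he] <;> simp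

theorem eps_flip_self (j : ℕ) (g : Bits) : eps j (flip j g) = - eps j g := by
  unfold eps
  rw [flip_self]
  unfold sw
  cases (g.1 j).1 <;> simp

theorem eps_congr {j : ℕ} {g g' : Bits} (hg : g.1 j = g'.1 j) : eps j g = eps j g' := by
  unfold eps; rw [hg]

/-- gap function on `Y` -/
def BY (j : ℕ) (y : XPt × Bits) : ℤ := be j y.1.p (eps j y.2)
def L0 (j : ℕ) (y : XPt × Bits) : Set (Pt × Bits) := Lab j (lab0 j y.1.p (eps j y.2)) y.2
def L1 (j : ℕ) (y : XPt × Bits) : Set (Pt × Bits) := Lab j (lab1 j y.1.p (eps j y.2)) y.2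

/-- the Lipschitz bound -/
def eta (j : ℕ) : ℤ := 28 * (L j * h j)

theorem eta_nonneg (j : ℕ) : 0 ≤ eta j := by
  have := L_pos j
  have := h_pos j
  unfold eta; positivity

theorem step_Y {j n : ℕ} (hnj : n ≤ j) (hη : 128 * eta j ≤ h j ^ 2) {y y' : XPt × Bits}
    (hs : SY n y y') :
    |BY j y - BY j y'| ≤ 3 * eta j ∧
    (- h j ^ 2 ≤ 2 * BY j y → L0 j y = L0 j y') ∧
    (2 * BY j y < h j ^ 2 → L1 j y = L1 j y') := by
  have hη0 := eta_nonneg j
  rcases SY_tri hnj hs with ⟨hn, ha⟩ | ⟨hj, hf⟩ | ⟨l, hl, hj, hf⟩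
  · -- near
    have he := eps_abs j y.2
    have he2 : eps j y'.2 = eps j y.2 := (eps_congr (ha j le_rfl)).symm
    obtain ⟨c1, c2⟩ := Cl_near y.1.hp y'.1.hp hn he
    obtain ⟨r1, r2, r3⟩ := step_labels (M := Mh j) c1 c2 hη0 hη
      (FA_bound y.1.hp he) (FA_bound y'.1.hp he) (FB_bound y.1.hp he) (FB_bound y'.1.hp he)
      (F_size y.1.hp (eps_cases j y.2))
    have hLab : ∀ q : Pt, Lab j q y.2 = Lab j q y'.2 := fun q =>
      Lab_congr (fun i hi => ha i hi.le)
    refine ⟨?_, ?_, ?_⟩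
    · unfold BY be; rw [he2]; exact r1
    · intro hb
      have := r2 hb
      unfold L0 lab0
      rw [he2, this, hLab]
    · intro hb
      have := r3 hb
      unfold L1 lab1
      rw [he2, this, hLab]
  · -- jump of type j
    obtain ⟨c1, c2, f1, f2⟩ := jump_same hj (eps j y.2)
    have he2 : eps j y'.2 = - eps j y.2 := by rw [hf, eps_flip_self]
    have hLab : ∀ q : Pt, Lab j q y.2 = Lab j q y'.2 := fun q =>
      Lab_congr (fun i hi => by rw [hf, flip_ne (by omega)])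
    have hB : BY j y' = BY j y := by
      unfold BY be; rw [he2, f1, f2]
    refine ⟨?_, ?_, ?_⟩
    · rw [hB]; simp; omega
    · intro _
      unfold L0 lab0
      rw [he2, f1, f2, c1, c2, hLab]
    · intro _
      unfold L1 lab1
      rw [he2, f1, f2, c1, c2, hLab]
  · -- jump of larger type
    obtain ⟨A, B, hB, hrho⟩ := hj
    have he2 : eps j y'.2 = eps j y.2 := by
      apply eps_congr; rw [hf, flip_ne (by omega)]
    obtain ⟨r1, ⟨r2, r3⟩, r4⟩ := far_jump hl hB (eps j y.2)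
    have hB' : BY j y' = BY j y := by
      unfold BY; rw [he2, hrho, r1]
    refine ⟨?_, ?_, ?_⟩
    · rw [hB']; simp; omega
    · intro _
      unfold L0
      rw [he2, hrho, r3, hf]
      exact Lab_jump hl (P_of_Bd y.1.hp hB.1 r2) ⟨A, B, r2, rfl⟩ y.2
    · intro hb
      obtain ⟨r5, r6⟩ := r4 hb
      unfold L1
      rw [he2, hrho, r6, hf]
      exact Lab_jump hl (P_of_Bd y.1.hp hB.1 r5) ⟨A, B, r5, rfl⟩ y.2

theorem chain_L0 {j n : ℕ} (hnj : n ≤ j) (hη : 128 * eta j ≤ h j ^ 2)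
    (hn : 6 * (n : ℤ) * eta j ≤ h j ^ 2) {y : XPt × Bits} (hy : 0 ≤ BY j y) :
    ∀ (t : ℕ) (z : XPt × Bits), t ≤ n → Chain (SY n) t y z →
      -(3 * (t : ℤ) * eta j) ≤ BY j z ∧ L0 j y = L0 j z
  | 0, z, _, hc => by
    have : y = z := hc
    subst this
    exact ⟨by simpa using hy, rfl⟩
  | t + 1, z, ht, ⟨w, hw, hwz⟩ => by
    have hη0 := eta_nonneg j
    obtain ⟨i1, i2⟩ := chain_L0 hnj hη hn hy t w (by omega) hw
    have htn : ((t : ℤ) + 1) ≤ n := by exact_mod_cast ht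
    have htn' : ((t : ℤ) + 1) * eta j ≤ n * eta j := mul_le_mul_of_nonneg_right htn hη0
    obtain ⟨s1, s2, _⟩ := step_Y hnj hη hwz
    rw [abs_le] at s1
    refine ⟨?_, ?_⟩
    · push_cast
      nlinarith [s1.1, s1.2]
    · rw [i2]
      apply s2
      nlinarith

theorem chain_L1 {j n : ℕ} (hnj : n ≤ j) (hη : 128 * eta j ≤ h j ^ 2)
    (hn : 6 * (n : ℤ) * eta j ≤ h j ^ 2) {y : XPt × Bits} (hy : BY j y < 0) :
    ∀ (t : ℕ) (z : XPt × Bits), t ≤ n → Chain (SY n) t y z →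
      BY j z < (3 * (t : ℤ) * eta j) ∧ L1 j y = L1 j z
  | 0, z, _, hc => by
    have : y = z := hc
    subst this
    exact ⟨by simpa using hy, rfl⟩
  | t + 1, z, ht, ⟨w, hw, hwz⟩ => by
    have hη0 := eta_nonneg j
    obtain ⟨i1, i2⟩ := chain_L1 hnj hη hn hy t w (by omega) hw
    have htn : ((t : ℤ) + 1) ≤ n := by exact_mod_cast ht
    have htn' : ((t : ℤ) + 1) * eta j ≤ n * eta j := mul_le_mul_of_nonneg_right htn hη0
    obtain ⟨s1, _, s2⟩ := step_Y hnj hη hwz
    rw [abs_le] at s1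
    refine ⟨?_, ?_⟩
    · push_cast
      nlinarith [s1.1, s1.2]
    · rw [i2]
      apply s2
      nlinarith

/-- label points are near -/
theorem lab_near_coord {j : ℕ} {x : ℤ} {s : ℤ} (hs : -1 ≤ s ∧ s ≤ 1) :
    |x - (2 * cellI j x + 1 + s) * Mh j| ≤ L (j + 1) := by
  have h1 := cellI_le j x
  have h2 := lt_cellI j x
  have hM := L_eq_two_Mh j
  have hMp := Mh_pos j
  rw [hM] at h1 h2 ⊢
  rw [abs_le]
  constructor <;> nlinarith [hs.1, hs.2]

theorem sign_bounds (z : ℤ) : -1 ≤ Int.sign z ∧ Int.sign z ≤ 1 := by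
  rcases lt_trichotomy z 0 with h0 | h0 | h0
  · rw [Int.sign_eq_neg_one_of_neg h0]; norm_num
  · rw [h0]; norm_num
  · rw [Int.sign_eq_one_of_pos h0]; norm_num

theorem lab0_near (j : ℕ) (x : Pt) (e : ℤ) : Near (j + 1) x (lab0 j x e) :=
  ⟨lab_near_coord (sign_bounds _), lab_near_coord (sign_bounds _)⟩

theorem lab1_near (j : ℕ) (x : Pt) (e : ℤ) : Near (j + 1) x (lab1 j x e) := by
  unfold lab1 lab1f
  split_ifs
  · refine ⟨lab_near_coord (sign_bounds _), ?_⟩
    have := lab_near_coord (j := j) (x := x.2) (s := 0) ⟨by norm_num, by norm_num⟩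
    simpa using this
  · refine ⟨?_, lab_near_coord (sign_bounds _)⟩
    have := lab_near_coord (j := j) (x := x.1) (s := 0) ⟨by norm_num, by norm_num⟩
    simpa using this

theorem near_add {j : ℕ} {x q x' : Pt} (h1 : Near (j + 1) x q) (h2 : Near (j + 1) x' q) :
    Near (j + 2) x x' := by
  have hL : 2 * L (j + 1) ≤ L (j + 2) := by
    have h3 := L_le_h (j + 1)
    have h4 : L (j + 2) = 3 * h (j + 1) := L_succ (j + 1)
    have h5 := L_pos (j + 1)
    linarith
  obtain ⟨a1, a2⟩ := h1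
  obtain ⟨b1, b2⟩ := h2
  rw [abs_le] at *
  constructor
  · rw [abs_le]; constructor <;> linarith [a1.1, a1.2, b1.1, b1.2]
  · rw [abs_le]; constructor <;> linarith [a2.1, a2.2, b2.1, b2.2]

/-- equal labels imply bounded distance -/
theorem bounded_of_lab {j : ℕ} {y y' : XPt × Bits} {q q' : Pt} (h1 : Near (j + 1) y.1.p q)
    (h2 : Near (j + 1) y'.1.p q') (hlab : Lab j q y.2 = Lab j q' y'.2) : cY.E (j + 3) y y' := by
  have hmem : (q', truncG j y'.2) ∈ Lab j q y.2 := by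
    rw [hlab]; exact Or.inl rfl
  rcases hmem with heq | ⟨l, hl, hP, hJ, ht⟩
  · have e1 : q' = q := congrArg Prod.fst heq
    have e2 : truncG j y'.2 = truncG j y.2 := congrArg Prod.snd heq
    subst e1
    apply cY.E_mono (m := j + 2) (by omega)
    refine Chain.mono_n (r := cY.S (j + 2)) (cY.refl _) (n := 1) (by omega) ⟨y, rfl, ?_⟩
    exact Or.inl ⟨near_add h1 h2, fun i hi => (truncG_inj e2 i (by omega)).symm⟩
  · simp only at hJ ht
    have hP' := Jump_P hP hJ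
    refine Chain.mono_n (r := cY.S (j + 3)) (cY.refl _) (n := 3) (by omega) ?_
    refine ⟨(⟨q', hP'⟩, flip l y.2), ⟨(⟨q, hP⟩, y.2), ⟨y, rfl, ?_⟩, ?_⟩, ?_⟩
    · exact Or.inl ⟨h1.mono (by omega), fun _ _ => rfl⟩
    · exact Or.inr ⟨l, hJ, rfl⟩
    · exact Or.inl ⟨h2.symm.mono (by omega), fun i hi => (truncG_inj ht i (by omega)).symm⟩

theorem pow_aux (n : ℕ) : 168 * (n : ℤ) + 3584 ≤ 16 ^ (n + 3) := by
  induction n with
  | zero => norm_num
  | succ n ih =>
    rw [show n + 1 + 3 = (n + 3) + 1 by ring, pow_succ]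
    push_cast
    nlinarith

theorem Y_asdim_one : letI := cY.metric; ∀ R : ℝ, 0 < R →
      ∃ U : Fin (1 + 1) → Set (Set (XPt × Bits)),
        (∃ D : ℝ, ∀ i, ∀ A ∈ U i, ∀ a ∈ A, ∀ b ∈ A, dist a b ≤ D) ∧
        (∀ z : XPt × Bits, ∃ i, ∃ A ∈ U i, z ∈ A) ∧
        (∀ i, ∀ A ∈ U i, ∀ B ∈ U i, A ≠ B → ∀ a ∈ A, ∀ b ∈ B, R < dist a b) := by
  letI := cY.metric
  intro R _
  set n : ℕ := ⌊R⌋₊ with hn
  set j : ℕ := n + 2 with hj
  have hLj := L_pos j
  have hhj := h_pos j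
  have hk : k j = 16 ^ (n + 3) := rfl
  have hpow := pow_aux n
  have hh : h j = k j * L j := h_eq j
  have heta : eta j = 28 * (L j * h j) := rfl
  have hLh : 0 < L j * h j := mul_pos hLj hhj
  have hsq : h j ^ 2 = k j * (L j * h j) := by rw [sq]; nth_rewrite 1 [hh]; ring
  have hη : 128 * eta j ≤ h j ^ 2 := by
    rw [heta, hsq, hk]
    have : (3584 : ℤ) ≤ 16 ^ (n + 3) := by
      have : (0 : ℤ) ≤ n := Int.natCast_nonneg n
      linarith
    nlinarith
  have hη' : 6 * (n : ℤ) * eta j ≤ h j ^ 2 := by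
    rw [heta, hsq, hk]
    have : 168 * (n : ℤ) ≤ 16 ^ (n + 3) := by linarith
    nlinarith
  have hnj : n ≤ j := by omega
  refine ⟨fun i => if i = 0 then {A | ∃ lam, A = {y | 0 ≤ BY j y ∧ L0 j y = lam}}
    else {A | ∃ lam, A = {y | BY j y < 0 ∧ L1 j y = lam}}, ⟨((j + 3 : ℕ) : ℝ), ?_⟩, ?_, ?_⟩
  · intro i A hA a ha b hb
    apply cY.dist_le_of_E
    beta_reduce at hA
    by_cases hi : i = 0
    · rw [if_pos hi] at hA
      obtain ⟨lam, rfl⟩ := hA
      exact bounded_of_lab (lab0_near j _ _) (lab0_near j _ _) (ha.2.trans hb.2.symm)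
    · rw [if_neg hi] at hA
      obtain ⟨lam, rfl⟩ := hA
      exact bounded_of_lab (lab1_near j _ _) (lab1_near j _ _) (ha.2.trans hb.2.symm)
  · intro z
    rcases le_or_gt 0 (BY j z) with hz | hz
    · exact ⟨0, {y | 0 ≤ BY j y ∧ L0 j y = L0 j z}, by
        beta_reduce; rw [if_pos rfl]; exact ⟨_, rfl⟩, hz, rfl⟩
    · exact ⟨1, {y | BY j y < 0 ∧ L1 j y = L1 j z}, by
        beta_reduce; rw [if_neg (by decide)]; exact ⟨_, rfl⟩, hz, rfl⟩
  · intro i A hA B hB hne a ha b hb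
    by_contra hcon
    push Not at hcon
    have hE : Chain (SY n) n a b := cY.E_of_dist_le hcon
    apply hne
    beta_reduce at hA hB
    by_cases hi : i = 0
    · rw [if_pos hi] at hA hB
      obtain ⟨lam, rfl⟩ := hA
      obtain ⟨mu, rfl⟩ := hB
      have := (chain_L0 hnj hη hη' ha.1 n b le_rfl hE).2
      have e : lam = mu := ha.2.symm.trans (this.trans hb.2)
      rw [e]
    · rw [if_neg hi] at hA hB
      obtain ⟨lam, rfl⟩ := hA
      obtain ⟨mu, rfl⟩ := hB
      have := (chain_L1 hnj hη hη' ha.1 n b le_rfl hE).2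
      have e : lam = mu := ha.2.symm.trans (this.trans hb.2)
      rw [e]

end Pool.Agent.Roe
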